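import Mathlib

/-!
# Matrix times vector: disjoint sets of columns with sum zero

Induction on the family: for `T ∉ 𝓣` and `k ∈ T` adding `c` to `v k` changes `∑ k ∈ T, v k` by `c`
and no sum over a set in `𝓣`.
-/

set_option autoImplicit false

namespace Pool.Agent.MV

open Finset

theorem card_family {I : Type} [Fintype I] [DecidableEq I] {d : ℕ} (𝓣 : Finset (Finset I))
    (h0 : ∀ T ∈ 𝓣, T.Nonempty) (h1 : ∀ T ∈ 𝓣, ∀ T' ∈ 𝓣, T ≠ T' → Disjoint T T') :
    (univ.filter fun v : I → Fin d → ZMod 2 => ∀ T ∈ 𝓣, ∑ k ∈ T, v k = 0).card *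
      2 ^ (d * 𝓣.card) ≤ 2 ^ (d * Fintype.card I) := by
  induction 𝓣 using Finset.induction_on with
  | empty =>
    simp [ZMod.card, ← pow_mul]
  | insert T 𝓣 hT ih =>
    have ih' := ih (fun T' hT' => h0 T' (mem_insert_of_mem hT'))
      fun T₁ h₁ T₂ h₂ => h1 T₁ (mem_insert_of_mem h₁) T₂ (mem_insert_of_mem h₂)
    obtain ⟨k, hk⟩ := h0 T (mem_insert_self _ _)
    have hk' : ∀ T' ∈ 𝓣, k ∉ T' := by
      intro T' hT' hc
      exact disjoint_left.1 (h1 T (mem_insert_self _ _) T' (mem_insert_of_mem hT')
        fun h => hT (h ▸ hT')) hk hc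
    have hupd : ∀ (v : I → Fin d → ZMod 2) (c : Fin d → ZMod 2),
        ∑ j ∈ T, Function.update v k (v k + c) j = ∑ j ∈ T, v j + c := by
      intro v c
      rw [sum_update_of_mem hk, ← add_sum_erase T v hk, sdiff_singleton_eq_erase]
      abel
    have key : (univ.filter fun v : I → Fin d → ZMod 2 =>
        ∀ T' ∈ insert T 𝓣, ∑ k ∈ T', v k = 0).card * 2 ^ d ≤
        (univ.filter fun v : I → Fin d → ZMod 2 => ∀ T' ∈ 𝓣, ∑ k ∈ T', v k = 0).card := by
      have h2 : (2 : ℕ) ^ d = (univ : Finset (Fin d → ZMod 2)).card := by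
        simp [ZMod.card]
      rw [h2, ← card_product]
      refine card_le_card_of_injOn (fun p => Function.update p.1 k (p.1 k + p.2)) ?_ ?_
      · intro p hp
        have hp1 := (mem_filter.1 (mem_product.1 (mem_coe.1 hp)).1).2
        refine mem_coe.2 (mem_filter.2 ⟨mem_univ _, fun T' hT' => ?_⟩)
        rw [← hp1 T' (mem_insert_of_mem hT')]
        refine sum_congr rfl fun j hj => ?_
        exact Function.update_of_ne (fun h : j = k => hk' T' hT' (h ▸ hj)) _ _
      · intro p hp p' hp' h
        have hp1 := (mem_filter.1 (mem_product.1 (mem_coe.1 hp)).1).2 T (mem_insert_self _ _)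
        have hp1' := (mem_filter.1 (mem_product.1 (mem_coe.1 hp')).1).2 T (mem_insert_self _ _)
        have h3 : Function.update p.1 k (p.1 k + p.2) =
          Function.update p'.1 k (p'.1 k + p'.2) := h
        have h4 : p.2 = p'.2 := by
          have e1 := hupd p.1 p.2
          have e2 := hupd p'.1 p'.2
          rw [hp1, zero_add] at e1
          rw [hp1', zero_add] at e2
          rw [← e1, ← e2, h3]
        refine Prod.ext ?_ h4
        funext j
        by_cases hj : j = k
        · subst hj
          have h5 := congrFun h3 j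
          rw [Function.update_self, Function.update_self, h4] at h5
          exact add_right_cancel h5
        · have h5 := congrFun h3 j
          rwa [Function.update_of_ne hj, Function.update_of_ne hj] at h5
    rw [card_insert_of_notMem hT]
    calc _ = (univ.filter fun v : I → Fin d → ZMod 2 =>
        ∀ T' ∈ insert T 𝓣, ∑ k ∈ T', v k = 0).card * 2 ^ d * 2 ^ (d * 𝓣.card) := by
          rw [mul_assoc, ← pow_add]
          congr 2
          ring
      _ ≤ _ := (Nat.mul_le_mul_right _ key).trans ih'

end Pool.Agent.MV
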