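import Mathlib
import Pool.Agent.Lib.MP_b573ec_lc_MV.Cfam

/-!
# Matrix times vector: the mean size of kernels

From `card_family`.  The sums over `v` of products of the `ker v U` are sums over `T₁ ⊆ U₁`, … of
such numbers, and `∑ T ⊆ U, (if T = ∅ then 1 else 2 ^ (-d)) ≤ 2` if `|U| ≤ d`.
-/

set_option autoImplicit false

namespace Pool.Agent.MV

open Finset

/-- the number of the subsets of `U` with sum `0` -/
def ker {I : Type} {d : ℕ} (v : I → Fin d → ZMod 2) (U : Finset I) : ℕ :=
  (U.powerset.filter fun T => ∑ k ∈ T, v k = 0).card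

/-- the number of the subsets of `F` if all columns in `F` are zero -/
def zer {I : Type} {d : ℕ} (v : I → Fin d → ZMod 2) (F : Finset I) : ℕ :=
  if ∀ k ∈ F, v k = 0 then 2 ^ F.card else 0

/-- the number of the `v` with kernels in the family, weighted with the kernel sizes -/
private lemma gen {I : Type} [Fintype I] [DecidableEq I] {d : ℕ} :
    ∀ (Us : List (Finset I)) (𝓣 : Finset (Finset I)), (∀ T ∈ 𝓣, T.Nonempty) →
      (∀ T ∈ 𝓣, ∀ T' ∈ 𝓣, T ≠ T' → Disjoint T T') → (∀ U ∈ Us, U.card ≤ d) →
      (∀ U ∈ Us, ∀ T ∈ 𝓣, Disjoint U T) → Us.Pairwise Disjoint →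
      (∑ v ∈ univ.filter (fun v : I → Fin d → ZMod 2 => ∀ T ∈ 𝓣, ∑ k ∈ T, v k = 0),
        (Us.map (ker v)).prod) * 2 ^ (d * 𝓣.card) ≤
        2 ^ Us.length * 2 ^ (d * Fintype.card I) := by
  intro Us
  induction Us with
  | nil =>
    intro 𝓣 h0 h1 _ _ _
    simpa using card_family 𝓣 h0 h1
  | cons U Us ih =>
    intro 𝓣 h0 h1 hc hd hp
    set B : ℕ := 2 ^ Us.length * 2 ^ (d * Fintype.card I) with hB
    set Z := univ.filter (fun v : I → Fin d → ZMod 2 => ∀ T ∈ 𝓣, ∑ k ∈ T, v k = 0) with hZ
    set a : Finset I → ℕ := fun T =>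
      ∑ v ∈ Z, if ∑ k ∈ T, v k = 0 then (Us.map (ker v)).prod else 0 with ha
    rw [List.pairwise_cons] at hp
    have hc' : ∀ U' ∈ Us, U'.card ≤ d := fun U' h => hc U' (List.mem_cons_of_mem _ h)
    have hd' : ∀ U' ∈ Us, ∀ T ∈ 𝓣, Disjoint U' T :=
      fun U' h => hd U' (List.mem_cons_of_mem _ h)
    have hsum : (∑ v ∈ Z, ((U :: Us).map (ker v)).prod) = ∑ T ∈ U.powerset, a T := by
      rw [ha, sum_comm]
      refine sum_congr rfl fun v _ => ?_
      rw [List.map_cons, List.prod_cons]
      unfold ker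
      rw [card_filter, sum_mul]
      refine sum_congr rfl fun T _ => ?_
      by_cases h : ∑ k ∈ T, v k = 0
      · rw [if_pos h, if_pos h, one_mul]
      · rw [if_neg h, if_neg h, zero_mul]
    have he : a ∅ * 2 ^ (d * 𝓣.card) ≤ B := by
      have h2 : a ∅ = ∑ v ∈ Z, (Us.map (ker v)).prod := by
        rw [ha]
        refine sum_congr rfl fun v _ => ?_
        rw [sum_empty, if_pos rfl]
      rw [h2]
      exact ih 𝓣 h0 h1 hc' hd' hp.2
    have hne : ∀ T ∈ U.powerset.erase ∅, a T * 2 ^ (d * 𝓣.card) * 2 ^ d ≤ B := by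
      intro T hT
      rw [mem_erase, mem_powerset] at hT
      have hTn : T.Nonempty := nonempty_iff_ne_empty.2 hT.1
      have hdT : ∀ T' ∈ 𝓣, Disjoint T T' := fun T' h' =>
        disjoint_of_subset_left hT.2 (hd U List.mem_cons_self T' h')
      have hnot : T ∉ 𝓣 := fun h => by
        have h3 := hdT T h
        rw [disjoint_self_iff_empty] at h3
        exact hT.1 h3
      have h4 := ih (insert T 𝓣) (by
          intro T' h'
          rw [mem_insert] at h'
          rcases h' with rfl | h'
          · exact hTn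
          · exact h0 T' h') (by
          intro T' h' T'' h'' hh
          rw [mem_insert] at h' h''
          rcases h' with rfl | h' <;> rcases h'' with rfl | h''
          · exact absurd rfl hh
          · exact hdT T'' h''
          · exact (hdT T' h').symm
          · exact h1 T' h' T'' h'' hh) hc' (by
          intro U' h' T' h''
          rw [mem_insert] at h''
          rcases h'' with rfl | h''
          · exact (disjoint_of_subset_left hT.2 (hp.1 U' h')).symm
          · exact hd' U' h' T' h'') hp.2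
      rw [card_insert_of_notMem hnot, mul_add, mul_one, pow_add, ← mul_assoc] at h4
      have h5 : a T = ∑ v ∈ univ.filter (fun v : I → Fin d → ZMod 2 =>
          ∀ T' ∈ insert T 𝓣, ∑ k ∈ T', v k = 0), (Us.map (ker v)).prod := by
        rw [ha, hZ]
        beta_reduce
        rw [← sum_filter, filter_filter]
        refine sum_congr ?_ fun v _ => rfl
        ext v
        simp only [mem_filter, mem_univ, true_and, mem_insert, forall_eq_or_imp]
        exact and_comm
      rw [h5]
      exact h4
    have hpow : 0 < 2 ^ d := pow_pos (by norm_num) d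
    refine Nat.le_of_mul_le_mul_right ?_ hpow
    rw [hsum, ← add_sum_erase _ _ (empty_mem_powerset U), List.length_cons, pow_succ]
    have h6 : (∑ T ∈ U.powerset.erase ∅, a T) * 2 ^ (d * 𝓣.card) * 2 ^ d ≤ 2 ^ d * B := by
      rw [sum_mul, sum_mul]
      refine (sum_le_sum hne).trans ?_
      rw [sum_const, smul_eq_mul]
      refine Nat.mul_le_mul_right _ ?_
      refine (card_le_card (erase_subset _ _)).trans ?_
      rw [card_powerset]
      exact Nat.pow_le_pow_right (by norm_num) (hc U List.mem_cons_self)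
    calc (a ∅ + ∑ T ∈ U.powerset.erase ∅, a T) * 2 ^ (d * 𝓣.card) * 2 ^ d
        = a ∅ * 2 ^ (d * 𝓣.card) * 2 ^ d +
          (∑ T ∈ U.powerset.erase ∅, a T) * 2 ^ (d * 𝓣.card) * 2 ^ d := by ring
      _ ≤ B * 2 ^ d + 2 ^ d * B := Nat.add_le_add (Nat.mul_le_mul_right _ he) h6
      _ = 2 ^ Us.length * 2 * 2 ^ (d * Fintype.card I) * 2 ^ d := by rw [hB]; ring

theorem avg3 {I : Type} [Fintype I] [DecidableEq I] {d : ℕ} (U₁ U₂ U₃ : Finset I)
    (h12 : Disjoint U₁ U₂) (h13 : Disjoint U₁ U₃) (h23 : Disjoint U₂ U₃)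
    (h1 : U₁.card ≤ d) (h2 : U₂.card ≤ d) (h3 : U₃.card ≤ d) :
    ∑ v : I → Fin d → ZMod 2, ker v U₁ * (ker v U₂ * ker v U₃) ≤
      8 * 2 ^ (d * Fintype.card I) := by
  have h := gen [U₁, U₂, U₃] (∅ : Finset (Finset I)) (by simp) (by simp) (by
      intro U hU
      simp only [List.mem_cons, List.not_mem_nil, or_false] at hU
      rcases hU with rfl | rfl | rfl <;> assumption) (by simp) (by
      simp only [List.pairwise_cons, List.mem_cons, List.not_mem_nil, or_false,
        forall_eq_or_imp, forall_eq, List.Pairwise.nil, and_true, IsEmpty.forall_iff,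
        implies_true]
      exact ⟨⟨h12, h13⟩, h23⟩) (d := d)
  have h4 : (univ.filter fun v : I → Fin d → ZMod 2 =>
      ∀ T ∈ (∅ : Finset (Finset I)), ∑ k ∈ T, v k = 0) = univ := by
    ext v
    simp
  rw [h4, card_empty, mul_zero, pow_zero, mul_one] at h
  refine le_trans (le_of_eq ?_) (h.trans (le_of_eq ?_))
  · refine sum_congr rfl fun v _ => ?_
    simp
  · norm_num

theorem avgF {I : Type} [Fintype I] [DecidableEq I] {d : ℕ} (hd : 1 ≤ d) (U₁ U₂ F : Finset I)
    (h12 : Disjoint U₁ U₂) (h13 : Disjoint U₁ F) (h23 : Disjoint U₂ F)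
    (h1 : U₁.card ≤ d) (h2 : U₂.card ≤ d) :
    ∑ v : I → Fin d → ZMod 2, ker v U₁ * (ker v U₂ * zer v F) ≤
      4 * 2 ^ (d * Fintype.card I) := by
  have h := gen [U₁, U₂] (F.image fun k => ({k} : Finset I)) (by
      intro T hT
      obtain ⟨k, _, rfl⟩ := mem_image.1 hT
      exact singleton_nonempty k) (by
      intro T hT T' hT' hne
      obtain ⟨k, _, rfl⟩ := mem_image.1 hT
      obtain ⟨k', _, rfl⟩ := mem_image.1 hT'
      rw [disjoint_singleton]
      intro hh
      exact hne (by rw [hh])) (by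
      intro U hU
      simp only [List.mem_cons, List.not_mem_nil, or_false] at hU
      rcases hU with rfl | rfl <;> assumption) (by
      intro U hU T hT
      obtain ⟨k, hk, rfl⟩ := mem_image.1 hT
      rw [disjoint_singleton_right]
      simp only [List.mem_cons, List.not_mem_nil, or_false] at hU
      rcases hU with rfl | rfl
      · exact fun hh => (disjoint_left.1 h13 hh) hk
      · exact fun hh => (disjoint_left.1 h23 hh) hk) (by
      simp only [List.pairwise_cons, List.mem_cons, List.not_mem_nil, or_false,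
        forall_eq, List.Pairwise.nil, and_true, IsEmpty.forall_iff, implies_true]
      exact h12) (d := d)
  rw [card_image_of_injective _ singleton_injective] at h
  have h4 : (∑ v : I → Fin d → ZMod 2, ker v U₁ * (ker v U₂ * zer v F)) =
      (∑ v ∈ univ.filter (fun v : I → Fin d → ZMod 2 =>
        ∀ T ∈ F.image (fun k => ({k} : Finset I)), ∑ k ∈ T, v k = 0),
        ([U₁, U₂].map (ker v)).prod) * 2 ^ F.card := by
    rw [sum_mul, sum_filter]
    refine sum_congr rfl fun v _ => ?_
    have h5 : (∀ T ∈ F.image (fun k => ({k} : Finset I)), ∑ k ∈ T, v k = 0) ↔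
        ∀ k ∈ F, v k = 0 := by
      simp
    unfold zer
    by_cases h6 : ∀ k ∈ F, v k = 0
    · rw [if_pos h6, if_pos (h5.2 h6)]
      simp [mul_assoc]
    · rw [if_neg h6, if_neg (fun hh => h6 (h5.1 hh))]
      simp
  rw [h4]
  refine (Nat.mul_le_mul_left _ (Nat.pow_le_pow_right (by norm_num)
    (Nat.le_mul_of_pos_left F.card hd))).trans (h.trans (le_of_eq ?_))
  norm_num

end Pool.Agent.MV
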