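import Mathlib

/-!
# Matrix times vector: the function
-/

set_option autoImplicit false

namespace Pool.Agent.MV

open Finset

/-- the input bits: the bits `x j` of a vector and the bits `a i j` of an `n × n` matrix -/
abbrev Bit (n : ℕ) : Type := Fin n ⊕ (Fin n × Fin n)

/-- `A x ≠ 0` over the field with two elements: in some row `i` the number of the `j` with
`a i j = x j = 1` is odd -/
def MulNe {n : ℕ} (z : Bit n → Bool) : Prop :=
  ∃ i : Fin n, (univ.filter fun j => z (.inr (i, j)) = true ∧ z (.inl j) = true).card % 2 = 1

end Pool.Agent.MV
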