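import Mathlib
import Pool.Agent.Lib.MP_b573ec_lc_RO.Defs
import Pool.Agent.Lib.MP_b573ec_lc_MV.Fun

/-!
# Matrix times vector: circuits with auxiliary signals, elimination: definitions
-/

set_option autoImplicit false

namespace Pool.Agent.MV

open Finset Pool.Agent.FP

/-! ## Signals: variables and functions of three earlier signals -/

/-- a signal: a variable or a function of three signals -/
inductive SGate (V Q : Type)
  | var (v : V)
  | fn (φ : Bool → Bool → Bool → Bool) (a b c : Q)

/-- functions only use signals of smaller rank -/
def SRanked {V Q : Type} (sig : Q → SGate V Q) (rank : Q → ℕ) : Prop :=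
  ∀ q φ a b c, sig q = .fn φ a b c → rank a < rank q ∧ rank b < rank q ∧ rank c < rank q

/-- `val` gives the values of the signals on the input `x` -/
def SEval {V Q : Type} (sig : Q → SGate V Q) (x : V → Bool) (val : Q → Bool) : Prop :=
  ∀ q, val q = match sig q with
    | .var v => x v
    | .fn φ a b c => φ (val a) (val b) (val c)

/-! ## Gates whose inputs are literals and signals -/

/-- a gate over a set `P` of gates; `free q b` has the value `1` if the signal `q` has the value
`b` -/
inductive MGate (V Q P : Type)
  | lit (v : V) (b : Bool)
  | free (q : Q) (b : Bool)
  | and (i j : P)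
  | or (i j : P)

/-- the wires of the gates come from gates of smaller rank -/
def MRanked {V Q P : Type} (gate : P → MGate V Q P) (rank : P → ℕ) : Prop :=
  ∀ g i j, (gate g = .and i j ∨ gate g = .or i j) → rank i < rank g ∧ rank j < rank g

/-- `val` gives the values of the gates on the input `x`, `w` being the values of the signals -/
def MEval {V Q P : Type} (gate : P → MGate V Q P) (x : V → Bool) (w : Q → Bool)
    (val : P → Bool) : Prop :=
  ∀ g, val g = match gate g with
    | .lit v b => x v == b
    | .free q b => w q == b
    | .and i j => val i && val j
    | .or i j => val i || val j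

/-- formal refutation trees; signals are not opened -/
inductive MTree {V Q P : Type} (gate : P → MGate V Q P) : P → List V → Prop
  | lit (g : P) (v : V) (b : Bool) : gate g = .lit v b → MTree gate g [v]
  | free (g : P) (q : Q) (b : Bool) : gate g = .free q b → MTree gate g []
  | left (g i j : P) (L : List V) : gate g = .and i j → MTree gate i L → MTree gate g L
  | right (g i j : P) (L : List V) : gate g = .and i j → MTree gate j L → MTree gate g L
  | both (g i j : P) (L L' : List V) : gate g = .or i j → MTree gate i L → MTree gate j L' →
      MTree gate g (L ++ L')

/-! ## Elimination -/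

open Classical in
/-- the scalar product over the field with two elements -/
def dot {m : ℕ} (a b : Fin m → Bool) : Bool :=
  decide (Odd (univ.filter fun l => a l = true ∧ b l = true).card)

/-- The state after some equations: `dead`: they have no solution; the solutions are the sums of
`z` and of some of the `g j`; `H`, `β`: the last equations which were not implied by the earlier
ones; `T j`: the number of these equations is at least `j`. -/
structure St (m : ℕ) where
  dead : Bool
  z : Fin m → Bool
  g : ℕ → Fin m → Bool
  H : ℕ → Fin m → Bool
  β : ℕ → Bool
  T : ℕ → Bool

/-- the state before the first equation -/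
def init (m : ℕ) : St m where
  dead := false
  z := fun _ => false
  g := fun j l => decide (j = (l : ℕ))
  H := fun _ _ => false
  β := fun _ => false
  T := fun j => decide (j = 0)

open Classical in
/-- some `g i`, `i ≤ j`, is not orthogonal to `a` -/
noncomputable def pre {m : ℕ} (a : Fin m → Bool) (s : St m) (j : ℕ) : Bool :=
  decide (∃ i ≤ j, dot a (s.g i) = true)

open Classical in
/-- some `g i` is not orthogonal to `a` -/
noncomputable def any {m : ℕ} (a : Fin m → Bool) (s : St m) : Bool :=
  decide (∃ i < m, dot a (s.g i) = true)

open Classical in
/-- the first `g i` which is not orthogonal to `a` -/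
noncomputable def piv {m : ℕ} (a : Fin m → Bool) (s : St m) (l : Fin m) : Bool :=
  decide (∃ i < m, dot a (s.g i) = true ∧ (∀ i' < i, dot a (s.g i') = false) ∧ s.g i l = true)

/-- the equation `a · x = r` -/
noncomputable def step {m : ℕ} (a : Fin m → Bool) (r : Bool) (s : St m) : St m where
  dead := s.dead || (xor (dot a s.z) r && !any a s)
  z := fun l => xor (s.z l) (xor (dot a s.z) r && piv a s l)
  g := fun j l => if pre a s j = true then xor (s.g (j + 1) l) (dot a (s.g (j + 1)) && piv a s l)
    else s.g j l
  H := fun j l => if any a s = true then (if j = 0 then a l else s.H (j - 1) l) else s.H j l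
  β := fun j => if any a s = true then (if j = 0 then r else s.β (j - 1)) else s.β j
  T := fun j => if any a s = true then (decide (j = 0) || s.T (j - 1)) else s.T j

/-- the state after the equations `A i · x = b i`, `i < N` -/
noncomputable def run {m : ℕ} (A : ℕ → Fin m → Bool) (b : ℕ → Bool) : ℕ → St m
  | 0 => init m
  | N + 1 => step (A N) (b N) (run A b N)

end Pool.Agent.MV
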