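import Mathlib
import Pool.Agent.Lib.MP_b573ec_lc_MV.Defs

/-!
# Matrix times vector: elimination is correct

Invariants after `N` equations, `ρ` being the number of `i < N` with `any (A i) (run A b i)`:
`ρ ≤ m`, `T j = true ↔ j ≤ ρ`, `g j = 0` for `j ≥ m - ρ`; if not `dead`, the solutions of the
equations are the sums of `z` and of some of the `g j`, `j < m`, and for each `h ≥ ρ` they are the
`x` with `dot (H j) x = β j` for all `j < h`; if `dead`, there are no solutions.
-/

set_option autoImplicit false

namespace Pool.Agent.MV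

open Finset

private def F (b : Bool) : ZMod 2 := if b = true then 1 else 0

private theorem F_inj {a b : Bool} : F a = F b ↔ a = b := by
  cases a <;> cases b <;> simp [F]

private theorem F_xor (a b : Bool) : F (xor a b) = F a + F b := by
  cases a <;> cases b <;> decide

private theorem F_and (a b : Bool) : F (a && b) = F a * F b := by
  cases a <;> cases b <;> decide

private theorem F_odd (k : ℕ) [Decidable (Odd k)] : F (decide (Odd k)) = (k : ZMod 2) := by
  rcases Nat.even_or_odd k with h | h
  · have h1 : ¬ Odd k := Nat.not_odd_iff_even.mpr h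
    have h2 : (k : ZMod 2) = 0 := (ZMod.natCast_eq_zero_iff_even).mpr h
    simp [F, h1, h2]
  · have h2 : (k : ZMod 2) = 1 := (ZMod.natCast_eq_one_iff_odd).mpr h
    simp [F, h, h2]

private theorem F_true {a : Bool} (h : a = true) : F a = 1 := by simp [F, h]

private theorem F_false {a : Bool} (h : a = false) : F a = 0 := by simp [F, h]

private theorem exF (t : ZMod 2) : ∃ c : Bool, t = F c := by
  fin_cases t
  · exact ⟨false, rfl⟩
  · exact ⟨true, rfl⟩

private theorem two (t : ZMod 2) : t + t = 0 := by
  fin_cases t <;> rfl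

private def D {m : ℕ} (a : Fin m → Bool) (v : Fin m → ZMod 2) : ZMod 2 := ∑ l, F (a l) * v l

private theorem D_add {m : ℕ} (a : Fin m → Bool) (v w : Fin m → ZMod 2) :
    D a (v + w) = D a v + D a w := by
  simp only [D, Pi.add_apply, mul_add, Finset.sum_add_distrib]

private theorem D_smul {m : ℕ} (a : Fin m → Bool) (t : ZMod 2) (v : Fin m → ZMod 2) :
    D a (t • v) = t * D a v := by
  simp only [D, Pi.smul_apply, smul_eq_mul, Finset.mul_sum]
  exact Finset.sum_congr rfl fun l _ => by ring

private theorem D_zero {m : ℕ} (a : Fin m → Bool) : D a 0 = 0 := by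
  simp [D]

private theorem F_cnt {ι : Type*} [Fintype ι] (a x : ι → Bool)
    [Decidable (Odd (univ.filter fun l => a l = true ∧ x l = true).card)] :
    F (decide (Odd (univ.filter fun l => a l = true ∧ x l = true).card)) =
      ∑ l, F (a l) * F (x l) := by
  rw [F_odd, Finset.card_filter, Nat.cast_sum]
  refine Finset.sum_congr rfl fun l _ => ?_
  cases a l <;> cases x l <;> simp [F]

private theorem F_dot {m : ℕ} (a x : Fin m → Bool) : F (dot a x) = D a (fun l => F (x l)) := by
  unfold dot D
  exact F_cnt a x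

private def Zv {m : ℕ} (s : St m) : Fin m → ZMod 2 := fun l => F (s.z l)

private def Gv {m : ℕ} (s : St m) (j : ℕ) : Fin m → ZMod 2 := fun l => F (s.g j l)

private def L {m : ℕ} (s : St m) : Submodule (ZMod 2) (Fin m → ZMod 2) :=
  Submodule.span (ZMod 2) (Set.range (Gv s))

private def Sol {m : ℕ} (A : ℕ → Fin m → Bool) (b : ℕ → Bool) (N : ℕ) (x : Fin m → Bool) : Prop :=
  ∀ i < N, dot (A i) x = b i

private theorem sol_succ {m : ℕ} (A : ℕ → Fin m → Bool) (b : ℕ → Bool) (N : ℕ)
    (x : Fin m → Bool) : Sol A b (N + 1) x ↔ Sol A b N x ∧ dot (A N) x = b N := by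
  constructor
  · intro h
    exact ⟨fun i hi => h i (by omega), h N (by omega)⟩
  · rintro ⟨h1, h2⟩ i hi
    rcases Nat.lt_succ_iff_lt_or_eq.mp hi with h | h
    · exact h1 i h
    · rw [h]; exact h2

private def Inv {m : ℕ} (A : ℕ → Fin m → Bool) (b : ℕ → Bool) (N : ℕ) (s : St m) (ρ : ℕ) : Prop :=
  ρ ≤ m ∧ (∀ j, s.T j = true ↔ j ≤ ρ) ∧ (∀ j, m ≤ j + ρ → Gv s j = 0) ∧
    (s.dead = false → ∀ x, Sol A b N x ↔ (fun l => F (x l)) - Zv s ∈ L s) ∧
    (s.dead = false → ∀ h, ρ ≤ h → ∀ x, Sol A b N x ↔ ∀ j < h, dot (s.H j) x = s.β j) ∧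
    (s.dead = true → ∀ x, ¬ Sol A b N x)

private theorem inv_init {m : ℕ} (A : ℕ → Fin m → Bool) (b : ℕ → Bool) :
    Inv A b 0 (init m) 0 := by
  refine ⟨Nat.zero_le _, ?_, ?_, ?_, ?_, ?_⟩
  · intro j
    simp [init]
  · intro j hj
    funext l
    have : ¬ j = (l : ℕ) := by have := l.2; omega
    simp [Gv, init, F, this]
  · intro _ x
    refine ⟨fun _ => ?_, fun _ i hi => absurd hi (Nat.not_lt_zero _)⟩
    have hx : (fun l => F (x l)) - Zv (init m) = ∑ l : Fin m, F (x l) • Gv (init m) (l : ℕ) := by
      funext k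
      rw [Finset.sum_apply, Finset.sum_eq_single k]
      · simp [Zv, Gv, init, F]
      · intro l _ hl
        have : ¬ (l : ℕ) = (k : ℕ) := fun h => hl (Fin.ext h)
        simp [Gv, init, F, this]
      · intro h
        exact absurd (Finset.mem_univ _) h
    rw [hx]
    exact Submodule.sum_mem _ fun l _ =>
      Submodule.smul_mem _ _ (Submodule.subset_span ⟨(l : ℕ), rfl⟩)
  · intro _ h _ x
    refine ⟨fun _ j _ => ?_, fun _ i hi => absurd hi (Nat.not_lt_zero _)⟩
    rw [← F_inj, F_dot]
    simp [init, D, F]
  · intro h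
    simp [init] at h

private theorem mem_L {m : ℕ} (s : St m) (j : ℕ) : Gv s j ∈ L s := Submodule.subset_span ⟨j, rfl⟩

private theorem inv_no {m : ℕ} (A : ℕ → Fin m → Bool) (b : ℕ → Bool) (N : ℕ) (s : St m) (ρ : ℕ)
    (h : Inv A b N s ρ) (hany : any (A N) s = false) :
    Inv A b (N + 1) (step (A N) (b N) s) ρ := by
  obtain ⟨h1, h2, h3, h4, h5, h6⟩ := h
  have hno : ∀ i, dot (A N) (s.g i) = false := by
    intro i
    by_cases hi : i < m
    · by_contra hc
      have hc' : dot (A N) (s.g i) = true := by simpa using hc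
      have : any (A N) s = true := by
        unfold any
        exact decide_eq_true ⟨i, hi, hc'⟩
      rw [this] at hany
      exact Bool.noConfusion hany
    · have hz := h3 i (by omega)
      rw [← F_inj, F_dot]
      have : (fun l => F (s.g i l)) = 0 := hz
      rw [this, D_zero]
      rfl
  have hpre : ∀ j, pre (A N) s j = false := by
    intro j
    unfold pre
    refine decide_eq_false ?_
    rintro ⟨i, _, hi⟩
    rw [hno i] at hi
    exact Bool.noConfusion hi
  have hpiv : ∀ l, piv (A N) s l = false := by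
    intro l
    unfold piv
    refine decide_eq_false ?_
    rintro ⟨i, _, hi, _⟩
    rw [hno i] at hi
    exact Bool.noConfusion hi
  have ez : (step (A N) (b N) s).z = s.z := by
    funext l
    simp [step, hpiv]
  have eg : (step (A N) (b N) s).g = s.g := by
    funext j l
    simp [step, hpre]
  have eH : (step (A N) (b N) s).H = s.H := by
    funext j l
    simp [step, hany]
  have eβ : (step (A N) (b N) s).β = s.β := by
    funext j
    simp [step, hany]
  have eT : (step (A N) (b N) s).T = s.T := by
    funext j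
    simp [step, hany]
  have ed : (step (A N) (b N) s).dead = (s.dead || xor (dot (A N) s.z) (b N)) := by
    simp [step, hany]
  have eZv : Zv (step (A N) (b N) s) = Zv s := by
    unfold Zv; rw [ez]
  have eGv : Gv (step (A N) (b N) s) = Gv s := by
    funext j
    unfold Gv; rw [eg]
  have eL : L (step (A N) (b N) s) = L s := by
    unfold L; rw [eGv]
  have hD : ∀ v ∈ L s, D (A N) v = 0 := by
    intro v hv
    refine Submodule.span_induction (p := fun v _ => D (A N) v = 0) ?_ ?_ ?_ ?_ hv
    · rintro _ ⟨j, rfl⟩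
      have := F_dot (A N) (s.g j)
      rw [hno j] at this
      exact this.symm
    · exact D_zero _
    · intro v w _ _ hv hw
      rw [D_add, hv, hw, add_zero]
    · intro t v _ hv
      rw [D_smul, hv, mul_zero]
  have hax : s.dead = false → ∀ x, Sol A b N x → dot (A N) x = dot (A N) s.z := by
    intro hd x hx
    have hx' := (h4 hd x).mp hx
    have h7 := hD _ hx'
    rw [← F_inj, F_dot, F_dot]
    have h8 : D (A N) (fun l => F (x l)) =
        D (A N) ((fun l => F (x l)) - Zv s) + D (A N) (Zv s) := by
      rw [← D_add, sub_add_cancel]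
    rw [h8, h7, zero_add]
    rfl
  have hd' : (step (A N) (b N) s).dead = false →
      s.dead = false ∧ dot (A N) s.z = b N := by
    intro hd
    rw [ed, Bool.or_eq_false_iff] at hd
    refine ⟨hd.1, ?_⟩
    have := hd.2
    revert this
    cases dot (A N) s.z <;> cases b N <;> simp
  have hsol : (step (A N) (b N) s).dead = false → ∀ x, Sol A b (N + 1) x ↔ Sol A b N x := by
    intro hd x
    obtain ⟨hd1, hd2⟩ := hd' hd
    rw [sol_succ]
    refine ⟨fun h => h.1, fun h => ⟨h, ?_⟩⟩
    rw [hax hd1 x h, hd2]
  refine ⟨h1, ?_, ?_, ?_, ?_, ?_⟩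
  · intro j
    rw [eT]; exact h2 j
  · intro j hj
    rw [eGv]; exact h3 j hj
  · intro hd x
    rw [hsol hd x, eZv, eL]
    exact h4 (hd' hd).1 x
  · intro hd h hh x
    rw [hsol hd x, eH, eβ]
    exact h5 (hd' hd).1 h hh x
  · intro hd x hx
    rw [sol_succ] at hx
    rw [ed] at hd
    cases hs : s.dead with
    | true => exact h6 hs x hx.1
    | false =>
      rw [hs, Bool.false_or] at hd
      have h9 := hax hs x hx.1
      rw [hx.2] at h9
      rw [← h9] at hd
      simp at hd

private theorem inv_yes {m : ℕ} (A : ℕ → Fin m → Bool) (b : ℕ → Bool) (N : ℕ) (s : St m) (ρ : ℕ)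
    (h : Inv A b N s ρ) (hany : any (A N) s = true) :
    Inv A b (N + 1) (step (A N) (b N) s) (ρ + 1) := by
  obtain ⟨h1, h2, h3, h4, h5, h6⟩ := h
  have hex : ∃ i, i < m ∧ dot (A N) (s.g i) = true := by
    unfold any at hany
    have := of_decide_eq_true hany
    exact this
  classical
  obtain ⟨hi1, hi2⟩ := Nat.find_spec hex
  have hi3 : ∀ i' < Nat.find hex, dot (A N) (s.g i') = false := by
    intro i' hi'
    have h7 := Nat.find_min hex hi'
    by_contra hc
    have hc' : dot (A N) (s.g i') = true := by simpa using hc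
    exact h7 ⟨by omega, hc'⟩
  generalize Nat.find hex = i0 at hi1 hi2 hi3
  have hDg : ∀ j, D (A N) (Gv s j) = F (dot (A N) (s.g j)) := fun j => (F_dot _ _).symm
  have hiρ : i0 + ρ < m := by
    by_contra hc
    have hz := h3 i0 (by omega)
    have h7 := hDg i0
    rw [hz, D_zero, hi2] at h7
    simp [F] at h7
  have hpre : ∀ j, pre (A N) s j = decide (i0 ≤ j) := by
    intro j
    unfold pre
    rw [decide_eq_decide]
    constructor
    · rintro ⟨i, hij, hi⟩
      by_contra hc
      rw [hi3 i (by omega)] at hi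
      exact Bool.noConfusion hi
    · intro hj
      exact ⟨i0, hj, hi2⟩
  have hpiv : ∀ l, piv (A N) s l = s.g i0 l := by
    intro l
    unfold piv
    rw [Bool.eq_iff_iff, decide_eq_true_iff]
    constructor
    · rintro ⟨i, _, hi, hi', hl⟩
      have : i = i0 := by
        rcases lt_trichotomy i i0 with h | h | h
        · rw [hi3 i h] at hi
          exact Bool.noConfusion hi
        · exact h
        · rw [hi' i0 h] at hi2
          exact Bool.noConfusion hi2
      rw [← this]; exact hl
    · intro hl
      exact ⟨i0, hi1, hi2, hi3, hl⟩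
  have ed : (step (A N) (b N) s).dead = s.dead := by
    simp [step, hany]
  have eH : ∀ j, (step (A N) (b N) s).H j = if j = 0 then A N else s.H (j - 1) := by
    intro j
    funext l
    by_cases hj : j = 0 <;> simp [step, hany, hj]
  have eβ : ∀ j, (step (A N) (b N) s).β j = if j = 0 then b N else s.β (j - 1) := by
    intro j
    simp [step, hany]
  have eT : ∀ j, (step (A N) (b N) s).T j = (decide (j = 0) || s.T (j - 1)) := by
    intro j
    simp [step, hany]
  set P : Fin m → ZMod 2 := Gv s i0 with hP
  have hDP : D (A N) P = 1 := by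
    rw [hP, hDg, hi2]; rfl
  have eZ : Zv (step (A N) (b N) s) =
      Zv s + (D (A N) (Zv s) + F (b N)) • P := by
    funext l
    have e1 : (step (A N) (b N) s).z l =
        xor (s.z l) (xor (dot (A N) s.z) (b N) && s.g i0 l) := by
      simp only [step, hpiv]
    have e2 : D (A N) (Zv s) = F (dot (A N) s.z) := (F_dot _ _).symm
    rw [e2]
    simp only [Zv, Pi.add_apply, Pi.smul_apply, smul_eq_mul]
    rw [e1, F_xor, F_and, F_xor]
    rfl
  have eG1 : ∀ j, j < i0 → Gv (step (A N) (b N) s) j = Gv s j := by
    intro j hj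
    funext l
    have e1 : (step (A N) (b N) s).g j l = s.g j l := by
      have : ¬ i0 ≤ j := by omega
      simp [step, hpre, this]
    simp only [Gv, e1]
  have eG2 : ∀ j, i0 ≤ j → Gv (step (A N) (b N) s) j =
      Gv s (j + 1) + (D (A N) (Gv s (j + 1))) • P := by
    intro j hj
    funext l
    have e1 : (step (A N) (b N) s).g j l =
        xor (s.g (j + 1) l) (dot (A N) (s.g (j + 1)) && s.g i0 l) := by
      simp only [step, hpre, hpiv, decide_eq_true hj, if_true]
    rw [hDg]
    simp only [Gv, Pi.add_apply, Pi.smul_apply, smul_eq_mul]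
    rw [e1, F_xor, F_and]
    rfl
  have hLD : ∀ v ∈ L (step (A N) (b N) s), v ∈ L s ∧ D (A N) v = 0 := by
    intro v hv
    refine Submodule.span_induction (p := fun v _ => v ∈ L s ∧ D (A N) v = 0) ?_ ?_ ?_ ?_ hv
    · rintro _ ⟨j, rfl⟩
      by_cases hj : j < i0
      · rw [eG1 j hj]
        refine ⟨mem_L s j, ?_⟩
        rw [hDg, hi3 j hj]; rfl
      · rw [eG2 j (by omega)]
        refine ⟨Submodule.add_mem _ (mem_L s _) (Submodule.smul_mem _ _ (mem_L s _)), ?_⟩
        rw [D_add, D_smul, hDP, mul_one, two]
    · exact ⟨Submodule.zero_mem _, D_zero _⟩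
    · intro v w _ _ hv hw
      exact ⟨Submodule.add_mem _ hv.1 hw.1, by rw [D_add, hv.2, hw.2, add_zero]⟩
    · intro t v _ hv
      exact ⟨Submodule.smul_mem _ _ hv.1, by rw [D_smul, hv.2, mul_zero]⟩
  have hpi : ∀ v ∈ L s, v + (D (A N) v) • P ∈ L (step (A N) (b N) s) := by
    intro v hv
    refine Submodule.span_induction
      (p := fun v _ => v + (D (A N) v) • P ∈ L (step (A N) (b N) s)) ?_ ?_ ?_ ?_ hv
    · rintro _ ⟨j, rfl⟩
      rcases lt_trichotomy j i0 with hj | hj | hj
      · rw [hDg, hi3 j hj]
        have : F false = 0 := rfl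
        rw [this, zero_smul, add_zero, ← eG1 j hj]
        exact mem_L _ j
      · rw [hj, ← hP, hDP, one_smul]
        have : P + P = 0 := by
          funext l
          exact two _
        rw [this]
        exact Submodule.zero_mem _
      · obtain ⟨k, rfl⟩ : ∃ k, j = k + 1 := ⟨j - 1, by omega⟩
        rw [← eG2 k (by omega)]
        exact mem_L _ k
    · rw [D_zero, zero_smul, add_zero]
      exact Submodule.zero_mem _
    · intro v w _ _ hv hw
      have : v + w + D (A N) (v + w) • P = (v + D (A N) v • P) + (w + D (A N) w • P) := by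
        rw [D_add, add_smul]; abel
      rw [this]
      exact Submodule.add_mem _ hv hw
    · intro t v _ hv
      have : t • v + D (A N) (t • v) • P = t • (v + D (A N) v • P) := by
        rw [D_smul, smul_add, smul_smul]
      rw [this]
      exact Submodule.smul_mem _ _ hv
  have hLiff : ∀ v, v ∈ L (step (A N) (b N) s) ↔ v ∈ L s ∧ D (A N) v = 0 := by
    intro v
    refine ⟨hLD v, fun h => ?_⟩
    have := hpi v h.1
    rwa [h.2, zero_smul, add_zero] at this
  have hDZ : D (A N) (Zv (step (A N) (b N) s)) = F (b N) := by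
    rw [eZ, D_add, D_smul, hDP, mul_one, ← add_assoc, two, zero_add]
  refine ⟨by omega, ?_, ?_, ?_, ?_, ?_⟩
  · intro j
    rw [eT, Bool.or_eq_true, decide_eq_true_iff, h2]
    omega
  · intro j hj
    rw [eG2 j (by omega), h3 (j + 1) (by omega), D_zero, zero_smul, add_zero]
  · intro hd x
    rw [ed] at hd
    rw [sol_succ, h4 hd x, hLiff]
    have e3 : (fun l => F (x l)) - Zv (step (A N) (b N) s) =
        ((fun l => F (x l)) - Zv s) - (D (A N) (Zv s) + F (b N)) • P := by
      rw [eZ]; abel
    have e4 : D (A N) (fun l => F (x l)) = D (A N) ((fun l => F (x l)) -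
        Zv (step (A N) (b N) s)) + F (b N) := by
      rw [← hDZ, ← D_add, sub_add_cancel]
    have e5 : dot (A N) x = b N ↔ D (A N) ((fun l => F (x l)) -
        Zv (step (A N) (b N) s)) = 0 := by
      rw [← F_inj, F_dot, e4]
      constructor
      · intro h
        have h' : D (A N) ((fun l => F (x l)) - Zv (step (A N) (b N) s)) + F (b N) =
            0 + F (b N) := by rw [h, zero_add]
        exact add_right_cancel h'
      · intro h
        rw [h, zero_add]
    rw [e5]
    have e6 : ((fun l => F (x l)) - Zv s ∈ L s) ↔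
        ((fun l => F (x l)) - Zv (step (A N) (b N) s) ∈ L s) := by
      rw [e3]
      have hm : (D (A N) (Zv s) + F (b N)) • P ∈ L s := Submodule.smul_mem _ _ (mem_L s i0)
      constructor
      · intro h
        exact Submodule.sub_mem _ h hm
      · intro h
        have := Submodule.add_mem _ h hm
        rwa [sub_add_cancel] at this
    rw [e6]
  · intro hd h hh x
    rw [ed] at hd
    rw [sol_succ, h5 hd (h - 1) (by omega) x]
    constructor
    · rintro ⟨h7, h8⟩ j hj
      rw [eH, eβ]
      by_cases hj0 : j = 0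
      · rw [if_pos hj0, if_pos hj0]; exact h8
      · rw [if_neg hj0, if_neg hj0]; exact h7 (j - 1) (by omega)
    · intro h7
      refine ⟨fun j hj => ?_, ?_⟩
      · have := h7 (j + 1) (by omega)
        rw [eH, eβ, if_neg (by omega), if_neg (by omega)] at this
        simpa using this
      · have := h7 0 (by omega)
        rw [eH, eβ, if_pos rfl, if_pos rfl] at this
        exact this
  · intro hd x hx
    rw [ed] at hd
    rw [sol_succ] at hx
    exact h6 hd x hx.1

private theorem inv_run {m : ℕ} (A : ℕ → Fin m → Bool) (b : ℕ → Bool) (N : ℕ) :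
    ∃ ρ, Inv A b N (run A b N) ρ := by
  induction N with
  | zero => exact ⟨0, inv_init A b⟩
  | succ N ih =>
    obtain ⟨ρ, h⟩ := ih
    cases hany : any (A N) (run A b N) with
    | false => exact ⟨ρ, inv_no A b N _ ρ h hany⟩
    | true => exact ⟨ρ + 1, inv_yes A b N _ ρ h hany⟩

private theorem mem_half {m : ℕ} (s : St m) (k : ℕ) (hk : ∀ j, k ≤ j → Gv s j = 0)
    (v : Fin m → ZMod 2) : v ∈ L s ↔ ∃ c : Fin k → Bool, ∀ l, v l = ∑ j, F (c j) * Gv s j l := by
  have e1 : L s = Submodule.span (ZMod 2) (Set.range fun j : Fin k => Gv s j) := by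
    apply le_antisymm
    · unfold L
      rw [Submodule.span_le]
      rintro _ ⟨j, rfl⟩
      by_cases hj : j < k
      · exact Submodule.subset_span ⟨⟨j, hj⟩, rfl⟩
      · rw [hk j (by omega)]
        exact Submodule.zero_mem _
    · rw [Submodule.span_le]
      rintro _ ⟨j, rfl⟩
      exact mem_L s j
  rw [e1, Submodule.mem_span_range_iff_exists_fun]
  constructor
  · rintro ⟨c, hc⟩
    choose d hd using fun j => exF (c j)
    refine ⟨d, fun l => ?_⟩
    rw [← hc, Finset.sum_apply]
    exact Finset.sum_congr rfl fun j _ => by rw [← hd j]; rfl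
  · rintro ⟨c, hc⟩
    refine ⟨fun j => F (c j), ?_⟩
    funext l
    rw [hc l, Finset.sum_apply]
    rfl

open Classical in
theorem elim (m : ℕ) (A : ℕ → Fin m → Bool) (b : ℕ → Bool) (N : ℕ) (x : Fin m → Bool) :
    (∃ i < N, dot (A i) x ≠ b i) ↔ ((run A b N).dead = true ∨
      ((run A b N).T (m - m / 2) = true ∧ ∀ c : Fin (m / 2) → Bool, ∃ l, x l ≠
        xor ((run A b N).z l) (decide (Odd (univ.filter fun j : Fin (m / 2) =>
          c j = true ∧ (run A b N).g j l = true).card))) ∨
      ((run A b N).T (m - m / 2) = false ∧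
        ∃ j : Fin (m / 2), dot ((run A b N).H j) x ≠ (run A b N).β j)) := by
  obtain ⟨ρ, h1, h2, h3, h4, h5, h6⟩ := inv_run A b N
  have hL : (∃ i < N, dot (A i) x ≠ b i) ↔ ¬ Sol A b N x := by
    unfold Sol
    push Not
    rfl
  rw [hL]
  cases hd : (run A b N).dead with
  | true =>
    simp only [true_or, iff_true]
    exact h6 hd x
  | false =>
    rw [or_iff_right (by simp)]
    cases hT : (run A b N).T (m - m / 2) with
    | true =>
      have hρ := (h2 _).mp hT
      rw [h4 hd x, mem_half _ (m / 2) (fun j hj => h3 j (by omega))]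
      constructor
      · intro hn
        refine Or.inl ⟨rfl, fun c => ?_⟩
        by_contra hc
        push Not at hc
        refine hn ⟨c, fun l => ?_⟩
        rw [Pi.sub_apply, hc l, F_xor, F_cnt]
        simp only [Zv, Gv]
        ring
      · rintro (⟨_, hr⟩ | ⟨hr, _⟩)
        · rintro ⟨c, hc⟩
          obtain ⟨l, hl⟩ := hr c
          apply hl
          rw [← F_inj, F_xor, F_cnt]
          have := hc l
          rw [Pi.sub_apply, sub_eq_iff_eq_add] at this
          rw [this]
          simp only [Zv, Gv]
          ring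
        · exact Bool.noConfusion hr
    | false =>
      have hρ : ρ < m - m / 2 := by
        by_contra hc
        have := (h2 (m - m / 2)).mpr (by omega)
        rw [hT] at this
        exact Bool.noConfusion this
      rw [h5 hd (m / 2) (by omega) x]
      constructor
      · intro hn
        refine Or.inr ⟨rfl, ?_⟩
        push Not at hn
        obtain ⟨j, hj, hjn⟩ := hn
        exact ⟨⟨j, hj⟩, hjn⟩
      · rintro (⟨hr, _⟩ | ⟨_, j, hj⟩)
        · exact Bool.noConfusion hr
        · intro hall
          exact hj (hall j j.2)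

end Pool.Agent.MV
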