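import Mathlib
import Pool.Agent.Lib.MP_b573ec_lc_MV.Fun

/-!
# Matrix times vector: the hard inputs
-/

set_option autoImplicit false

namespace Pool.Agent.MV

open Finset

open Classical in
/-- The input with the columns `v k` in the places `e k` and the column `b` in the place `i₀`, zero
otherwise; the vector has the value `1` in the place `i₀` and in the places `e k`, `k ∈ X`. -/
noncomputable def pt {I : Type} {n d : ℕ} (e : I → Fin n) (i₀ : Fin n) (v : I → Fin d → ZMod 2)
    (b : Fin d → ZMod 2) (X : Finset I) : Bit n → Bool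
  | .inl j => decide (j = i₀ ∨ ∃ k ∈ X, e k = j)
  | .inr (i, j) => if h : (i : ℕ) < d then
      (if j = i₀ then decide (b ⟨i, h⟩ = 1) else decide (∃ k, e k = j ∧ v k ⟨i, h⟩ = 1)) else false

variable {I : Type} {n d : ℕ} {e : I → Fin n} {i₀ : Fin n}

theorem pt_inl (v : I → Fin d → ZMod 2) (b : Fin d → ZMod 2) (X : Finset I) (j : Fin n) :
    pt e i₀ v b X (.inl j) = true ↔ (j = i₀ ∨ ∃ k ∈ X, e k = j) := by
  unfold pt
  exact decide_eq_true_iff

theorem pt_inr (v : I → Fin d → ZMod 2) (b : Fin d → ZMod 2) (X : Finset I) (i j : Fin n)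
    (h : (i : ℕ) < d) : pt e i₀ v b X (.inr (i, j)) = true ↔
      ((j = i₀ ∧ b ⟨i, h⟩ = 1) ∨ (j ≠ i₀ ∧ ∃ k, e k = j ∧ v k ⟨i, h⟩ = 1)) := by
  unfold pt
  simp only [dif_pos h]
  by_cases hj : j = i₀
  · rw [if_pos hj]
    simp [hj]
  · rw [if_neg hj]
    simp [hj]

theorem pt_ne (v : I → Fin d → ZMod 2) (b : Fin d → ZMod 2)
    (X X' : Finset I) (f : Bit n) (h : pt e i₀ v b X f ≠ pt e i₀ v b X' f) :
    ∃ i, f = .inl (e i) ∧ ¬ (i ∈ X ↔ i ∈ X') := by
  rcases f with j | ⟨i, j⟩
  · by_contra hcon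
    push Not at hcon
    refine h ?_
    show decide (j = i₀ ∨ ∃ k ∈ X, e k = j) = decide (j = i₀ ∨ ∃ k ∈ X', e k = j)
    congr 1
    refine propext (or_congr_right ⟨?_, ?_⟩)
    · rintro ⟨k, hk, rfl⟩
      exact ⟨k, (hcon k rfl).1 hk, rfl⟩
    · rintro ⟨k, hk, rfl⟩
      exact ⟨k, (hcon k rfl).2 hk, rfl⟩
  · exact absurd rfl h

theorem pt_inj (he : Function.Injective e) (hi : ∀ k, e k ≠ i₀) (v : I → Fin d → ZMod 2)
    (b : Fin d → ZMod 2) : Function.Injective (pt e i₀ v b) := by
  intro X X' h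
  ext k
  have h1 := congrFun h (.inl (e k))
  have h2 := pt_inl (e := e) (i₀ := i₀) v b X (e k)
  rw [h1, pt_inl] at h2
  have h3 : ∀ Y : Finset I, (e k = i₀ ∨ ∃ k' ∈ Y, e k' = e k) ↔ k ∈ Y := by
    intro Y
    constructor
    · rintro (h | ⟨k', hk', h⟩)
      · exact absurd h (hi k)
      · exact he h ▸ hk'
    · intro h
      exact .inr ⟨k, h, rfl⟩
  rw [h3, h3] at h2
  exact h2.symm

private theorem zmod2 (a : ZMod 2) : a = if a = 1 then 1 else 0 := by
  revert a
  decide

open Classical in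
private theorem card_row (he : Function.Injective e) (hi : ∀ k, e k ≠ i₀)
    (v : I → Fin d → ZMod 2) (b : Fin d → ZMod 2) (X : Finset I) (i : Fin n) (h : (i : ℕ) < d) :
    ((univ.filter fun j => pt e i₀ v b X (.inr (i, j)) = true ∧
      pt e i₀ v b X (.inl j) = true).card : ZMod 2) = b ⟨i, h⟩ + ∑ k ∈ X, v k ⟨i, h⟩ := by
  have h1 : (univ.filter fun j => pt e i₀ v b X (.inr (i, j)) = true ∧
      pt e i₀ v b X (.inl j) = true) = (if b ⟨i, h⟩ = 1 then {i₀} else ∅) ∪
        (X.filter fun k => v k ⟨i, h⟩ = 1).image e := by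
    ext j
    simp only [mem_filter, mem_univ, true_and, mem_union, mem_image, pt_inl, pt_inr v b X i j h]
    by_cases hj : j = i₀
    · subst hj
      simp only [true_and, ne_eq, not_true_eq_false, false_and, or_false, true_or, and_true]
      constructor
      · intro h2
        rw [if_pos h2]
        simp
      · rintro (h2 | ⟨k, -, h2⟩)
        · by_contra h3
          rw [if_neg h3] at h2
          simp at h2
        · exact absurd h2 (hi k)
    · simp only [hj, false_and, ne_eq, not_false_eq_true, true_and, false_or]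
      constructor
      · rintro ⟨⟨k, hk, h2⟩, ⟨k', hk', h3⟩⟩
        obtain rfl := he (hk.trans h3.symm)
        exact .inr ⟨k, ⟨hk', h2⟩, hk⟩
      · rintro (h2 | ⟨k, ⟨hk, h2⟩, h3⟩)
        · exfalso
          split_ifs at h2 with h4
          · exact hj (by simpa using h2)
          · simp at h2
        · exact ⟨⟨k, h3, h2⟩, ⟨k, hk, h3⟩⟩
  have h2 : Disjoint (if b ⟨i, h⟩ = 1 then ({i₀} : Finset (Fin n)) else ∅)
      ((X.filter fun k => v k ⟨i, h⟩ = 1).image e) := by
    split_ifs with h3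
    · rw [disjoint_singleton_left]
      intro h4
      obtain ⟨k, -, h5⟩ := mem_image.1 h4
      exact hi k h5
    · exact disjoint_empty_left _
  rw [h1, card_union_of_disjoint h2, card_image_of_injective _ he]
  push_cast
  congr 1
  · rw [zmod2 (b ⟨i, h⟩)]
    split_ifs <;> simp_all
  · rw [sum_congr rfl fun k _ => zmod2 (v k ⟨i, h⟩), card_filter]
    push_cast
    rfl

theorem mulNe_pt (he : Function.Injective e) (hi : ∀ k, e k ≠ i₀) (hd : d ≤ n)
    (v : I → Fin d → ZMod 2) (b : Fin d → ZMod 2) (X : Finset I) :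
    MulNe (pt e i₀ v b X) ↔ ∑ k ∈ X, v k ≠ b := by
  classical
  have key : ∀ c : ℕ, c % 2 = 1 ↔ (c : ZMod 2) = 1 := by
    intro c
    have h1 := (ZMod.natCast_eq_natCast_iff' c 1 2)
    rw [Nat.cast_one] at h1
    rw [h1]
  have k2 : ∀ a b : ZMod 2, a + b = 1 ↔ b ≠ a := by decide
  constructor
  · rintro ⟨i, hi'⟩ hc
    by_cases h : (i : ℕ) < d
    · have h1 := card_row he hi v b X i h
      have h2 := (key _).1 hi'
      rw [← hc, Finset.sum_apply] at h1
      rw [← hc] at h2
      have h3 := h2.symm.trans h1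
      have h4 : ∀ a : ZMod 2, a + a = 0 := by decide
      rw [h4] at h3
      exact absurd h3 (by decide)
    · have h1 : (univ.filter fun j => pt e i₀ v b X (.inr (i, j)) = true ∧
          pt e i₀ v b X (.inl j) = true) = ∅ := by
        rw [filter_eq_empty_iff]
        rintro j - ⟨h2, -⟩
        simp only [pt, dif_neg h] at h2
        exact absurd h2 (by simp)
      have h2 : (univ.filter fun j => pt e i₀ v b X (.inr (i, j)) = true ∧
          pt e i₀ v b X (.inl j) = true).card = 0 := by rw [h1, card_empty]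
      omega
  · intro hc
    obtain ⟨i, hi'⟩ := Function.ne_iff.1 hc
    refine ⟨⟨i, lt_of_lt_of_le i.2 hd⟩, ?_⟩
    rw [key]
    have h1 := card_row he hi v b X ⟨i, lt_of_lt_of_le i.2 hd⟩ i.2
    refine Eq.trans ?_ (h1.trans ?_)
    · congr 2
    · rw [Finset.sum_apply] at hi'
      exact (k2 _ _).2 hi'

end Pool.Agent.MV
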