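import Mathlib
import Pool.Agent.Lib.MP_b573ec_lc_RO.Build
import Pool.Agent.Lib.MP_b573ec_lc_MV.Defs

/-!
# Matrix times vector: circuits with auxiliary signals

The gates: the gates `P`, and for each signal `q` and each bit `b` a gate which has the value `1` if
`q` has the value `b` (a literal, or the OR over the eight `α` with three bits of the AND of the
three gates `(a, α 0)`, `(b, α 1)`, `(c, α 2)`, replaced by `(a, true) ∧ (a, false)` if
`φ α ≠ b`).  `Pool.Agent.RO.build` gives the circuit.
-/

set_option autoImplicit false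

namespace Pool.Agent.MV

open Finset Pool.Agent.FP Pool.Agent.RT Pool.Agent.RO

/-- the gates: the inner ANDs, the ANDs and the ORs of the signals, and the gates `P` -/
private abbrev FrP (Q P : Type) : Type := (Q × Bool × (Fin 8 ⊕ Fin 8 ⊕ Fin 8)) ⊕ P

private def frBit (i : ℕ) (k : Fin 8) : Bool := k.val.testBit i

private def frR {Q P : Type} (q : Q) (b : Bool) : FrP Q P := .inl (q, b, .inr (.inr 7))

private def frSig {V Q P : Type} (q : Q) (β : Bool) :
    SGate V Q → Fin 8 ⊕ Fin 8 ⊕ Fin 8 → PGate V (FrP Q P)
  | .var v, _ => .lit v β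
  | .fn _ a b _, .inl k => .and (frR a (frBit 0 k)) (frR b (frBit 1 k))
  | .fn φ a _ c, .inr (.inl k) =>
    if φ (frBit 0 k) (frBit 1 k) (frBit 2 k) = β then
      .and (.inl (q, β, .inl k)) (frR c (frBit 2 k))
    else .and (frR a true) (frR a false)
  | .fn _ _ _ _, .inr (.inr k) =>
    if k = 0 then .or (.inl (q, β, .inr (.inl 0))) (.inl (q, β, .inr (.inl 0)))
    else .or (.inl (q, β, .inr (.inr (k - 1)))) (.inl (q, β, .inr (.inl k)))

private def frGate {V Q P : Type} (sig : Q → SGate V Q) (gate : P → MGate V Q P) :
    FrP Q P → PGate V (FrP Q P)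
  | .inl (q, β, κ) => frSig q β (sig q) κ
  | .inr g => match gate g with
    | .lit v b => .lit v b
    | .free q b => .and (frR q b) (frR q b)
    | .and i j => .and (.inr i) (.inr j)
    | .or i j => .or (.inr i) (.inr j)

private def frRank {Q P : Type} (rk : Q → ℕ) (rank : P → ℕ) (N : ℕ) : FrP Q P → ℕ
  | .inl (q, _, .inl _) => 32 * rk q + 1
  | .inl (q, _, .inr (.inl _)) => 32 * rk q + 2
  | .inl (q, _, .inr (.inr k)) => 32 * rk q + 3 + k.val
  | .inr g => N + rank g

private theorem fr_ranked {V Q P : Type} (sig : Q → SGate V Q)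
    (rk : Q → ℕ) (hsig : SRanked sig rk) (gate : P → MGate V Q P) (rank : P → ℕ)
    (hgate : MRanked gate rank) (N : ℕ) (hN : ∀ q, 32 * rk q + 10 < N) :
    Ranked (frGate sig gate) (frRank rk rank N) := by
  have h7 : ((7 : Fin 8) : ℕ) = 7 := rfl
  intro g i j h
  rcases g with ⟨q, β, κ⟩ | g
  · simp only [frGate] at h
    rcases hq : sig q with v | ⟨φ, a, b, c⟩
    · rw [hq] at h
      simp [frSig] at h
    · have hr := hsig q φ a b c hq
      rw [hq] at h
      rcases κ with k | k | k
      · simp only [frSig, PGate.and.injEq, reduceCtorEq, or_false] at h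
        obtain ⟨rfl, rfl⟩ := h
        simp only [frR, frRank]
        omega
      · simp only [frSig] at h
        split_ifs at h with h1
        · simp only [PGate.and.injEq, reduceCtorEq, or_false] at h
          obtain ⟨rfl, rfl⟩ := h
          simp only [frR, frRank]
          omega
        · simp only [PGate.and.injEq, reduceCtorEq, or_false] at h
          obtain ⟨rfl, rfl⟩ := h
          simp only [frR, frRank]
          omega
      · simp only [frSig] at h
        split_ifs at h with h1
        · simp only [PGate.or.injEq, reduceCtorEq, false_or] at h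
          obtain ⟨rfl, rfl⟩ := h
          simp only [frRank]
          omega
        · simp only [PGate.or.injEq, reduceCtorEq, false_or] at h
          obtain ⟨rfl, rfl⟩ := h
          have h2 : (k - 1 : Fin 8).val + 1 = k.val := by
            revert h1
            revert k
            decide
          simp only [frRank]
          omega
  · simp only [frGate] at h
    rcases hg : gate g with ⟨v, b⟩ | ⟨q, b⟩ | ⟨i', j'⟩ | ⟨i', j'⟩ <;> rw [hg] at h
    · simp at h
    · simp only [PGate.and.injEq, reduceCtorEq, or_false] at h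
      obtain ⟨rfl, rfl⟩ := h
      have := hN q
      simp only [frR, frRank]
      omega
    · simp only [PGate.and.injEq, reduceCtorEq, or_false] at h
      obtain ⟨rfl, rfl⟩ := h
      have := hgate g i' j' (.inl hg)
      simp only [frRank]
      omega
    · simp only [PGate.or.injEq, reduceCtorEq, false_or] at h
      obtain ⟨rfl, rfl⟩ := h
      have := hgate g i' j' (.inr hg)
      simp only [frRank]
      omega

/-- the value of the AND number `k` -/
private def frT (φ : Bool → Bool → Bool → Bool) (β u v w : Bool) (k : Fin 8) : Bool :=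
  (φ (frBit 0 k) (frBit 1 k) (frBit 2 k) == β) &&
    ((u == frBit 0 k) && (v == frBit 1 k) && (w == frBit 2 k))

private def frVal {V Q P : Type} (sig : Q → SGate V Q) (x : V → Bool) (w : Q → Bool)
    (val : P → Bool) : FrP Q P → Bool
  | .inl (q, β, κ) => match sig q, κ with
    | .var v, _ => x v == β
    | .fn _ a b _, .inl k => (w a == frBit 0 k) && (w b == frBit 1 k)
    | .fn φ a b c, .inr (.inl k) => frT φ β (w a) (w b) (w c) k
    | .fn φ a b c, .inr (.inr k) => decide (∃ j ≤ k, frT φ β (w a) (w b) (w c) j = true)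
  | .inr g => val g

private theorem fr_all (φ : Bool → Bool → Bool → Bool) (β u v w : Bool) :
    decide (∃ j ≤ (7 : Fin 8), frT φ β u v w j = true) = (φ u v w == β) := by
  have h0 : ∀ u v w : Bool, ∃ k : Fin 8, frBit 0 k = u ∧ frBit 1 k = v ∧ frBit 2 k = w := by
    decide
  obtain ⟨k, hk0, hk1, hk2⟩ := h0 u v w
  rw [Bool.eq_iff_iff, decide_eq_true_eq]
  constructor
  · rintro ⟨j, -, hj⟩
    simp only [frT, Bool.and_eq_true, beq_iff_eq] at hj
    obtain ⟨h1, ⟨h2, h3⟩, h4⟩ := hj
    rw [h2, h3, h4, beq_iff_eq]
    exact h1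
  · intro h
    refine ⟨k, Fin.le_last k, ?_⟩
    rw [beq_iff_eq] at h
    simp only [frT, hk0, hk1, hk2, h, beq_self_eq_true, Bool.and_self]

private theorem frVal_R {V Q P : Type} (sig : Q → SGate V Q) (x : V → Bool) (w : Q → Bool)
    (val : P → Bool) (hw : SEval sig x w) (q : Q) (b : Bool) :
    frVal sig x w val (frR q b) = (w q == b) := by
  have h := hw q
  rcases hq : sig q with v | ⟨φ, a, b', c⟩
  · rw [hq] at h
    simp only [frVal, frR, hq]
    rw [h]
  · rw [hq] at h
    simp only [frVal, frR, hq]
    rw [fr_all, h]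

private theorem fr_eval {V Q P : Type} (sig : Q → SGate V Q) (gate : P → MGate V Q P)
    (x : V → Bool) (w : Q → Bool) (val : P → Bool) (hw : SEval sig x w)
    (hv : MEval gate x w val) : PEval (frGate sig gate) x (frVal sig x w val) := by
  intro g
  rcases g with ⟨q, β, κ⟩ | g
  · simp only [frGate]
    rcases hq : sig q with v | ⟨φ, a, b, c⟩
    · simp only [frSig, frVal, hq]
    · rcases κ with k | k | k
      · simp only [frSig, frVal_R sig x w val hw]
        simp only [frVal, hq]
      · simp only [frSig]
        by_cases h1 : φ (frBit 0 k) (frBit 1 k) (frBit 2 k) = β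
        · rw [if_pos h1]
          simp only [frVal_R sig x w val hw]
          simp only [frVal, hq, frT, h1, beq_self_eq_true, Bool.true_and]
        · rw [if_neg h1]
          simp only [frVal_R sig x w val hw]
          simp only [frVal, hq, frT]
          rw [beq_eq_false_iff_ne.2 h1]
          cases w a <;> rfl
      · simp only [frSig]
        by_cases h1 : k = 0
        · rw [if_pos h1]
          simp only [frVal, hq]
          rw [Bool.or_self, Bool.eq_iff_iff, decide_eq_true_eq, h1]
          constructor
          · rintro ⟨j, hj, h2⟩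
            rwa [Fin.le_zero_iff.1 hj] at h2
          · intro h2
            exact ⟨0, le_refl _, h2⟩
        · rw [if_neg h1]
          simp only [frVal, hq]
          rw [Bool.eq_iff_iff, decide_eq_true_eq, Bool.or_eq_true, decide_eq_true_eq]
          have h2 : ∀ j : Fin 8, j ≤ k ↔ j ≤ k - 1 ∨ j = k := by
            revert h1
            revert k
            decide
          constructor
          · rintro ⟨j, hj, h3⟩
            rcases (h2 j).1 hj with h4 | h4
            · exact Or.inl ⟨j, h4, h3⟩
            · exact Or.inr (h4 ▸ h3)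
          · rintro (⟨j, hj, h3⟩ | h3)
            · exact ⟨j, (h2 j).2 (Or.inl hj), h3⟩
            · exact ⟨k, le_refl _, h3⟩
  · simp only [frGate]
    have h := hv g
    rcases hg : gate g with ⟨v, b⟩ | ⟨q, b⟩ | ⟨i', j'⟩ | ⟨i', j'⟩ <;> rw [hg] at h
    · simpa only [frVal] using h
    · simp only [frVal_R sig x w val hw, Bool.and_self]
      simpa only [frVal] using h
    · simpa only [frVal] using h
    · simpa only [frVal] using h

private theorem fr_sig {V Q P : Type} (sig : Q → SGate V Q) (F : V → Prop)
    (hF : ∀ q v, sig q = .var v → ¬ F v) (gate : P → MGate V Q P) (g : FrP Q P) (L : List V)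
    (h : PTree (frGate sig gate) g L) : ∀ q β κ, g = .inl (q, β, κ) → ∀ y ∈ L, ¬ F y := by
  induction h with
  | lit g v b hg =>
    rintro q β κ rfl y hy
    simp only [List.mem_singleton] at hy
    subst hy
    simp only [frGate] at hg
    rcases hq : sig q with v' | ⟨φ, a, b', c⟩
    · rw [hq] at hg
      simp only [frSig, PGate.lit.injEq] at hg
      rw [← hg.1]
      exact hF q v' hq
    · rw [hq] at hg
      rcases κ with k | k | k
      · simp [frSig] at hg
      · simp only [frSig] at hg
        split_ifs at hg
      · simp only [frSig] at hg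
        split_ifs at hg
  | left g i j L hg _ ih =>
    rintro q β κ rfl
    simp only [frGate] at hg
    rcases hq : sig q with v' | ⟨φ, a, b', c⟩
    · rw [hq] at hg
      simp [frSig] at hg
    · rw [hq] at hg
      rcases κ with k | k | k
      · simp only [frSig, PGate.and.injEq] at hg
        exact ih _ _ _ hg.1.symm
      · simp only [frSig] at hg
        split_ifs at hg
        · simp only [PGate.and.injEq] at hg
          exact ih _ _ _ hg.1.symm
        · simp only [PGate.and.injEq] at hg
          exact ih _ _ _ hg.1.symm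
      · simp only [frSig] at hg
        split_ifs at hg
  | right g i j L hg _ ih =>
    rintro q β κ rfl
    simp only [frGate] at hg
    rcases hq : sig q with v' | ⟨φ, a, b', c⟩
    · rw [hq] at hg
      simp [frSig] at hg
    · rw [hq] at hg
      rcases κ with k | k | k
      · simp only [frSig, PGate.and.injEq] at hg
        exact ih _ _ _ hg.2.symm
      · simp only [frSig] at hg
        split_ifs at hg
        · simp only [PGate.and.injEq] at hg
          exact ih _ _ _ hg.2.symm
        · simp only [PGate.and.injEq] at hg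
          exact ih _ _ _ hg.2.symm
      · simp only [frSig] at hg
        split_ifs at hg
  | both g i j L L' hg _ _ ih ih' =>
    rintro q β κ rfl y hy
    simp only [frGate] at hg
    rcases hq : sig q with v' | ⟨φ, a, b', c⟩
    · rw [hq] at hg
      simp [frSig] at hg
    · rw [hq] at hg
      rcases κ with k | k | k
      · simp [frSig] at hg
      · simp only [frSig] at hg
        split_ifs at hg
      · simp only [frSig] at hg
        split_ifs at hg
        · simp only [PGate.or.injEq] at hg
          rcases List.mem_append.1 hy with h1 | h1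
          · exact ih _ _ _ hg.1.symm y h1
          · exact ih' _ _ _ hg.2.symm y h1
        · simp only [PGate.or.injEq] at hg
          rcases List.mem_append.1 hy with h1 | h1
          · exact ih _ _ _ hg.1.symm y h1
          · exact ih' _ _ _ hg.2.symm y h1

private theorem fr_none {V : Type} [DecidableEq V] {F : V → Prop} {L : List V}
    (h : ∀ y ∈ L, ¬ F y) {v : V} (hv : F v) : (L.filter fun y => y = v).length = 0 := by
  rw [List.length_eq_zero_iff, List.filter_eq_nil_iff]
  intro y hy h2
  rw [decide_eq_true_eq] at h2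
  exact h y hy (h2 ▸ hv)

private theorem fr_tree {V Q P : Type} [DecidableEq V] (sig : Q → SGate V Q) (F : V → Prop)
    (hF : ∀ q v, sig q = .var v → ¬ F v) (gate : P → MGate V Q P) (g' : FrP Q P) (L : List V)
    (h : PTree (frGate sig gate) g' L) : ∀ g, g' = .inr g → ∃ L', MTree gate g L' ∧
      ∀ v, F v → (L.filter fun y => y = v).length ≤ (L'.filter fun y => y = v).length := by
  induction h with
  | lit g' v b hg =>
    rintro g rfl
    simp only [frGate] at hg
    rcases hq : gate g with ⟨v', b'⟩ | ⟨q, b'⟩ | ⟨i', j'⟩ | ⟨i', j'⟩ <;> rw [hq] at hg <;>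
      simp only [reduceCtorEq, PGate.lit.injEq] at hg
    obtain ⟨rfl, rfl⟩ := hg
    exact ⟨_, .lit _ _ _ hq, fun v _ => le_refl _⟩
  | left g' i j L hg ht ih =>
    rintro g rfl
    simp only [frGate] at hg
    rcases hq : gate g with ⟨v', b'⟩ | ⟨q, b'⟩ | ⟨i', j'⟩ | ⟨i', j'⟩ <;> rw [hq] at hg <;>
      simp only [reduceCtorEq, PGate.and.injEq] at hg
    · refine ⟨[], .free _ _ _ hq, fun v hv => ?_⟩
      rw [fr_none (fr_sig sig F hF gate _ _ ht _ _ _ hg.1.symm) hv]
      exact Nat.zero_le _
    · obtain ⟨L', h1, h2⟩ := ih _ hg.1.symm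
      exact ⟨L', .left _ _ _ _ hq h1, h2⟩
  | right g' i j L hg ht ih =>
    rintro g rfl
    simp only [frGate] at hg
    rcases hq : gate g with ⟨v', b'⟩ | ⟨q, b'⟩ | ⟨i', j'⟩ | ⟨i', j'⟩ <;> rw [hq] at hg <;>
      simp only [reduceCtorEq, PGate.and.injEq] at hg
    · refine ⟨[], .free _ _ _ hq, fun v hv => ?_⟩
      rw [fr_none (fr_sig sig F hF gate _ _ ht _ _ _ hg.2.symm) hv]
      exact Nat.zero_le _
    · obtain ⟨L', h1, h2⟩ := ih _ hg.2.symm
      exact ⟨L', .right _ _ _ _ hq h1, h2⟩
  | both g' i j L L' hg _ _ ih ih' =>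
    rintro g rfl
    simp only [frGate] at hg
    rcases hq : gate g with ⟨v', b'⟩ | ⟨q, b'⟩ | ⟨i', j'⟩ | ⟨i', j'⟩ <;> rw [hq] at hg <;>
      simp only [reduceCtorEq, PGate.or.injEq] at hg
    obtain ⟨K, h1, h2⟩ := ih _ hg.1.symm
    obtain ⟨K', h3, h4⟩ := ih' _ hg.2.symm
    refine ⟨K ++ K', .both _ _ _ _ _ hq h1 h3, fun v hv => ?_⟩
    rw [List.filter_append, List.filter_append, List.length_append, List.length_append]
    exact Nat.add_le_add (h2 v hv) (h4 v hv)

theorem build_free {V Q P : Type} [Fintype Q] [Fintype P] [DecidableEq V] (sig : Q → SGate V Q)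
    (rk : Q → ℕ) (hsig : SRanked sig rk) (F : V → Prop) (hF : ∀ q v, sig q = .var v → ¬ F v)
    (gate : P → MGate V Q P) (rank : P → ℕ) (hgate : MRanked gate rank) (out : P) :
    ∃ (s : ℕ) (D : Circuit V s), s ≤ 64 * Fintype.card Q + 2 * Fintype.card P ∧
      (∀ x w val, SEval sig x w → MEval gate x w val → (D.Accepts x ↔ val out = true)) ∧
      ∀ L, Tree D D.out L → ∃ L', MTree gate out L' ∧
        ∀ v, F v → (L.filter fun y => y = v).length ≤ (L'.filter fun y => y = v).length := by
  classical
  have hN : ∀ q, 32 * rk q + 10 < 32 * (∑ q, rk q) + 11 := by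
    intro q
    have := Finset.single_le_sum (f := rk) (fun i _ => Nat.zero_le _) (Finset.mem_univ q)
    omega
  obtain ⟨D, h1, h2⟩ := build (frGate sig gate) _
    (fr_ranked sig rk hsig gate rank hgate _ hN) (.inr out)
  refine ⟨_, D, ?_, fun x w val hw hv => ?_, fun L hL => ?_⟩
  · simp only [Fintype.card_sum, Fintype.card_prod, Fintype.card_bool, Fintype.card_fin]
    omega
  · exact h1 x _ (fr_eval sig gate x w val hw hv)
  · exact fr_tree sig F hF gate _ _ (h2 L hL) out rfl

end Pool.Agent.MV
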