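import Mathlib

/-!
# Matrix times vector: random matrices whose small sets of columns have small kernels

If the kernel of `W` (the sets `T ⊆ W` of columns with sum `0`) has more than `2 ^ l` elements, let
`P ⊆ W` be a largest set such that for each `p ∈ P` some `T` in the kernel has `T ∩ P = {p}`; it has
more than `l` elements (two elements of the kernel with the same trace on `P` are equal).  So there
is `P ⊆ W` with `l` elements and for each `p ∈ P` a set `S p ⊆ W \ P` with `v p = ∑ k ∈ S p, v k`.
For given `W`, `P`, `S` the matrices with this property are the fraction `2 ^ (- d l)`, and for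
given `W`, `P` there are at most `2 ^ ((d - l) l)` choices of `S`.
-/

set_option autoImplicit false

namespace Pool.Agent.MV

open Finset

open Classical in
theorem sum_symmDiff_zmod (I : Type) (d : ℕ) (v : I → Fin d → ZMod 2) (T U : Finset I) :
    ∑ k ∈ symmDiff T U, v k = ∑ k ∈ T, v k + ∑ k ∈ U, v k := by
  have h1 : ∑ k ∈ T, v k = ∑ k ∈ T \ U, v k + ∑ k ∈ T ∩ U, v k := by
    rw [← Finset.sum_union (Finset.disjoint_sdiff_inter T U), Finset.sdiff_union_inter]
  have h2 : ∑ k ∈ U, v k = ∑ k ∈ U \ T, v k + ∑ k ∈ T ∩ U, v k := by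
    rw [Finset.inter_comm, ← Finset.sum_union (Finset.disjoint_sdiff_inter U T),
      Finset.sdiff_union_inter]
  have h3 : ∑ k ∈ symmDiff T U, v k = ∑ k ∈ T \ U, v k + ∑ k ∈ U \ T, v k := by
    rw [← Finset.sum_union]
    · rfl
    · exact disjoint_sdiff_sdiff
  have h4 : ∑ k ∈ T ∩ U, v k + ∑ k ∈ T ∩ U, v k = 0 := ZModModule.add_self _
  rw [h1, h2, h3]
  calc ∑ k ∈ T \ U, v k + ∑ k ∈ U \ T, v k
      = ∑ k ∈ T \ U, v k + ∑ k ∈ U \ T, v k + 0 := by rw [add_zero]
    _ = _ := by rw [← h4]; abel

open Classical in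
theorem ex_trace (I : Type) (d : ℕ) (v : I → Fin d → ZMod 2) (W : Finset I) (l : ℕ)
    (hl : 2 ^ l < (W.powerset.filter fun T => ∑ k ∈ T, v k = 0).card) (m : ℕ) (hm : m ≤ l) :
    ∃ P : Finset I, P ⊆ W ∧ P.card = m ∧ ∀ p ∈ P, ∃ T : Finset I, T ⊆ W ∧
      ∑ k ∈ T, v k = 0 ∧ T ∩ P = {p} := by
  induction m with
  | zero => exact ⟨∅, by simp, by simp, by simp⟩
  | succ m ih =>
    obtain ⟨P, hPW, hPc, hP⟩ := ih (by omega)
    have hcard : P.powerset.card < (W.powerset.filter fun T => ∑ k ∈ T, v k = 0).card := by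
      rw [Finset.card_powerset, hPc]
      exact lt_of_le_of_lt (Nat.pow_le_pow_right (by norm_num) (by omega)) hl
    obtain ⟨T, hT, T', hT', hne, heq⟩ := Finset.exists_ne_map_eq_of_card_lt_of_maps_to hcard
      (f := fun T => T ∩ P) (fun T _ => by
        simp only [Finset.coe_powerset, Set.mem_preimage, Set.mem_powerset_iff,
          Finset.coe_subset]
        exact Finset.inter_subset_right)
    rw [Finset.mem_filter, Finset.mem_powerset] at hT hT'
    have hU0 : ∑ k ∈ symmDiff T T', v k = 0 := by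
      rw [sum_symmDiff_zmod, hT.2, hT'.2, add_zero]
    have hUW : symmDiff T T' ⊆ W := by
      intro x hx
      rw [Finset.mem_symmDiff] at hx
      rcases hx with hx | hx
      · exact hT.1 hx.1
      · exact hT'.1 hx.1
    have hUP : ∀ x ∈ symmDiff T T', x ∉ P := by
      intro x hx hxP
      have h1 : x ∈ T ↔ x ∈ T' := by
        have h2 : x ∈ T ∩ P ↔ x ∈ T' ∩ P := by
          have h5 : T ∩ P = T' ∩ P := heq
          rw [h5]
        simpa [hxP] using h2
      rw [Finset.mem_symmDiff] at hx
      tauto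
    have hUne : (symmDiff T T').Nonempty := by
      rw [Finset.nonempty_iff_ne_empty]
      intro h
      exact hne (symmDiff_eq_bot.mp h)
    obtain ⟨q, hq⟩ := hUne
    refine ⟨insert q P, ?_, ?_, ?_⟩
    · exact Finset.insert_subset (hUW hq) hPW
    · rw [Finset.card_insert_of_notMem (hUP q hq), hPc]
    · intro p hp
      rw [Finset.mem_insert] at hp
      by_cases hpq : p = q
      · refine ⟨symmDiff T T', hUW, hU0, ?_⟩
        ext x
        rw [Finset.mem_inter, Finset.mem_insert, Finset.mem_singleton, hpq]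
        constructor
        · rintro ⟨h1, h2 | h2⟩
          · exact h2
          · exact absurd h2 (hUP x h1)
        · rintro rfl
          exact ⟨hq, Or.inl rfl⟩
      · have hpP : p ∈ P := by tauto
        obtain ⟨A, hAW, hA0, hAP⟩ := hP p hpP
        have hmem : ∀ x, x ∈ P → (x ∈ A ↔ x = p) := by
          intro x hx
          have h2 : x ∈ A ∩ P ↔ x ∈ ({p} : Finset I) := by rw [hAP]
          simpa [hx] using h2
        by_cases hqA : q ∈ A
        · refine ⟨symmDiff A (symmDiff T T'), ?_, ?_, ?_⟩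
          · intro x hx
            rw [Finset.mem_symmDiff] at hx
            rcases hx with hx | hx
            · exact hAW hx.1
            · exact hUW hx.1
          · rw [sum_symmDiff_zmod, hA0, hU0, add_zero]
          · ext x
            rw [Finset.mem_inter, Finset.mem_insert, Finset.mem_singleton, Finset.mem_symmDiff]
            constructor
            · rintro ⟨h1, h2 | h2⟩
              · exfalso
                rw [h2] at h1
                tauto
              · have h3 := hUP x
                have h4 := hmem x h2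
                tauto
            · intro hx
              have h3 := hUP x
              have h4 := hmem x (hx ▸ hpP)
              rw [hx] at h3 h4 ⊢
              tauto
        · refine ⟨A, hAW, hA0, ?_⟩
          ext x
          rw [Finset.mem_inter, Finset.mem_insert, Finset.mem_singleton]
          constructor
          · rintro ⟨h1, h2 | h2⟩
            · exact absurd (h2 ▸ h1) hqA
            · exact (hmem x h2).mp h1
          · intro hx
            have h4 := hmem x (hx ▸ hpP)
            rw [hx] at h4 ⊢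
            tauto

open Classical in
theorem count_P (I : Type) [Fintype I] (d l : ℕ) (W P : Finset I) (hPW : P ⊆ W)
    (hP : P.card = l) (hW : W.card ≤ d) :
    (univ.filter fun v : I → Fin d → ZMod 2 => ∀ p ∈ P, ∃ S : Finset I, S ⊆ W \ P ∧
      v p = ∑ k ∈ S, v k).card * 2 ^ (l ^ 2) ≤ 2 ^ (d * Fintype.card I) := by
  have hld : l ≤ d := by rw [← hP]; exact le_trans (Finset.card_le_card hPW) hW
  have hlI : l ≤ Fintype.card I := by rw [← hP]; exact Finset.card_le_univ P
  set A := (univ.filter fun v : I → Fin d → ZMod 2 => ∀ p ∈ P, ∃ S : Finset I, S ⊆ W \ P ∧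
      v p = ∑ k ∈ S, v k) with hA
  have hAm : ∀ v, v ∈ A → ∀ p ∈ P, ∃ S : Finset I, S ⊆ W \ P ∧ v p = ∑ k ∈ S, v k := by
    intro v hv
    rw [hA, Finset.mem_filter] at hv
    exact hv.2
  choose S hS1 hS2 using hAm
  let F : {v // v ∈ A} → ({p // p ∈ P} → {T // T ∈ (W \ P).powerset}) ×
      ({k // k ∉ P} → Fin d → ZMod 2) := fun v =>
    (fun p => ⟨S v.1 v.2 p.1 p.2, Finset.mem_powerset.mpr (hS1 v.1 v.2 p.1 p.2)⟩, fun k => v.1 k.1)
  have hF : Function.Injective F := by
    intro v w hvw
    have h1 : ∀ k, k ∉ P → v.1 k = w.1 k := by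
      intro k hk
      exact congrFun (congrArg Prod.snd hvw) ⟨k, hk⟩
    apply Subtype.ext
    funext k
    by_cases hk : k ∈ P
    · have h2 : S v.1 v.2 k hk = S w.1 w.2 k hk := by
        have h3 := congrFun (congrArg Prod.fst hvw) ⟨k, hk⟩
        exact congrArg Subtype.val h3
      rw [hS2 v.1 v.2 k hk, hS2 w.1 w.2 k hk, h2]
      apply Finset.sum_congr rfl
      intro x hx
      have h4 := hS1 w.1 w.2 k hk hx
      rw [Finset.mem_sdiff] at h4
      exact h1 x h4.2
    · exact h1 k hk
  have hc := Fintype.card_le_of_injective F hF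
  rw [Fintype.card_coe, Fintype.card_prod, Fintype.card_fun, Fintype.card_fun, Fintype.card_fun,
    Fintype.card_coe, Fintype.card_coe, Fintype.card_fin, ZMod.card, Finset.card_powerset,
    hP, Finset.card_sdiff_of_subset hPW, hP, Fintype.card_subtype_compl, Fintype.card_coe, hP,
    ← pow_mul, ← pow_mul, ← pow_add] at hc
  calc A.card * 2 ^ (l ^ 2) ≤ 2 ^ ((W.card - l) * l + d * (Fintype.card I - l)) * 2 ^ (l ^ 2) :=
        Nat.mul_le_mul_right _ hc
    _ = 2 ^ ((W.card - l) * l + d * (Fintype.card I - l) + l ^ 2) := by rw [← pow_add]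
    _ ≤ 2 ^ (d * Fintype.card I) := by
        apply Nat.pow_le_pow_right (by norm_num)
        have h1 : (W.card - l) * l ≤ (d - l) * l := Nat.mul_le_mul_right _ (by omega)
        obtain ⟨a, rfl⟩ := Nat.exists_eq_add_of_le hld
        obtain ⟨b, hb⟩ := Nat.exists_eq_add_of_le hlI
        rw [hb] at *
        have h2 : l + a - l = a := by omega
        have h3 : l + b - l = b := by omega
        rw [h2] at h1
        rw [h3]
        nlinarith

open Classical in
theorem bad_mat (I : Type) [Fintype I] (d l : ℕ) :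
    (univ.filter fun v : I → Fin d → ZMod 2 => ∃ W : Finset I, W.card ≤ d ∧
      2 ^ l < (W.powerset.filter fun T => ∑ k ∈ T, v k = 0).card).card * 2 ^ (l ^ 2) ≤
      2 ^ (2 * Fintype.card I + d * Fintype.card I) := by
  set Q : Finset (Finset I × Finset I) := univ.filter fun q =>
    q.2 ⊆ q.1 ∧ q.2.card = l ∧ q.1.card ≤ d with hQ
  set A : Finset I × Finset I → Finset (I → Fin d → ZMod 2) := fun q =>
    univ.filter fun v => ∀ p ∈ q.2, ∃ S : Finset I, S ⊆ q.1 \ q.2 ∧ v p = ∑ k ∈ S, v k with hA
  have hsub : (univ.filter fun v : I → Fin d → ZMod 2 => ∃ W : Finset I, W.card ≤ d ∧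
      2 ^ l < (W.powerset.filter fun T => ∑ k ∈ T, v k = 0).card) ⊆ Q.biUnion A := by
    intro v hv
    rw [Finset.mem_filter] at hv
    obtain ⟨W, hW, hk⟩ := hv.2
    obtain ⟨P, hPW, hPc, hP⟩ := ex_trace I d v W l hk l le_rfl
    rw [Finset.mem_biUnion]
    refine ⟨(W, P), ?_, ?_⟩
    · rw [hQ, Finset.mem_filter]
      exact ⟨Finset.mem_univ _, hPW, hPc, hW⟩
    · rw [hA, Finset.mem_filter]
      refine ⟨Finset.mem_univ _, ?_⟩
      intro p hp
      obtain ⟨T, hTW, hT0, hTP⟩ := hP p hp
      have hpT : p ∈ T := by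
        have h : p ∈ T ∩ P := by rw [hTP]; exact Finset.mem_singleton_self p
        exact (Finset.mem_inter.mp h).1
      refine ⟨T.erase p, ?_, ?_⟩
      · intro x hx
        rw [Finset.mem_erase] at hx
        rw [Finset.mem_sdiff]
        refine ⟨hTW hx.2, ?_⟩
        intro hxP
        have h : x ∈ T ∩ P := Finset.mem_inter.mpr ⟨hx.2, hxP⟩
        rw [hTP, Finset.mem_singleton] at h
        exact hx.1 h
      · have h := Finset.add_sum_erase T v hpT
        rw [hT0] at h
        have h2 : v p + v p = 0 := ZModModule.add_self _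
        have h3 : v p + ∑ k ∈ T.erase p, v k = v p + v p := by rw [h, h2]
        exact (add_left_cancel h3).symm
  have h1 : (univ.filter fun v : I → Fin d → ZMod 2 => ∃ W : Finset I, W.card ≤ d ∧
      2 ^ l < (W.powerset.filter fun T => ∑ k ∈ T, v k = 0).card).card ≤ ∑ q ∈ Q, (A q).card :=
    le_trans (Finset.card_le_card hsub) Finset.card_biUnion_le
  have h2 : ∀ q ∈ Q, (A q).card * 2 ^ (l ^ 2) ≤ 2 ^ (d * Fintype.card I) := by
    intro q hq
    rw [hQ, Finset.mem_filter] at hq
    exact count_P I d l q.1 q.2 hq.2.1 hq.2.2.1 hq.2.2.2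
  have h3 : Q.card ≤ 2 ^ (2 * Fintype.card I) := by
    refine le_trans (Finset.card_le_univ Q) ?_
    rw [Fintype.card_prod, Fintype.card_finset, ← pow_add]
    exact Nat.pow_le_pow_right (by norm_num) (by omega)
  calc _ ≤ (∑ q ∈ Q, (A q).card) * 2 ^ (l ^ 2) := Nat.mul_le_mul_right _ h1
    _ = ∑ q ∈ Q, (A q).card * 2 ^ (l ^ 2) := by rw [Finset.sum_mul]
    _ ≤ ∑ q ∈ Q, 2 ^ (d * Fintype.card I) := Finset.sum_le_sum h2
    _ = Q.card * 2 ^ (d * Fintype.card I) := by rw [Finset.sum_const, smul_eq_mul]
    _ ≤ 2 ^ (2 * Fintype.card I) * 2 ^ (d * Fintype.card I) := Nat.mul_le_mul_right _ h3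
    _ = 2 ^ (2 * Fintype.card I + d * Fintype.card I) := by rw [← pow_add]

end Pool.Agent.MV
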