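import Mathlib
import Pool.Agent.Lib.MP_0a1b52_lc_EX.Walk

/-!
# Matrix times vector: circuits which read some bits once

From `Pool.Agent.EX.walk` for each size `h` of the sets, with `C x := ∀ X, x = p X → ∑ i ∈ X, v i = b`
and `t = 2 ^ (l + 2)`.  `H1`: the elements of `A` have the same sum, and so have the elements of
`B`, and `W` or its complement has at most `d` elements.  `H2`: if the conclusion fails, and `i` is
neither `0` nor the size of `F`, then all `v a`, `a ∈ F`, are equal, so `F` has at most `2 l + 3`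
elements.
-/

set_option autoImplicit false

namespace Pool.Agent.MV

open Finset Pool.Agent.FP Pool.Agent.RT

private theorem dbl {d : ℕ} (a : Fin d → ZMod 2) : a + a = 0 := by
  funext i
  exact CharTwo.add_self_eq_zero (a i)

private theorem sum_symm {m d : ℕ} (v : Fin m → Fin d → ZMod 2) (S T : Finset (Fin m)) :
    ∑ k ∈ symmDiff S T, v k = ∑ k ∈ S, v k + ∑ k ∈ T, v k := by
  have h1 : ∑ k ∈ S, v k = ∑ k ∈ S \ T, v k + ∑ k ∈ S ∩ T, v k := by
    rw [← sum_union (disjoint_sdiff_inter S T), sdiff_union_inter]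
  have h2 : ∑ k ∈ T, v k = ∑ k ∈ T \ S, v k + ∑ k ∈ S ∩ T, v k := by
    rw [inter_comm, ← sum_union (disjoint_sdiff_inter T S), sdiff_union_inter]
  have h3 : symmDiff S T = S \ T ∪ T \ S := rfl
  have h4 : Disjoint (S \ T) (T \ S) := disjoint_sdiff_sdiff
  rw [h3, sum_union h4, h1, h2]
  have h5 := dbl (∑ k ∈ S ∩ T, v k)
  calc ∑ k ∈ S \ T, v k + ∑ k ∈ T \ S, v k
      = ∑ k ∈ S \ T, v k + ∑ k ∈ T \ S, v k + (∑ k ∈ S ∩ T, v k + ∑ k ∈ S ∩ T, v k) := by
        rw [h5, add_zero]
    _ = _ := by abel

/-- a family of subsets of a small set with equal sums -/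
private theorem fam_le {m d l : ℕ} (v : Fin m → Fin d → ZMod 2)
    (hv : ∀ W : Finset (Fin m), W.card ≤ d →
      (W.powerset.filter fun T => ∑ k ∈ T, v k = 0).card ≤ 2 ^ l)
    (W : Finset (Fin m)) (hW : W.card ≤ d) (B : Finset (Finset (Fin m))) (hB : ∀ b ∈ B, b ⊆ W)
    (hs : ∀ b ∈ B, ∀ b' ∈ B, ∑ k ∈ b, v k = ∑ k ∈ b', v k) : B.card ≤ 2 ^ l := by
  classical
  rcases B.eq_empty_or_nonempty with rfl | ⟨b₀, h₀⟩
  · simp
  refine le_trans ?_ (hv W hW)
  refine card_le_card_of_injOn (fun b => symmDiff b b₀) (fun b hb => ?_) fun b _ b' _ h => ?_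
  · refine mem_filter.2 ⟨mem_powerset.2 ?_, ?_⟩
    · intro x hx
      rcases mem_symmDiff.1 hx with h | h
      · exact hB b hb h.1
      · exact hB b₀ h₀ h.1
    · rw [sum_symm, hs b hb b₀ h₀]
      exact dbl _
  · exact symmDiff_left_injective b₀ h

/-- a set on which `v` is constant is small -/
private theorem const_le {m d l : ℕ} (v : Fin m → Fin d → ZMod 2)
    (hv : ∀ W : Finset (Fin m), W.card ≤ d →
      (W.powerset.filter fun T => ∑ k ∈ T, v k = 0).card ≤ 2 ^ l)
    (F : Finset (Fin m)) (hF : F.card ≤ d) (hc : ∀ a ∈ F, ∀ a' ∈ F, v a = v a') :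
    F.card ≤ l + 1 := by
  classical
  rcases F.eq_empty_or_nonempty with rfl | ⟨a₀, h₀⟩
  · simp
  have hsum : ∀ T ⊆ F, Even T.card → ∑ k ∈ T, v k = 0 := by
    intro T hT he
    rw [sum_congr rfl fun k hk => hc k (hT hk) a₀ h₀, sum_const]
    obtain ⟨r, hr⟩ := he
    rw [hr, add_smul]
    exact dbl _
  have h1 : (F.erase a₀).powerset.card ≤ (F.powerset.filter fun T => ∑ k ∈ T, v k = 0).card := by
    refine card_le_card_of_injOn (fun T => if Even T.card then T else insert a₀ T)
      (fun T hT => ?_) fun T hT T' hT' h => ?_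
    · have hT1 : T ⊆ F.erase a₀ := mem_powerset.1 hT
      have hT2 : T ⊆ F := hT1.trans (erase_subset _ _)
      dsimp only
      split_ifs with he
      · exact mem_filter.2 ⟨mem_powerset.2 hT2, hsum T hT2 he⟩
      · have h2 : a₀ ∉ T := fun h => notMem_erase a₀ F (hT1 h)
        have h3 : insert a₀ T ⊆ F := insert_subset h₀ hT2
        refine mem_filter.2 ⟨mem_powerset.2 h3, hsum _ h3 ?_⟩
        rw [card_insert_of_notMem h2]
        exact (Nat.not_even_iff_odd.1 he).add_one
    · have h2 : a₀ ∉ T := fun h => notMem_erase a₀ F (mem_powerset.1 hT h)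
      have h3 : a₀ ∉ T' := fun h => notMem_erase a₀ F (mem_powerset.1 hT' h)
      dsimp only at h
      split_ifs at h with h4 h5 h5
      · exact h
      · exact absurd (h ▸ mem_insert_self a₀ T') h2
      · exact absurd (h ▸ mem_insert_self a₀ T) h3
      · rw [← erase_insert h2, h, erase_insert h3]
  rw [card_powerset, card_erase_of_mem h₀] at h1
  have h2 : 2 ^ (F.card - 1) ≤ 2 ^ l := h1.trans (hv F hF)
  have h3 := (Nat.pow_le_pow_iff_right (by norm_num)).1 h2
  omega

open Classical in
theorem walk_lin {V : Type} [BEq V] [LawfulBEq V] {s m d l : ℕ} (D : Circuit V s) (e : Fin m → V)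
    (he : Function.Injective e) (h1 : ∀ i L, Tree D D.out L → L.count (e i) ≤ 1)
    (v : Fin m → Fin d → ZMod 2) (b : Fin d → ZMod 2) (p : Finset (Fin m) → V → Bool)
    (hp : ∀ X X' f, p X f ≠ p X' f → ∃ i, f = e i ∧ ¬ (i ∈ X ↔ i ∈ X'))
    (hpi : Function.Injective p)
    (hD : ∀ X, ¬ D.Accepts (p X) → ∑ i ∈ X, v i = b) (hd : m ≤ 2 * d + 1)
    (hv : ∀ W : Finset (Fin m), W.card ≤ d →
      (W.powerset.filter fun T => ∑ k ∈ T, v k = 0).card ≤ 2 ^ l) :
    (univ.filter fun X => ¬ D.Accepts (p X)).card ≤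
      (m + 1) * ((s + 1) * (6 * (m + 1) ^ 3 * (2 ^ (l + 2)) ^ 4)) := by
  have hv' : ∀ W : Finset (Fin m), W.card ≤ d →
      (W.powerset.filter fun T => ∑ k ∈ T, v k = 0).card ≤ 2 ^ l := hv
  have hC : ∀ X : Finset (Fin m), (∀ X', p X = p X' → ∑ i ∈ X', v i = b) → ∑ i ∈ X, v i = b :=
    fun X h => h X rfl
  have key : ∀ h : ℕ, ((powersetCard h univ).filter fun X => ¬ D.Accepts (p X)).card ≤
      (s + 1) * (6 * (m + 1) ^ 3 * (2 ^ (l + 2)) ^ 4) := by
    intro h
    refine Pool.Agent.EX.walk D e he h1 p hp (fun x => ∀ X, x = p X → ∑ i ∈ X, v i = b)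
      (fun x hx X hX => hD X (hX ▸ hx)) h (2 ^ (l + 2)) Nat.one_le_two_pow ?_ ?_
    · intro W A B hA hB _ hAc hBc
      by_contra hcon
      push Not at hcon
      have h2 : ∀ a ∈ A, ∀ c ∈ B, ∑ i ∈ a, v i + ∑ i ∈ c, v i = b := by
        intro a ha c hc
        rw [← sum_union (disjoint_of_subset_right (hB c hc) (hA a ha))]
        exact hcon a ha c hc _ rfl
      have hl : 2 ^ l < 2 ^ (l + 2) := Nat.pow_lt_pow_right (by norm_num) (by omega)
      obtain ⟨a₀, ha₀⟩ : A.Nonempty := card_pos.1 (lt_of_le_of_lt (Nat.zero_le _) hAc)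
      obtain ⟨c₀, hc₀⟩ : B.Nonempty := card_pos.1 (lt_of_le_of_lt (Nat.zero_le _) hBc)
      have h3 : W.card + Wᶜ.card = m := by rw [card_add_card_compl, Fintype.card_fin]
      rcases Nat.le_total W.card d with h4 | h4
      · have h5 := fam_le v hv' W h4 B hB (fun c hc c' hc' => by
          have h6 := h2 a₀ ha₀ c hc
          rw [← h2 a₀ ha₀ c' hc'] at h6
          exact add_left_cancel h6)
        omega
      · rcases Nat.lt_or_ge d W.card with h4' | h4'
        · have h5 := fam_le v hv' Wᶜ (by omega) A (fun a ha x hx =>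
            mem_compl.2 fun hx' => disjoint_left.1 (hA a ha) hx hx') (fun a ha a' ha' => by
            have h6 := h2 a ha c₀ hc₀
            rw [← h2 a' ha' c₀ hc₀] at h6
            exact add_right_cancel h6)
          omega
        · have h5 := fam_le v hv' W h4' B hB (fun c hc c' hc' => by
            have h6 := h2 a₀ ha₀ c hc
            rw [← h2 a₀ ha₀ c' hc'] at h6
            exact add_left_cancel h6)
          omega
    · intro F ρ i hFρ _ hi
      by_contra hcon
      push Not at hcon
      have h2 : ∀ c ∈ powersetCard i F, ∀ c' ∈ powersetCard i F,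
          ∑ k ∈ c, v k = ∑ k ∈ c', v k := by
        intro c hc c' hc'
        have h3 := hcon c hc _ rfl
        rw [← hcon c' hc' _ rfl, sum_union (disjoint_of_subset_right (mem_powersetCard.1 hc).1
          hFρ.symm), sum_union (disjoint_of_subset_right (mem_powersetCard.1 hc').1
          hFρ.symm)] at h3
        exact add_left_cancel h3
      have ht : 1 ≤ 2 ^ (l + 2) := Nat.one_le_two_pow
      have hch : 2 ≤ F.card.choose i := by nlinarith
      have hi0 : i ≠ 0 := by
        rintro rfl
        rw [Nat.choose_zero_right] at hch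
        omega
      have hi1 : i < F.card := by
        rcases Nat.lt_trichotomy i F.card with h3 | h3 | h3
        · exact h3
        · rw [h3, Nat.choose_self] at hch
          omega
        · rw [Nat.choose_eq_zero_of_lt h3] at hch
          omega
      have hc : ∀ a ∈ F, ∀ a' ∈ F, v a = v a' := by
        intro a ha a' ha'
        by_cases haa : a = a'
        · rw [haa]
        have h3 : ((F.erase a).erase a').card = F.card - 2 := by
          rw [card_erase_of_mem (mem_erase.2 ⟨fun h => haa h.symm, ha'⟩), card_erase_of_mem ha]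
          omega
        obtain ⟨c, hc1, hc2⟩ := exists_subset_card_eq (s := (F.erase a).erase a') (n := i - 1)
          (by omega)
        have h4 : a ∉ c := fun h => by
          have := hc1 h
          simp at this
        have h5 : a' ∉ c := fun h => by
          have := hc1 h
          simp at this
        have hcF : c ⊆ F := hc1.trans ((erase_subset _ _).trans (erase_subset _ _))
        have h6 := h2 (insert a c) (mem_powersetCard.2 ⟨insert_subset ha hcF, by
          rw [card_insert_of_notMem h4, hc2]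
          omega⟩) (insert a' c) (mem_powersetCard.2 ⟨insert_subset ha' hcF, by
          rw [card_insert_of_notMem h5, hc2]
          omega⟩)
        rw [sum_insert h4, sum_insert h5] at h6
        exact add_right_cancel h6
      have hFm : F.card ≤ m := by
        have := card_le_univ F
        rwa [Fintype.card_fin] at this
      have hF : F.card ≤ 2 * l + 3 := by
        rcases Nat.le_total F.card d with h3 | h3
        · have := const_le v hv' F h3 hc
          omega
        · obtain ⟨F', hF', hF'c⟩ := exists_subset_card_eq h3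
          have := const_le v hv' F' hF'c.le fun a ha a' ha' => hc a (hF' ha) a' (hF' ha')
          omega
      have h3 : F.card.choose i ≤ 2 ^ (2 * l + 3) :=
        (Nat.choose_le_two_pow _ _).trans (Nat.pow_le_pow_right (by norm_num) hF)
      have h4 : (2 ^ (l + 2)) ^ 2 = 2 ^ (2 * l + 4) := by
        rw [← pow_mul]
        congr 1
        ring
      have h5 : 2 ^ (2 * l + 3) ≤ 2 ^ (2 * l + 4) := Nat.pow_le_pow_right (by norm_num) (by omega)
      omega
  have hcov : (univ.filter fun X => ¬ D.Accepts (p X)) ⊆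
      (range (m + 1)).biUnion fun h => (powersetCard h univ).filter fun X => ¬ D.Accepts (p X) := by
    intro X hX
    rw [mem_biUnion]
    refine ⟨X.card, mem_range.2 ?_, mem_filter.2 ⟨mem_powersetCard.2 ⟨subset_univ _, rfl⟩,
      (mem_filter.1 hX).2⟩⟩
    have := card_le_univ X
    rw [Fintype.card_fin] at this
    omega
  calc (univ.filter fun X => ¬ D.Accepts (p X)).card
      ≤ ∑ h ∈ range (m + 1), ((powersetCard h univ).filter fun X => ¬ D.Accepts (p X)).card :=
        (card_le_card hcov).trans card_biUnion_le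
    _ ≤ ∑ _h ∈ range (m + 1), (s + 1) * (6 * (m + 1) ^ 3 * (2 ^ (l + 2)) ^ 4) :=
        sum_le_sum fun h _ => key h
    _ = _ := by rw [sum_const, card_range, smul_eq_mul]

end Pool.Agent.MV
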