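import Mathlib
import Pool.Agent.Lib.MP_b573ec_lc_MV.Fam
import Pool.Agent.Lib.MP_b573ec_lc_MV.Ker
import Pool.Agent.Lib.MP_b573ec_lc_MV.WalkL

/-!
# Matrix times vector: the lower bound for circuits which read some bits once
-/

set_option autoImplicit false

namespace Pool.Agent.MV

open Finset Pool.Agent.FP Pool.Agent.RT

/-- the circuit rejects the input -/
def Rej {V : Type} {s : ℕ} (D : Circuit V s) (x : V → Bool) : Prop := ¬ D.Accepts x

/-- the kernels of the small sets of columns are small -/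
def Good {I : Type} {d : ℕ} (l : ℕ) (v : I → Fin d → ZMod 2) : Prop :=
  ∀ W : Finset I, W.card ≤ d → (W.powerset.filter fun T => ∑ k ∈ T, v k = 0).card ≤ 2 ^ l

open Classical in
theorem bad_card (I : Type) [Fintype I] [inst : DecidableEq I] (d l : ℕ) :
    (univ.filter fun v : I → Fin d → ZMod 2 => ¬ Good l v).card * 2 ^ (l ^ 2) ≤
      2 ^ (2 * Fintype.card I + d * Fintype.card I) := by
  have hinst : inst = fun a b => Classical.propDecidable (a = b) := Subsingleton.elim _ _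
  subst hinst
  refine le_trans (Nat.mul_le_mul_right _ (card_le_card ?_)) (bad_mat I d l)
  intro v hv
  rw [mem_filter] at hv ⊢
  refine ⟨mem_univ _, ?_⟩
  have h1 := hv.2
  unfold Good at h1
  push Not at h1
  exact h1

open Classical in
/-- from the single matrices and right-hand sides to the hard inputs -/
theorem sum_pairs {I : Type} [Fintype I] [DecidableEq I] {d l : ℕ} (R : (I → Fin d → ZMod 2) →
      (Fin d → ZMod 2) → Finset I → Prop) (B : ℕ)
    (hB : ∀ v, Good l v → ∀ b, (univ.filter fun X : Finset I => R v b X).card ≤ B) :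
    (univ.filter fun p : (I → Fin d → ZMod 2) × Finset I =>
      R p.1 (∑ k ∈ p.2, p.1 k) p.2).card ≤
      2 ^ (d * Fintype.card I) * (2 ^ d * B) + (univ.filter fun v : I → Fin d → ZMod 2 =>
        ¬ Good l v).card * 2 ^ Fintype.card I := by
  have h1 : (univ.filter fun p : (I → Fin d → ZMod 2) × Finset I =>
      R p.1 (∑ k ∈ p.2, p.1 k) p.2).card = ∑ v : I → Fin d → ZMod 2,
        (univ.filter fun X : Finset I => R v (∑ k ∈ X, v k) X).card := by
    rw [card_filter, Fintype.sum_prod_type]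
    refine sum_congr rfl fun v _ => ?_
    rw [card_filter]
  rw [h1]
  have h2 : ∀ v : I → Fin d → ZMod 2, (univ.filter fun X : Finset I =>
      R v (∑ k ∈ X, v k) X).card ≤ 2 ^ d * B + if ¬ Good l v then 2 ^ Fintype.card I else 0 := by
    intro v
    by_cases hv : Good l v
    · rw [if_neg (not_not.2 hv), add_zero]
      have h3 : (univ.filter fun X : Finset I => R v (∑ k ∈ X, v k) X) ⊆
          (univ : Finset (Fin d → ZMod 2)).biUnion fun b =>
            univ.filter fun X : Finset I => R v b X := by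
        intro X hX
        exact mem_biUnion.2 ⟨_, mem_univ _, mem_filter.2 ⟨mem_univ _, (mem_filter.1 hX).2⟩⟩
      refine (card_le_card h3).trans (card_biUnion_le.trans ?_)
      refine (sum_le_sum fun b _ => hB v hv b).trans ?_
      rw [sum_const, card_univ, smul_eq_mul]
      refine le_of_eq ?_
      congr 1
      simp [ZMod.card]
    · rw [if_pos hv]
      refine le_trans (card_le_univ _) ?_
      rw [Fintype.card_finset]
      exact Nat.le_add_left _ _
  refine (sum_le_sum fun v _ => h2 v).trans ?_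
  rw [sum_add_distrib, sum_const, card_univ, ← sum_filter, sum_const, smul_eq_mul, smul_eq_mul]
  refine Nat.add_le_add (Nat.mul_le_mul_right _ (le_of_eq ?_)) le_rfl
  simp [ZMod.card, ← pow_mul]

/-- `m + 1` elements of a set with more than `m` elements -/
theorem pick {n m : ℕ} (E : Finset (Fin n)) (hE : m + 1 ≤ E.card) :
    ∃ (e : Fin m → Fin n) (i₀ : Fin n), Function.Injective e ∧ (∀ k, e k ∈ E) ∧ i₀ ∈ E ∧
      ∀ k, e k ≠ i₀ := by
  have h1 : Fintype.card (Fin (m + 1)) ≤ Fintype.card {v // v ∈ E} := by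
    rw [Fintype.card_fin, Fintype.card_coe]
    exact hE
  obtain ⟨f⟩ := Function.Embedding.nonempty_of_card_le h1
  have hf : Function.Injective fun i => (f i).1 := fun i j h => f.injective (Subtype.ext h)
  refine ⟨fun k => (f k.castSucc).1, (f (Fin.last m)).1, fun i j h => ?_, fun k => (f _).2,
    (f _).2, fun k h => ?_⟩
  · exact Fin.castSucc_injective _ (hf h)
  · exact absurd (hf h) (Fin.castSucc_lt_last k).ne

theorem count_bit {n t : ℕ} (i : Fin n) (L : List (Bit n ⊕ Fin t)) :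
    @List.count (Bit n ⊕ Fin t) instBEqOfDecidableEq (Sum.inl (Sum.inl i)) L =
      L.count (Sum.inl (Sum.inl i)) := by
  unfold List.count
  refine List.countP_congr fun v _ => ?_
  rcases v with (v | v) | v
  · show (decide (Sum.inl (Sum.inl v) = (Sum.inl (Sum.inl i) : Bit n ⊕ Fin t)) = true) ↔
      ((v == i) = true)
    simp
  · show (decide (Sum.inl (Sum.inr v) = (Sum.inl (Sum.inl i) : Bit n ⊕ Fin t)) = true) ↔
      (false = true)
    simp
  · show (decide (Sum.inr v = (Sum.inl (Sum.inl i) : Bit n ⊕ Fin t)) = true) ↔ (false = true)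
    simp

private theorem num {m m' d l s : ℕ} (hs : 1 ≤ s) (hm : 400 ≤ m) (hm' : m = m' + 1)
    (hd : d = m' / 2) (hl : l = Nat.ceil (Real.sqrt (3 * m))) :
    (2 : ℝ) ^ d * ((m' + 1) * ((s + 1) * (6 * (m' + 1) ^ 3 * (2 ^ (l + 2)) ^ 4))) / 2 ^ m' +
      2 ^ (2 * m') / 2 ^ (l ^ 2) ≤
      s * (2 : ℝ) ^ (10 * Real.sqrt m - m / 2) := by
  obtain ⟨y, hy⟩ : ∃ y : ℝ, y = Real.sqrt m := ⟨_, rfl⟩
  have hmR : (400 : ℝ) ≤ m := by exact_mod_cast hm
  have hy0 : 0 ≤ y := hy ▸ Real.sqrt_nonneg _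
  have hyy : y ^ 2 = m := by rw [hy]; exact Real.sq_sqrt (by positivity)
  have hy20 : 20 ≤ y := by nlinarith
  have hsR : (1 : ℝ) ≤ s := by exact_mod_cast hs
  -- `l`
  have hl1 : Real.sqrt (3 * m) ≤ l := hl ▸ Nat.le_ceil _
  have hl2 : (l : ℝ) < Real.sqrt (3 * m) + 1 := hl ▸ Nat.ceil_lt_add_one (Real.sqrt_nonneg _)
  have hl3 : (3 : ℝ) * m ≤ (l : ℝ) ^ 2 := by
    have h1 : Real.sqrt (3 * m) ^ 2 = 3 * m := Real.sq_sqrt (by positivity)
    rw [← h1]
    exact pow_le_pow_left₀ (Real.sqrt_nonneg _) hl1 2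
  have hl4 : Real.sqrt (3 * m) ≤ 1.733 * y := by
    rw [show (1.733 : ℝ) * y = Real.sqrt ((1.733 * y) ^ 2) by
      rw [Real.sqrt_sq (by positivity)]]
    refine Real.sqrt_le_sqrt ?_
    rw [← hyy]
    nlinarith
  have hl5 : (4 : ℝ) * (l + 2) ≤ 6.932 * y + 12 := by linarith
  -- the first term
  have hm'R : (m' : ℝ) = m - 1 := by
    rw [hm']
    push_cast
    ring
  have hdR : (d : ℝ) ≤ m' / 2 := by
    rw [hd]
    exact Nat.cast_div_le
  have hy4 : y ≤ (2 : ℝ) ^ (y / 4) := by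
    have h1 : (4 : ℝ) + (y - 16) / 4 ≤ y / 4 := by linarith
    have h2 : (1 : ℝ) + (y - 16) / 4 * Real.log 2 ≤ (2 : ℝ) ^ ((y - 16) / 4) := by
      have h3 := Real.add_one_le_exp ((y - 16) / 4 * Real.log 2)
      rw [Real.rpow_def_of_pos (by norm_num), mul_comm (Real.log 2)]
      linarith
    have h3 : (0.69 : ℝ) ≤ Real.log 2 := by
      have := Real.log_two_gt_d9
      linarith
    have h4 : (2 : ℝ) ^ (y / 4) = 16 * (2 : ℝ) ^ ((y - 16) / 4) := by
      rw [show y / 4 = 4 + (y - 16) / 4 by ring, Real.rpow_add (by norm_num)]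
      norm_num
    rw [h4]
    nlinarith
  have hm4 : (m : ℝ) ^ 4 ≤ (2 : ℝ) ^ (2 * y) := by
    have h1 : (m : ℝ) ^ 4 = y ^ 8 := by
      rw [← hyy]
      ring
    have h2 : (2 : ℝ) ^ (2 * y) = ((2 : ℝ) ^ (y / 4)) ^ 8 := by
      rw [← Real.rpow_natCast, ← Real.rpow_mul (by norm_num)]
      congr 1
      push_cast
      ring
    rw [h1, h2]
    exact pow_le_pow_left₀ hy0 hy4 8
  have h1 : (2 : ℝ) ^ d * ((m' + 1) * ((s + 1) * (6 * (m' + 1) ^ 3 * (2 ^ (l + 2)) ^ 4))) / 2 ^ m' ≤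
      s * (2 : ℝ) ^ (8.932 * y + 17 - m / 2) := by
    have e1 : (2 : ℝ) ^ d * ((m' + 1) * ((s + 1) * (6 * (m' + 1) ^ 3 * (2 ^ (l + 2)) ^ 4))) /
        2 ^ m' = (6 * (s + 1)) * (m : ℝ) ^ 4 * (2 : ℝ) ^ ((d : ℝ) + 4 * (l + 2) - m') := by
      rw [Real.rpow_sub (by norm_num), Real.rpow_add (by norm_num), Real.rpow_natCast,
        Real.rpow_natCast, show (4 : ℝ) * ((l : ℝ) + 2) = ((4 * (l + 2) : ℕ) : ℝ) by push_cast; ring,
        Real.rpow_natCast, hm'R]
      rw [show ((m : ℝ) - 1 + 1) = m by ring]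
      ring
    rw [e1]
    have e2 : (6 * ((s : ℝ) + 1)) ≤ s * (2 : ℝ) ^ (4 : ℝ) := by
      have : (2 : ℝ) ^ (4 : ℝ) = 16 := by norm_num
      rw [this]
      linarith
    calc (6 * ((s : ℝ) + 1)) * (m : ℝ) ^ 4 * (2 : ℝ) ^ ((d : ℝ) + 4 * (l + 2) - m')
        ≤ (s * (2 : ℝ) ^ (4 : ℝ)) * (2 : ℝ) ^ (2 * y) *
          (2 : ℝ) ^ ((d : ℝ) + 4 * (l + 2) - m') := by gcongr
      _ = s * (2 : ℝ) ^ (4 + 2 * y + ((d : ℝ) + 4 * (l + 2) - m')) := by
          rw [Real.rpow_add (by norm_num), Real.rpow_add (by norm_num)]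
          ring
      _ ≤ s * (2 : ℝ) ^ (8.932 * y + 17 - m / 2) := by
          refine mul_le_mul_of_nonneg_left ?_ (by linarith)
          refine Real.rpow_le_rpow_of_exponent_le (by norm_num) ?_
          linarith
  have h2 : (2 : ℝ) ^ (2 * m') / 2 ^ (l ^ 2) ≤ s * (2 : ℝ) ^ (8.932 * y + 17 - m / 2) := by
    have e1 : (2 : ℝ) ^ (2 * m') / 2 ^ (l ^ 2) = (2 : ℝ) ^ ((2 : ℝ) * m' - (l : ℝ) ^ 2) := by
      rw [Real.rpow_sub (by norm_num), show (2 : ℝ) * (m' : ℝ) = ((2 * m' : ℕ) : ℝ) by push_cast; ring,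
        Real.rpow_natCast, show ((l : ℝ) ^ 2) = ((l ^ 2 : ℕ) : ℝ) by push_cast; ring,
        Real.rpow_natCast]
    rw [e1]
    calc (2 : ℝ) ^ ((2 : ℝ) * m' - (l : ℝ) ^ 2) ≤ (2 : ℝ) ^ (8.932 * y + 17 - m / 2) := by
          refine Real.rpow_le_rpow_of_exponent_le (by norm_num) ?_
          linarith
      _ ≤ s * (2 : ℝ) ^ (8.932 * y + 17 - m / 2) :=
          le_mul_of_one_le_left (by positivity) hsR
  have h3 : (2 : ℝ) ^ (8.932 * y + 17 - m / 2) + (2 : ℝ) ^ (8.932 * y + 17 - m / 2) ≤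
      (2 : ℝ) ^ (10 * y - m / 2) := by
    have e1 : (2 : ℝ) ^ (8.932 * y + 17 - m / 2) + (2 : ℝ) ^ (8.932 * y + 17 - m / 2) =
        (2 : ℝ) ^ (1 + (8.932 * y + 17 - m / 2)) := by
      rw [Real.rpow_add (by norm_num), Real.rpow_one]
      ring
    rw [e1]
    refine Real.rpow_le_rpow_of_exponent_le (by norm_num) ?_
    linarith
  rw [← hy]
  calc _ ≤ s * (2 : ℝ) ^ (8.932 * y + 17 - m / 2) + s * (2 : ℝ) ^ (8.932 * y + 17 - m / 2) :=
        add_le_add h1 h2
    _ = s * ((2 : ℝ) ^ (8.932 * y + 17 - m / 2) + (2 : ℝ) ^ (8.932 * y + 17 - m / 2)) := by ring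
    _ ≤ _ := mul_le_mul_of_nonneg_left h3 (by linarith)

/-- the hard inputs agree outside the given set -/
theorem free_eq {n m d t u : ℕ} {e : Fin m → Fin n} {i₀ : Fin n} {E : Finset (Fin n)}
    (heE : ∀ k, e k ∈ E) (g : Fin t → (Bit n → Bool) → (Fin u → Bool) → Bool)
    (hg : ∀ j z z' w, (∀ f, (∀ i ∈ E, f ≠ Sum.inl i) → z f = z' f) → g j z w = g j z' w)
    (v : Fin m → Fin d → ZMod 2) (b : Fin d → ZMod 2) (X X' : Finset (Fin m)) (w : Fin u → Bool)
    (j : Fin t) : g j (pt e i₀ v b X) w = g j (pt e i₀ v b X') w := by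
  refine hg j _ _ w fun f hf => ?_
  by_contra hc
  obtain ⟨i, rfl, -⟩ := pt_ne v b X X' f hc
  exact hf (e i) (heE i) rfl

open Classical in
/-- **Reading `m` given bits of `x` once.** -/
theorem low1 {n m : ℕ} (E : Finset (Fin n)) (hE : m ≤ E.card) :
    ∃ (N : ℕ) (Q : Fin N → Bit n → Bool), 0 < N ∧ (∀ i, ¬ MulNe (Q i)) ∧
      ∀ (u t : ℕ) (g : Fin t → (Bit n → Bool) → (Fin u → Bool) → Bool),
        (∀ j z z' w, (∀ f, (∀ i ∈ E, f ≠ Sum.inl i) → z f = z' f) → g j z w = g j z' w) →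
      ∀ (s : ℕ) (D : Circuit (Bit n ⊕ Fin t) s),
        (∀ (z : Bit n → Bool) (w : Fin u → Bool), MulNe z →
          D.Accepts (Sum.elim z fun j => g j z w)) →
        (∀ i ∈ E, ∀ L, Tree D D.out L → L.count (Sum.inl (Sum.inl i)) ≤ 1) →
        ((univ.filter fun p : Fin N × (Fin u → Bool) =>
          ¬ D.Accepts (Sum.elim (Q p.1) fun j => g j (Q p.1) p.2)).card : ℝ) ≤
          N * 2 ^ u * (s * (2 : ℝ) ^ (10 * Real.sqrt m - m / 2)) := by
  by_cases hm : m < 400
  · -- the bound is trivial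
    refine ⟨1, fun _ _ => false, one_pos, ?_, ?_⟩
    · rintro _ ⟨i, hi⟩
      simp at hi
    · intro u t g _ s D _ _
      have hs : 1 ≤ s := Nat.one_le_iff_ne_zero.2 fun h => (h ▸ D.out).elim0
      have hsR : (1 : ℝ) ≤ s := by exact_mod_cast hs
      have h1 : ((univ.filter fun p : Fin 1 × (Fin u → Bool) =>
          ¬ D.Accepts (Sum.elim ((fun _ _ => false : Fin 1 → Bit n → Bool) p.1)
            fun j => g j ((fun _ _ => false : Fin 1 → Bit n → Bool) p.1) p.2)).card : ℝ) ≤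
          2 ^ u := by
        have := card_le_univ (univ.filter fun p : Fin 1 × (Fin u → Bool) =>
          ¬ D.Accepts (Sum.elim ((fun _ _ => false : Fin 1 → Bit n → Bool) p.1)
            fun j => g j ((fun _ _ => false : Fin 1 → Bit n → Bool) p.1) p.2))
        rw [Fintype.card_prod, Fintype.card_fin, Fintype.card_fun, Fintype.card_bool,
          Fintype.card_fin, one_mul] at this
        exact_mod_cast this
      refine h1.trans ?_
      have hmR : (m : ℝ) ≤ 400 := by exact_mod_cast hm.le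
      have h2 : (1 : ℝ) ≤ (2 : ℝ) ^ (10 * Real.sqrt m - m / 2) := by
        refine Real.one_le_rpow (by norm_num) ?_
        have hy0 := Real.sqrt_nonneg (m : ℝ)
        have hyy : Real.sqrt m ^ 2 = m := Real.sq_sqrt (by positivity)
        have hy20 : Real.sqrt m ≤ 20 := by
          rw [show (20 : ℝ) = Real.sqrt (20 ^ 2) by rw [Real.sqrt_sq (by norm_num)]]
          refine Real.sqrt_le_sqrt ?_
          linarith
        nlinarith
      have h3 : (1 : ℝ) ≤ s * (2 : ℝ) ^ (10 * Real.sqrt m - m / 2) := by nlinarith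
      have h4 : (0 : ℝ) < 2 ^ u := by positivity
      push_cast
      nlinarith
  push Not at hm
  obtain ⟨m', hm'⟩ : ∃ m', m = m' + 1 := ⟨m - 1, by omega⟩
  obtain ⟨d, hd⟩ : ∃ d, d = m' / 2 := ⟨_, rfl⟩
  obtain ⟨l, hl⟩ : ∃ l, l = Nat.ceil (Real.sqrt (3 * m)) := ⟨_, rfl⟩
  obtain ⟨e, i₀, he, heE, -, hi⟩ := pick (m := m') E (hm' ▸ hE)
  have hdn : d ≤ n := by
    have h1 : E.card ≤ n := by simpa using card_le_univ E
    omega
  let ι : Type := (Fin m' → Fin d → ZMod 2) × Finset (Fin m')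
  have hιc : Fintype.card ι = 2 ^ (d * m') * 2 ^ m' := by
    simp [ι, ZMod.card, ← pow_mul]
  let φ : Fin (Fintype.card ι) ≃ ι := (Fintype.equivFin ι).symm
  let q : ι → Bit n → Bool := fun p => pt e i₀ p.1 (∑ k ∈ p.2, p.1 k) p.2
  refine ⟨Fintype.card ι, fun i => q (φ i), ?_, fun i h => ?_, ?_⟩
  · rw [hιc]
    positivity
  · exact (mulNe_pt he hi hdn _ _ _).1 h rfl
  intro u t g hg s D hD hread
  have hs : 1 ≤ s := Nat.one_le_iff_ne_zero.2 fun h => (h ▸ D.out).elim0
  -- one `w`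
  have key : ∀ w : Fin u → Bool, ((univ.filter fun i : Fin (Fintype.card ι) =>
      ¬ D.Accepts (Sum.elim (q (φ i)) fun j => g j (q (φ i)) w)).card : ℝ) ≤
        Fintype.card ι * (s * (2 : ℝ) ^ (10 * Real.sqrt m - m / 2)) := by
    intro w
    have h2 := sum_pairs (I := Fin m') (d := d) (l := l)
      (fun v b X => Rej D (Sum.elim (pt e i₀ v b X) fun j => g j (pt e i₀ v b X) w))
      ((m' + 1) * ((s + 1) * (6 * (m' + 1) ^ 3 * (2 ^ (l + 2)) ^ 4))) (by
        intro v hv b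
        have h3 := @walk_lin (Bit n ⊕ Fin t) instBEqOfDecidableEq _ s m' d l D
          (fun k => Sum.inl (Sum.inl (e k)))
          (fun i j h => he (Sum.inl_injective (Sum.inl_injective h)))
          (fun k L hL => (count_bit _ L).le.trans (hread _ (heE k) L hL)) v b
          (fun X => Sum.elim (pt e i₀ v b X) fun j => g j (pt e i₀ v b X) w) ?_ ?_ ?_ (by omega) hv
        · refine (card_le_card fun X hX => ?_).trans h3
          have h4 : Rej D _ := (mem_filter.1 hX).2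
          exact mem_filter.2 ⟨mem_univ _, h4⟩
        · rintro X X' (f | j) hf
          · obtain ⟨i, rfl, h3⟩ := pt_ne v b X X' f hf
            exact ⟨i, rfl, h3⟩
          · exact absurd (free_eq heE g hg v b X X' w j) hf
        · intro X X' h
          refine pt_inj he hi v b ?_
          funext f
          exact congrFun h (Sum.inl f)
        · intro X hX
          by_contra hc
          exact hX (hD _ _ ((mulNe_pt he hi hdn v b X).2 hc)))
    have h3 := bad_card (Fin m') d l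
    rw [Fintype.card_fin] at h2 h3
    have h1 : (univ.filter fun i : Fin (Fintype.card ι) =>
        ¬ D.Accepts (Sum.elim (q (φ i)) fun j => g j (q (φ i)) w)).card ≤
        2 ^ (d * m') * (2 ^ d * ((m' + 1) * ((s + 1) * (6 * (m' + 1) ^ 3 * (2 ^ (l + 2)) ^ 4)))) +
        (univ.filter fun v : Fin m' → Fin d → ZMod 2 => ¬ Good l v).card * 2 ^ m' := by
      refine le_trans (card_le_card_of_injOn φ ?_ fun i _ j _ h => φ.injective h) h2
      intro i hi
      have h4 : Rej D _ := (mem_filter.1 (mem_coe.1 hi)).2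
      exact mem_coe.2 (mem_filter.2 ⟨mem_univ _, h4⟩)
    have h4 : ((univ.filter fun i : Fin (Fintype.card ι) =>
        ¬ D.Accepts (Sum.elim (q (φ i)) fun j => g j (q (φ i)) w)).card : ℝ) ≤
        2 ^ (d * m') * (2 ^ d * ((m' + 1) * ((s + 1) * (6 * (m' + 1) ^ 3 * (2 ^ (l + 2)) ^ 4)))) +
        ((univ.filter fun v : Fin m' → Fin d → ZMod 2 => ¬ Good l v).card : ℝ) * 2 ^ m' := by
      exact_mod_cast h1
    have h5 : ((univ.filter fun v : Fin m' → Fin d → ZMod 2 => ¬ Good l v).card : ℝ) ≤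
        2 ^ (2 * m' + d * m') / 2 ^ (l ^ 2) := by
      rw [le_div_iff₀ (by positivity)]
      exact_mod_cast h3
    have h6 := num hs hm hm' hd hl
    have hιR : (Fintype.card ι : ℝ) = 2 ^ (d * m') * 2 ^ m' := by exact_mod_cast hιc
    rw [hιR]
    calc _ ≤ _ := h4
      _ ≤ 2 ^ (d * m') * (2 ^ d * ((m' + 1) * ((s + 1) * (6 * (m' + 1) ^ 3 * (2 ^ (l + 2)) ^ 4)))) +
          2 ^ (2 * m' + d * m') / 2 ^ (l ^ 2) * 2 ^ m' := by gcongr
      _ = (2 ^ (d * m') * 2 ^ m') * ((2 : ℝ) ^ d * ((m' + 1) * ((s + 1) *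
          (6 * (m' + 1) ^ 3 * (2 ^ (l + 2)) ^ 4))) / 2 ^ m' + 2 ^ (2 * m') / 2 ^ (l ^ 2)) := by
          rw [pow_add (2 : ℝ) (2 * m') (d * m')]
          field_simp
      _ ≤ _ := mul_le_mul_of_nonneg_left h6 (by positivity)
  have h3 : ((univ.filter fun p : Fin (Fintype.card ι) × (Fin u → Bool) =>
      ¬ D.Accepts (Sum.elim (q (φ p.1)) fun j => g j (q (φ p.1)) p.2)).card : ℝ) =
      ∑ w : Fin u → Bool, ((univ.filter fun i : Fin (Fintype.card ι) =>
        ¬ D.Accepts (Sum.elim (q (φ i)) fun j => g j (q (φ i)) w)).card : ℝ) := by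
    rw [card_filter]
    push_cast
    rw [Fintype.sum_prod_type_right]
    refine sum_congr rfl fun w _ => ?_
    rw [card_filter]
    push_cast
    rfl
  rw [h3]
  refine (sum_le_sum fun w _ => key w).trans (le_of_eq ?_)
  rw [sum_const, card_univ, Fintype.card_fun, Fintype.card_bool, Fintype.card_fin, nsmul_eq_mul]
  push_cast
  ring

end Pool.Agent.MV
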