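import Mathlib
import Pool.Agent.Lib.MP_0a1b52_lc_RK.Defs

/-!
# Matrix times vector: sets closed under stars with two rays

For a given set `S₀` outside `U 0 ∪ U 1` the sets `S = S₀ ∪ a ∪ c`, `a ⊆ U 0`, `c ⊆ U 1`, with
`T (p S)` form a rectangle (`StarK`), all `a` have the same sum and all `c` have the same sum, so
there are at most `2 ^ l * 2 ^ l` of them.
-/

set_option autoImplicit false

namespace Pool.Agent.MV

open Finset Pool.Agent.RK

/-- two sets with the same part outside `W` and the same sum have the same sum on `W` -/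
private theorem sum_part {I M : Type} [DecidableEq I] [AddCommGroup M] (v : I → M) {b : M}
    {S S' W : Finset I} (h : S \ W = S' \ W) (h1 : ∑ k ∈ S, v k = b) (h2 : ∑ k ∈ S', v k = b) :
    ∑ k ∈ S ∩ W, v k = ∑ k ∈ S' ∩ W, v k := by
  have e : ∀ R : Finset I, ∑ k ∈ R, v k = ∑ k ∈ R ∩ W, v k + ∑ k ∈ R \ W, v k := by
    intro R
    exact (Finset.sum_inter_add_sum_sdiff R W v).symm
  rw [e S] at h1
  rw [e S', ← h] at h2
  exact add_right_cancel (h1.trans h2.symm)

/-- the subsets of `W` with a given sum: not more than those with the sum `0` -/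
private theorem card_part {I : Type} [DecidableEq I] {d : ℕ} (v : I → Fin d → ZMod 2)
    (W : Finset I) (A : Finset (Finset I)) (hA : ∀ a ∈ A, a ⊆ W)
    (hs : ∀ a ∈ A, ∀ a' ∈ A, ∑ k ∈ a, v k = ∑ k ∈ a', v k) :
    A.card ≤ (W.powerset.filter fun T => ∑ k ∈ T, v k = 0).card := by
  rcases A.eq_empty_or_nonempty with h | ⟨a₀, h0⟩
  · rw [h]
    simp
  refine Finset.card_le_card_of_injOn (fun a => symmDiff a a₀) ?_ ?_
  · intro a ha
    have ha' : a ∈ A := ha
    rw [Finset.mem_coe, Finset.mem_filter, Finset.mem_powerset]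
    constructor
    · intro x hx
      rw [Finset.mem_symmDiff] at hx
      rcases hx with hx | hx
      · exact hA a ha' hx.1
      · exact hA a₀ h0 hx.1
    · have e : symmDiff a a₀ = (a \ a₀) ∪ (a₀ \ a) := rfl
      show ∑ k ∈ symmDiff a a₀, v k = 0
      rw [e, Finset.sum_union (by
        rw [Finset.disjoint_left]
        intro x hx hx'
        rw [Finset.mem_sdiff] at hx hx'
        exact hx.2 hx'.1)]
      have e1 := Finset.sum_inter_add_sum_sdiff a a₀ v
      have e2 := Finset.sum_inter_add_sum_sdiff a₀ a v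
      rw [Finset.inter_comm a₀ a] at e2
      have e3 : ∑ k ∈ a \ a₀, v k = ∑ k ∈ a₀ \ a, v k := by
        refine add_left_cancel (a := ∑ k ∈ a ∩ a₀, v k) ?_
        rw [e1, e2, hs a ha' a₀ h0]
      rw [e3]
      funext i
      exact CharTwo.add_self_eq_zero _
  · intro a _ a' _ h
    exact symmDiff_left_injective a₀ h

open Classical in
theorem star_count {V I : Type} [Fintype I] {d l : ℕ} (v : I → Fin d → ZMod 2)
    (b : Fin d → ZMod 2)
    (hv : ∀ W : Finset I, W.card ≤ d →
      (W.powerset.filter fun T => ∑ k ∈ T, v k = 0).card ≤ 2 ^ l)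
    (X : Fin 2 → Finset V) (T : (V → Bool) → Prop) (hT : StarK X T) (p : Finset I → V → Bool)
    (U : Fin 2 → Finset I) (hU : Disjoint (U 0) (U 1)) (hUd : ∀ k, (U k).card = d)
    (hX : ∀ k S S', S \ U k = S' \ U k → ∀ f, f ∉ X k → p S f = p S' f)
    (hC : ∀ S, T (p S) → ∑ k ∈ S, v k = b) :
    (univ.filter fun S : Finset I => T (p S)).card * 2 ^ (2 * d) ≤
      2 ^ Fintype.card I * 2 ^ (2 * l) := by
  have hUc : (U 0 ∪ U 1).card = 2 * d := by
    rw [Finset.card_union_of_disjoint hU, hUd, hUd]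
    ring
  have hle : 2 * d ≤ Fintype.card I := by
    rw [← hUc]
    exact Finset.card_le_univ _
  -- sums in a fibre
  have key : ∀ S S1 : Finset I, T (p S) → T (p S1) → S \ (U 0 ∪ U 1) = S1 \ (U 0 ∪ U 1) →
      ∑ k ∈ S ∩ U 0, v k = ∑ k ∈ S1 ∩ U 0, v k ∧ ∑ k ∈ S ∩ U 1, v k = ∑ k ∈ S1 ∩ U 1, v k := by
    intro S S1 hS hS1 h
    have hpt : ∀ x, x ∉ U 0 → x ∉ U 1 → (x ∈ S ↔ x ∈ S1) := by
      intro x h0 h1
      have h2 : x ∈ S \ (U 0 ∪ U 1) ↔ x ∈ S1 \ (U 0 ∪ U 1) := by rw [h]
      simpa [h0, h1] using h2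
    have hd : ∀ x, x ∈ U 0 → x ∉ U 1 := fun x h0 h1 => Finset.disjoint_left.1 hU h0 h1
    set S' : Finset I := (S \ U 1) ∪ (S1 ∩ U 1) with hS'
    have g0 : S' \ U 0 = S1 \ U 0 := by
      ext x
      have a1 := hpt x
      have a2 := hd x
      simp only [hS', Finset.mem_sdiff, Finset.mem_union, Finset.mem_inter]
      tauto
    have g1 : S' \ U 1 = S \ U 1 := by
      ext x
      simp only [hS', Finset.mem_sdiff, Finset.mem_union, Finset.mem_inter]
      tauto
    have k0 : S' ∩ U 0 = S ∩ U 0 := by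
      ext x
      have a2 := hd x
      simp only [hS', Finset.mem_sdiff, Finset.mem_union, Finset.mem_inter]
      tauto
    have k1 : S' ∩ U 1 = S1 ∩ U 1 := by
      ext x
      simp only [hS', Finset.mem_sdiff, Finset.mem_union, Finset.mem_inter]
      tauto
    have hT' : T (p S') := by
      refine hT (p S') (fun k => if k = 0 then p S1 else p S) ?_ ?_
      · intro k e he
        by_cases hk : k = 0
        · subst hk
          simp only [if_true]
          exact (hX 0 S' S1 g0 e he).symm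
        · have hk1 : k = 1 := by
            revert hk
            fin_cases k <;> simp
          subst hk1
          simp only [if_neg hk]
          exact (hX 1 S' S g1 e he).symm
      · intro k
        by_cases hk : k = 0
        · simp only [hk, if_true]
          exact hS1
        · simp only [if_neg hk]
          exact hS
    have s1 := sum_part v g0 (hC S' hT') (hC S1 hS1)
    have s2 := sum_part v g1 (hC S' hT') (hC S hS)
    rw [k0] at s1
    rw [k1] at s2
    exact ⟨s1, s2.symm⟩
  -- the fibres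
  have fib : ∀ S₀ ∈ (univ.filter fun S : Finset I => T (p S)).image
      (fun S => S \ (U 0 ∪ U 1)), ((univ.filter fun S : Finset I => T (p S)).filter
      fun S => S \ (U 0 ∪ U 1) = S₀).card ≤ 2 ^ (2 * l) := by
    intro S₀ _
    set F := (univ.filter fun S : Finset I => T (p S)).filter
      fun S => S \ (U 0 ∪ U 1) = S₀ with hF
    have hmem : ∀ S, S ∈ F ↔ T (p S) ∧ S \ (U 0 ∪ U 1) = S₀ := by
      intro S
      simp [hF]
    have hcard : F.card ≤ ((F.image fun S => S ∩ U 0) ×ˢ (F.image fun S => S ∩ U 1)).card := by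
      refine Finset.card_le_card_of_injOn (fun S => (S ∩ U 0, S ∩ U 1)) ?_ ?_
      · intro S hS
        rw [Finset.mem_coe, Finset.mem_product]
        exact ⟨Finset.mem_image_of_mem _ hS, Finset.mem_image_of_mem _ hS⟩
      · intro S hS S1 hS1 h
        have h0 : S ∩ U 0 = S1 ∩ U 0 := (Prod.ext_iff.1 h).1
        have h1 : S ∩ U 1 = S1 ∩ U 1 := (Prod.ext_iff.1 h).2
        have h2 : S \ (U 0 ∪ U 1) = S1 \ (U 0 ∪ U 1) := by
          rw [((hmem S).1 hS).2, ((hmem S1).1 hS1).2]
        ext x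
        have a0 : x ∈ S ∩ U 0 ↔ x ∈ S1 ∩ U 0 := by rw [h0]
        have a1 : x ∈ S ∩ U 1 ↔ x ∈ S1 ∩ U 1 := by rw [h1]
        have a2 : x ∈ S \ (U 0 ∪ U 1) ↔ x ∈ S1 \ (U 0 ∪ U 1) := by rw [h2]
        simp only [Finset.mem_sdiff, Finset.mem_union, Finset.mem_inter] at a0 a1 a2
        tauto
    have hA : (F.image fun S => S ∩ U 0).card ≤ 2 ^ l := by
      refine (card_part v (U 0) _ ?_ ?_).trans (hv (U 0) (hUd 0).le)
      · intro a ha
        obtain ⟨S, _, rfl⟩ := Finset.mem_image.1 ha
        exact Finset.inter_subset_right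
      · intro a ha a' ha'
        obtain ⟨S, hS, rfl⟩ := Finset.mem_image.1 ha
        obtain ⟨S1, hS1, rfl⟩ := Finset.mem_image.1 ha'
        exact (key S S1 ((hmem S).1 hS).1 ((hmem S1).1 hS1).1
          (((hmem S).1 hS).2.trans ((hmem S1).1 hS1).2.symm)).1
    have hB : (F.image fun S => S ∩ U 1).card ≤ 2 ^ l := by
      refine (card_part v (U 1) _ ?_ ?_).trans (hv (U 1) (hUd 1).le)
      · intro a ha
        obtain ⟨S, _, rfl⟩ := Finset.mem_image.1 ha
        exact Finset.inter_subset_right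
      · intro a ha a' ha'
        obtain ⟨S, hS, rfl⟩ := Finset.mem_image.1 ha
        obtain ⟨S1, hS1, rfl⟩ := Finset.mem_image.1 ha'
        exact (key S S1 ((hmem S).1 hS).1 ((hmem S1).1 hS1).1
          (((hmem S).1 hS).2.trans ((hmem S1).1 hS1).2.symm)).2
    rw [Finset.card_product] at hcard
    calc F.card ≤ _ := hcard
      _ ≤ 2 ^ l * 2 ^ l := Nat.mul_le_mul hA hB
      _ = 2 ^ (2 * l) := by rw [two_mul, pow_add]
  have h1 := Finset.card_le_mul_card_image (f := fun S : Finset I => S \ (U 0 ∪ U 1))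
    (univ.filter fun S : Finset I => T (p S)) (2 ^ (2 * l)) fib
  have h2 : ((univ.filter fun S : Finset I => T (p S)).image
      fun S => S \ (U 0 ∪ U 1)).card ≤ 2 ^ (Fintype.card I - 2 * d) := by
    have h3 : (univ.filter fun S : Finset I => T (p S)).image
        (fun S => S \ (U 0 ∪ U 1)) ⊆ (U 0 ∪ U 1)ᶜ.powerset := by
      intro S hS
      obtain ⟨S', _, rfl⟩ := Finset.mem_image.1 hS
      rw [Finset.mem_powerset]
      intro x hx
      rw [Finset.mem_sdiff] at hx
      rw [Finset.mem_compl]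
      exact hx.2
    refine (Finset.card_le_card h3).trans ?_
    rw [Finset.card_powerset, Finset.card_compl, hUc]
  calc (univ.filter fun S : Finset I => T (p S)).card * 2 ^ (2 * d)
      ≤ (2 ^ (2 * l) * 2 ^ (Fintype.card I - 2 * d)) * 2 ^ (2 * d) :=
        Nat.mul_le_mul_right _ (h1.trans (Nat.mul_le_mul_left _ h2))
    _ = 2 ^ (2 * l) * (2 ^ (Fintype.card I - 2 * d) * 2 ^ (2 * d)) := by ring
    _ = 2 ^ (2 * l) * 2 ^ Fintype.card I := by
        rw [← pow_add, Nat.sub_add_cancel hle]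
    _ = 2 ^ Fintype.card I * 2 ^ (2 * l) := by ring

end Pool.Agent.MV
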