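import Mathlib
import Pool.Agent.Lib.MP_0a1b52_lc_LS.CoreK
import Pool.Agent.Lib.MP_b573ec_lc_MV.Low1
import Pool.Agent.Lib.MP_b573ec_lc_MV.Star

/-!
# Matrix times vector: the lower bound for circuits which read some bits few times
-/

set_option autoImplicit false

namespace Pool.Agent.MV

open Finset Pool.Agent.FP Pool.Agent.RK Pool.Agent.RT

open Classical in
/-- a set closed under stars contains few hard inputs -/
theorem fam2 {I V : Type} [Fintype I] [inst : DecidableEq I] {d l : ℕ}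
    (p : (I → Fin d → ZMod 2) → (Fin d → ZMod 2) → Finset I → V → Bool)
    (X : Fin 2 → Finset V) (T : (V → Bool) → Prop) (hT : StarK X T)
    (U : Fin 2 → Finset I) (hU : Disjoint (U 0) (U 1)) (hUd : ∀ k, (U k).card = d)
    (hX : ∀ v b k S S', S \ U k = S' \ U k → ∀ f, f ∉ X k → p v b S f = p v b S' f)
    (hC : ∀ v b S, T (p v b S) → ∑ k ∈ S, v k = b)
    (hl : 2 * Fintype.card I + d ≤ l ^ 2) :
    ((univ.filter fun q : (I → Fin d → ZMod 2) × Finset I =>
      T (p q.1 (∑ k ∈ q.2, q.1 k) q.2)).card : ℝ) ≤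
      2 ^ (d * Fintype.card I) * 2 ^ Fintype.card I * (2 : ℝ) ^ ((2 : ℝ) * l + 1 - d) := by
  have hinst : inst = fun a b => Classical.propDecidable (a = b) := Subsingleton.elim _ _
  subst hinst
  have hd2 : 2 * d ≤ Fintype.card I := by
    have h1 := card_le_univ (U 0 ∪ U 1)
    rw [card_union_of_disjoint hU, hUd, hUd] at h1
    omega
  have h1 := sum_pairs (I := I) (d := d) (l := l) (fun v b S => T (p v b S))
    (2 ^ (Fintype.card I - 2 * d) * 2 ^ (2 * l)) (by
      intro v hv b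
      have h1 := star_count v b hv X T hT (p v b) U hU hUd (hX v b) (hC v b)
      have h2 : 2 ^ Fintype.card I = 2 ^ (Fintype.card I - 2 * d) * 2 ^ (2 * d) := by
        rw [← pow_add]
        congr 1
        omega
      rw [h2, mul_right_comm] at h1
      exact Nat.le_of_mul_le_mul_right h1 (by positivity))
  have h2 := bad_card I d l
  have h3 : ((univ.filter fun q : (I → Fin d → ZMod 2) × Finset I =>
      T (p q.1 (∑ k ∈ q.2, q.1 k) q.2)).card : ℝ) ≤
      2 ^ (d * Fintype.card I) * (2 ^ d * (2 ^ (Fintype.card I - 2 * d) * 2 ^ (2 * l))) +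
      ((univ.filter fun v : I → Fin d → ZMod 2 => ¬ Good l v).card : ℝ) *
        2 ^ Fintype.card I := by
    exact_mod_cast h1
  have h4 : ((univ.filter fun v : I → Fin d → ZMod 2 => ¬ Good l v).card : ℝ) ≤
      2 ^ (2 * Fintype.card I + d * Fintype.card I) / 2 ^ (l ^ 2) := by
    rw [le_div_iff₀ (by positivity)]
    exact_mod_cast h2
  refine h3.trans ?_
  have e1 : (2 : ℝ) ^ (d * Fintype.card I) * (2 ^ d * (2 ^ (Fintype.card I - 2 * d) *
      2 ^ (2 * l))) = 2 ^ (d * Fintype.card I) * 2 ^ Fintype.card I *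
        (2 : ℝ) ^ ((2 : ℝ) * l - d) := by
    have h5 : (2 : ℝ) ^ Fintype.card I = 2 ^ (Fintype.card I - 2 * d) * (2 ^ d * 2 ^ d) := by
      rw [← pow_add, ← pow_add]
      congr 1
      omega
    rw [Real.rpow_sub (by norm_num), Real.rpow_natCast, show (2 : ℝ) * (l : ℝ) =
      ((2 * l : ℕ) : ℝ) by push_cast; ring, Real.rpow_natCast, h5]
    field_simp
  have e2 : ((univ.filter fun v : I → Fin d → ZMod 2 => ¬ Good l v).card : ℝ) *
      2 ^ Fintype.card I ≤ 2 ^ (d * Fintype.card I) * 2 ^ Fintype.card I *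
        (2 : ℝ) ^ ((2 : ℝ) * l - d) := by
    refine (mul_le_mul_of_nonneg_right h4 (by positivity)).trans ?_
    have h5 : (2 : ℝ) ^ (2 * Fintype.card I + d * Fintype.card I) / 2 ^ (l ^ 2) ≤
        2 ^ (d * Fintype.card I) * (2 : ℝ) ^ ((2 : ℝ) * l - d) := by
      have h6 : (2 : ℝ) ^ (2 * Fintype.card I + d * Fintype.card I) / 2 ^ (l ^ 2) =
          2 ^ (d * Fintype.card I) * (2 : ℝ) ^ ((2 : ℝ) * Fintype.card I - (l : ℝ) ^ 2) := by
        rw [Real.rpow_sub (by norm_num), show (2 : ℝ) * (Fintype.card I : ℝ) =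
          ((2 * Fintype.card I : ℕ) : ℝ) by push_cast; ring, Real.rpow_natCast,
          show ((l : ℝ) ^ 2) = ((l ^ 2 : ℕ) : ℝ) by push_cast; ring, Real.rpow_natCast, pow_add]
        ring
      rw [h6]
      refine mul_le_mul_of_nonneg_left ?_ (by positivity)
      refine Real.rpow_le_rpow_of_exponent_le (by norm_num) ?_
      have h7 : (2 : ℝ) * Fintype.card I + d ≤ (l : ℝ) ^ 2 := by exact_mod_cast hl
      have h8 : (0 : ℝ) ≤ l := Nat.cast_nonneg _
      linarith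
    calc _ ≤ 2 ^ (d * Fintype.card I) * (2 : ℝ) ^ ((2 : ℝ) * l - d) * 2 ^ Fintype.card I :=
          mul_le_mul_of_nonneg_right h5 (by positivity)
      _ = _ := by ring
  rw [e1]
  refine (add_le_add le_rfl e2).trans (le_of_eq ?_)
  rw [show (2 : ℝ) * l + 1 - d = ((2 : ℝ) * l - d) + 1 by ring, Real.rpow_add (by norm_num),
    Real.rpow_one]
  ring

private theorem num_count {s R : ℕ} {z g : ℝ} (hs1 : 1 ≤ s) (hs : (s : ℝ) ≤ (2 : ℝ) ^ z)
    (hz : 1 ≤ z) (hR : 3 ≤ R) (hg : 8 * z * R ≤ g) :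
    (((s * (s + 1) + 1) ^ R * (2 * s) ^ (R + 1) : ℕ) : ℝ) * (2 : ℝ) ^ (-g) ≤
      (2 : ℝ) ^ (-z) := by
  have h1 : (s * (s + 1) + 1) ^ R * (2 * s) ^ (R + 1) ≤ (2 * s) ^ (3 * R + 1) := by
    have h2 : s * (s + 1) + 1 ≤ (2 * s) ^ 2 := by nlinarith
    calc (s * (s + 1) + 1) ^ R * (2 * s) ^ (R + 1) ≤ ((2 * s) ^ 2) ^ R * (2 * s) ^ (R + 1) :=
          Nat.mul_le_mul_right _ (Nat.pow_le_pow_left h2 R)
      _ = (2 * s) ^ (3 * R + 1) := by
          rw [← pow_mul, ← pow_add]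
          congr 1
          ring
  have h2 : (((2 * s) ^ (3 * R + 1) : ℕ) : ℝ) ≤ (2 : ℝ) ^ ((z + 1) * (3 * R + 1)) := by
    push_cast
    have h3 : (2 : ℝ) * s ≤ (2 : ℝ) ^ (z + 1) := by
      rw [Real.rpow_add (by norm_num), Real.rpow_one]
      linarith
    have h4 : (2 : ℝ) ^ ((z + 1) * (3 * R + 1)) = ((2 : ℝ) ^ (z + 1)) ^ (3 * R + 1) := by
      rw [← Real.rpow_natCast ((2 : ℝ) ^ (z + 1)), ← Real.rpow_mul (by norm_num)]
      push_cast
      rfl
    rw [h4]
    exact pow_le_pow_left₀ (by positivity) h3 _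
  have hRR : (3 : ℝ) ≤ R := by exact_mod_cast hR
  calc (((s * (s + 1) + 1) ^ R * (2 * s) ^ (R + 1) : ℕ) : ℝ) * (2 : ℝ) ^ (-g)
      ≤ (2 : ℝ) ^ ((z + 1) * (3 * R + 1)) * (2 : ℝ) ^ (-g) :=
        mul_le_mul_of_nonneg_right ((Nat.cast_le.2 h1).trans h2) (by positivity)
    _ = (2 : ℝ) ^ ((z + 1) * (3 * R + 1) + -g) := by
        rw [Real.rpow_add (by norm_num)]
    _ ≤ (2 : ℝ) ^ (-z) := by
        refine Real.rpow_le_rpow_of_exponent_le (by norm_num) ?_
        nlinarith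

private theorem num_par {r m N₁ d l : ℕ} (hr : 1 ≤ r) (hm : 2 ^ (20 * r) ≤ m)
    (hN : N₁ = (m - 1) / 4) (hd : d = N₁ / 4 ^ r) (hl : l = 3 * (Nat.sqrt N₁ + 1)) :
    16 * r * 4 ^ r < N₁ ∧ 2 * (2 * l + 1) ≤ d ∧ 2 * (4 * N₁) + d ≤ l ^ 2 ∧
      8 * ((m : ℝ) / 2 ^ (20 * r)) * ((256 * r ^ 2 * 4 ^ r : ℕ) : ℝ) ≤ (d : ℝ) / 2 := by
  obtain ⟨P, hP⟩ : ∃ P : ℕ, P = 2 ^ r := ⟨_, rfl⟩
  have hP4 : 4 ^ r = P ^ 2 := by
    rw [hP, ← pow_mul, mul_comm r 2, pow_mul]
    norm_num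
  have hP20 : 2 ^ (20 * r) = P ^ 20 := by
    rw [hP, ← pow_mul, mul_comm]
  have hP2 : 2 ≤ P := by
    rw [hP]
    calc 2 = 2 ^ 1 := by norm_num
      _ ≤ 2 ^ r := Nat.pow_le_pow_right (by norm_num) hr
  have hrP : r ≤ P := by
    rw [hP]
    exact (Nat.lt_two_pow_self).le
  have hr16 : 2 ^ 16 * r ^ 2 ≤ P ^ 16 := by
    rcases Nat.lt_or_ge r 2 with h | h
    · obtain rfl : r = 1 := by omega
      rw [hP]
      norm_num
    · have h4 : 4 ≤ P := by
        rw [hP]
        calc 4 = 2 ^ 2 := by norm_num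
          _ ≤ 2 ^ r := Nat.pow_le_pow_right (by norm_num) h
      calc 2 ^ 16 * r ^ 2 = 4 ^ 8 * r ^ 2 := by norm_num
        _ ≤ P ^ 8 * P ^ 2 := Nat.mul_le_mul (Nat.pow_le_pow_left h4 8) (Nat.pow_le_pow_left hrP 2)
        _ = P ^ 10 := by rw [← pow_add]
        _ ≤ P ^ 16 := Nat.pow_le_pow_right (by omega) (by norm_num)
  rw [hP20] at hm
  rw [hP4] at hd ⊢
  have hP1 : 1 ≤ P := by omega
  have hP13 : 2 ^ 13 ≤ P ^ 13 := Nat.pow_le_pow_left hP2 13
  -- `N₁`
  have hP17 : 8 * P ^ 17 ≤ P ^ 20 := by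
    have h1 : P ^ 20 = P ^ 3 * P ^ 17 := by rw [← pow_add]
    have h2 : 2 ^ 3 ≤ P ^ 3 := Nat.pow_le_pow_left hP2 3
    rw [h1]
    exact Nat.mul_le_mul_right _ h2
  have hP17' : 2 ^ 17 ≤ P ^ 17 := Nat.pow_le_pow_left hP2 17
  have hN8 : m ≤ 8 * N₁ := by omega
  have hN17 : P ^ 17 ≤ N₁ := by omega
  have hN4 : 196 * P ^ 4 ≤ N₁ := by
    refine le_trans ?_ hN17
    have h1 : P ^ 17 = P ^ 13 * P ^ 4 := by rw [← pow_add]
    rw [h1]
    exact Nat.mul_le_mul_right _ (by omega)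
  -- the square root
  obtain ⟨a, ha⟩ : ∃ a, a = Nat.sqrt N₁ := ⟨_, rfl⟩
  have ha1 : a * a ≤ N₁ := ha ▸ Nat.sqrt_le N₁
  have ha2 : N₁ < (a + 1) * (a + 1) := ha ▸ Nat.lt_succ_sqrt N₁
  have ha14 : 14 * P ^ 2 ≤ a := by
    rw [ha, Nat.le_sqrt]
    calc 14 * P ^ 2 * (14 * P ^ 2) = 196 * P ^ 4 := by ring
      _ ≤ N₁ := hN4
  have ha7 : 7 ≤ a := by
    have h1 : 1 ≤ P ^ 2 := Nat.one_le_pow _ _ hP1
    omega
  have hd1 : 12 * a + 14 ≤ d := by
    rw [hd, Nat.le_div_iff_mul_le (by positivity)]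
    refine le_trans ?_ ha1
    have h1 : 12 * a + 14 ≤ 14 * a := by omega
    calc (12 * a + 14) * P ^ 2 ≤ 14 * a * P ^ 2 := Nat.mul_le_mul_right _ h1
      _ = a * (14 * P ^ 2) := by ring
      _ ≤ a * a := Nat.mul_le_mul_left _ ha14
  have hdN : d ≤ N₁ := by
    rw [hd]
    exact Nat.div_le_self _ _
  refine ⟨?_, ?_, ?_, ?_⟩
  · refine lt_of_lt_of_le ?_ hN17
    have h1 : P ^ 17 = P ^ 14 * (P * P ^ 2) := by ring
    have h2 : r * P ^ 2 ≤ P * P ^ 2 := Nat.mul_le_mul_right _ hrP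
    have h3 : 2 ^ 14 ≤ P ^ 14 := Nat.pow_le_pow_left hP2 14
    have h4 : 1 ≤ P * P ^ 2 := Nat.mul_pos hP1 (Nat.pow_pos hP1)
    rw [h1, mul_assoc]
    nlinarith
  · rw [hl, ← ha]
    omega
  · rw [hl, ← ha]
    nlinarith
  -- the real inequality
  have hd2 : N₁ ≤ 2 * d * P ^ 2 := by
    have h1 : N₁ < (d + 1) * P ^ 2 := by
      rw [hd, mul_comm]
      exact Nat.lt_mul_div_succ _ (by positivity)
    have h2 : (d + 1) * P ^ 2 ≤ (2 * d) * P ^ 2 := Nat.mul_le_mul_right _ (by omega)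
    omega
  have hmd : m ≤ 16 * d * P ^ 2 := by
    calc m ≤ 8 * N₁ := hN8
      _ ≤ 8 * (2 * d * P ^ 2) := Nat.mul_le_mul_left _ hd2
      _ = 16 * d * P ^ 2 := by ring
  have hP0 : (0 : ℝ) < P := by exact_mod_cast hP1
  have e1 : (2 : ℝ) ^ (20 * r) = (P : ℝ) ^ 20 := by exact_mod_cast hP20
  rw [e1]
  have hmd' : (m : ℝ) ≤ 16 * d * (P : ℝ) ^ 2 := by exact_mod_cast hmd
  have hr16' : (2 : ℝ) ^ 16 * (r : ℝ) ^ 2 ≤ (P : ℝ) ^ 16 := by exact_mod_cast hr16
  have hd0 : (0 : ℝ) ≤ d := Nat.cast_nonneg _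
  push_cast
  have e2 : 8 * ((m : ℝ) / (P : ℝ) ^ 20) * (256 * (r : ℝ) ^ 2 * (P : ℝ) ^ 2) =
      (m * (2048 * (r : ℝ) ^ 2 * (P : ℝ) ^ 2)) / (P : ℝ) ^ 20 := by ring
  rw [e2, div_le_iff₀ (by positivity)]
  calc (m : ℝ) * (2048 * (r : ℝ) ^ 2 * (P : ℝ) ^ 2)
      ≤ (16 * d * (P : ℝ) ^ 2) * (2048 * (r : ℝ) ^ 2 * (P : ℝ) ^ 2) :=
        mul_le_mul_of_nonneg_right hmd' (by positivity)
    _ = (d : ℝ) / 2 * ((2 ^ 16 * (r : ℝ) ^ 2) * (P : ℝ) ^ 4) := by ring
    _ ≤ (d : ℝ) / 2 * ((P : ℝ) ^ 16 * (P : ℝ) ^ 4) := by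
        refine mul_le_mul_of_nonneg_left ?_ (by positivity)
        exact mul_le_mul_of_nonneg_right hr16' (by positivity)
    _ = (d : ℝ) / 2 * (P : ℝ) ^ 20 := by ring

/-- `k + 1` elements of a set with more than `k` elements -/
private theorem pickI {n N₁ : ℕ} (E : Finset (Fin n)) (hE : 4 * N₁ + 1 ≤ E.card) :
    ∃ (e : Fin 2 × Fin N₁ × Bool → Fin n) (i₀ : Fin n), Function.Injective e ∧
      (∀ k, e k ∈ E) ∧ ∀ k, e k ≠ i₀ := by
  obtain ⟨e, i₀, he, heE, -, hi⟩ := pick (m := 4 * N₁) E hE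
  have h1 : Fintype.card (Fin 2 × Fin N₁ × Bool) = Fintype.card (Fin (4 * N₁)) := by
    rw [Fintype.card_prod, Fintype.card_prod, Fintype.card_fin, Fintype.card_fin,
      Fintype.card_bool, Fintype.card_fin]
    ring
  let f := Fintype.equivOfCardEq h1
  exact ⟨fun k => e (f k), i₀, he.comp f.injective, fun k => heE _, fun k => hi _⟩

open Classical in
/-- **Reading `m` given bits of `x` at most `r` times.** -/
theorem lowR {n r m : ℕ} (hr : 1 ≤ r) (hm : 2 ^ (20 * r) ≤ m) (E : Finset (Fin n))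
    (hE : m ≤ E.card) :
    ∃ (N : ℕ) (Q : Fin N → Bit n → Bool), 0 < N ∧ (∀ i, ¬ MulNe (Q i)) ∧
      ∀ (u t : ℕ) (g : Fin t → (Bit n → Bool) → (Fin u → Bool) → Bool),
        (∀ j z z' w, (∀ f, (∀ i ∈ E, f ≠ Sum.inl i) → z f = z' f) → g j z w = g j z' w) →
      ∀ (s : ℕ) (D : Circuit (Bit n ⊕ Fin t) s),
        (s : ℝ) ≤ (2 : ℝ) ^ ((m : ℝ) / 2 ^ (20 * r)) →
        (∀ (z : Bit n → Bool) (w : Fin u → Bool), MulNe z →
          D.Accepts (Sum.elim z fun j => g j z w)) →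
        (∀ i ∈ E, ∀ L, Tree D D.out L → L.count (Sum.inl (Sum.inl i)) ≤ r) →
        ((univ.filter fun p : Fin N × (Fin u → Bool) =>
          ¬ D.Accepts (Sum.elim (Q p.1) fun j => g j (Q p.1) p.2)).card : ℝ) ≤
          N * 2 ^ u * (2 : ℝ) ^ (-((m : ℝ) / 2 ^ (20 * r))) := by
  obtain ⟨N₁, hN₁⟩ : ∃ N₁, N₁ = (m - 1) / 4 := ⟨_, rfl⟩
  obtain ⟨d, hd⟩ : ∃ d, d = N₁ / 4 ^ r := ⟨_, rfl⟩
  obtain ⟨l, hl⟩ : ∃ l, l = 3 * (Nat.sqrt N₁ + 1) := ⟨_, rfl⟩
  obtain ⟨hτ, hld, hl2, hfin⟩ := num_par hr hm hN₁ hd hl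
  have hΘ1 : 1 ≤ 4 ^ r := Nat.one_le_pow _ _ (by norm_num)
  have hm1 : 1 ≤ m := le_trans (Nat.one_le_pow _ _ (by norm_num)) hm
  obtain ⟨e, i₀, he, heE, hi⟩ := pickI (N₁ := N₁) E (by omega)
  have hIc : Fintype.card (Fin 2 × Fin N₁ × Bool) = 4 * N₁ := by
    rw [Fintype.card_prod, Fintype.card_prod, Fintype.card_fin, Fintype.card_fin,
      Fintype.card_bool]
    ring
  have hdN : d ≤ N₁ := by
    rw [hd]
    exact Nat.div_le_self _ _
  have hdn : d ≤ n := by
    have h1 : E.card ≤ n := by simpa using card_le_univ E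
    omega
  let I : Type := Fin 2 × Fin N₁ × Bool
  let ι : Type := (I → Fin d → ZMod 2) × Finset I
  have hιc : Fintype.card ι = 2 ^ (d * (4 * N₁)) * 2 ^ (4 * N₁) := by
    have h1 : Fintype.card ι = Fintype.card (I → Fin d → ZMod 2) * Fintype.card (Finset I) :=
      Fintype.card_prod _ _
    rw [h1, Fintype.card_finset, hIc, Fintype.card_fun, Fintype.card_fun, ZMod.card,
      Fintype.card_fin, hIc, ← pow_mul]
  let φ : Fin (Fintype.card ι) ≃ ι := (Fintype.equivFin ι).symm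
  let q : ι → Bit n → Bool := fun p => pt e i₀ p.1 (∑ k ∈ p.2, p.1 k) p.2
  refine ⟨Fintype.card ι, fun i => q (φ i), ?_, fun i h => ?_, ?_⟩
  · rw [hιc]
    positivity
  · exact (mulNe_pt he hi hdn _ _ _).1 h rfl
  intro u t g hg s D hs hD hcnt
  have hs1 : 1 ≤ s := Nat.one_le_iff_ne_zero.2 fun h => (h ▸ D.out).elim0
  obtain ⟨z, hz⟩ : ∃ z : ℝ, z = (m : ℝ) / 2 ^ (20 * r) := ⟨_, rfl⟩
  rw [← hz] at hs hfin ⊢
  have hz1 : 1 ≤ z := by
    rw [hz, le_div_iff₀ (by positivity), one_mul]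
    exact_mod_cast hm
  -- the number of variables of a small gate
  obtain ⟨τ, hτdef⟩ : ∃ τ, τ = (N₁ - 1) / (16 * r * 4 ^ r) := ⟨_, rfl⟩
  have hc0 : 0 < 16 * r * 4 ^ r := by positivity
  have hτ1 : 1 ≤ τ := by
    rw [hτdef]
    exact Nat.div_pos (by omega) hc0
  have hτ2 : 16 * r * 4 ^ r * τ ≤ N₁ - 1 := by
    rw [hτdef]
    exact Nat.mul_div_le _ _
  have hτ3 : N₁ ≤ 16 * r * 4 ^ r * (τ + 1) := by
    have h1 := Nat.lt_mul_div_succ (N₁ - 1) hc0
    rw [← hτdef] at h1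
    omega
  have hfree : ∀ (v : I → Fin d → ZMod 2) (b : Fin d → ZMod 2) (S S' : Finset I)
      (w : Fin u → Bool) (j : Fin t), g j (pt e i₀ v b S) w = g j (pt e i₀ v b S') w := by
    intro v b S S' w j
    refine hg j _ _ w fun f hf => ?_
    by_contra hc
    obtain ⟨i, rfl, -⟩ := pt_ne v b S S' f hc
    exact hf (e i) (heE i) rfl
  have hιR : (Fintype.card ι : ℝ) = 2 ^ (d * (4 * N₁)) * 2 ^ (4 * N₁) := by exact_mod_cast hιc
  have key : ∀ w : Fin u → Bool, ((univ.filter fun i : Fin (Fintype.card ι) =>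
      ¬ D.Accepts (Sum.elim (q (φ i)) fun j => g j (q (φ i)) w)).card : ℝ) ≤
        Fintype.card ι * (2 : ℝ) ^ (-z) := by
    intro w
    have h1 := Pool.Agent.LS.core_boundK (K := 2) (N₁ := N₁) le_rfl D
      (fun k j t => Sum.inl (Sum.inl (e (k, j, t))))
      (fun k j t k' j' t' h => by
        have h2 := he (Sum.inl_injective (Sum.inl_injective h))
        simpa only [Prod.mk.injEq] using h2)
      r τ (256 * r ^ 2 * 4 ^ r) (4 ^ r) hτ1
      (fun k j t L hL => (count_bit _ L).le.trans (hcnt _ (heE _) L hL))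
      (by
        have h2 := Nat.mul_le_mul_left (16 * r) hτ3
        calc 8 * (r * (2 * N₁)) = 16 * r * N₁ := by ring
          _ ≤ 16 * r * (16 * r * 4 ^ r * (τ + 1)) := h2
          _ = 256 * r ^ 2 * 4 ^ r * (τ + 1) := by ring)
      (by
        have h2 : 1 ≤ r ^ 2 := Nat.one_le_pow _ _ hr
        nlinarith)
      (by
        rw [pow_mul]
        norm_num)
      (by
        have h2 : 4 * 2 * (2 * r) * τ * 4 ^ r = 16 * r * 4 ^ r * τ := by ring
        rw [h2]
        omega)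
      (ι := ι) (fun p => Sum.elim (q p) fun j => g j (q p) w)
      (Fintype.card ι * (2 : ℝ) ^ (-((d : ℝ) / 2)))
      (by positivity)
      (by
        intro X J hJ hJX T hT hTC
        -- the sets of bits
        have hU : ∀ k : Fin 2, ∃ U : Finset I, U ⊆ (univ : Finset Bool).biUnion
            (fun t => (J k).image fun j => ((k, j, t) : I)) ∧ U.card = d := by
          intro k
          refine exists_subset_card_eq ?_
          rw [card_biUnion]
          · have h2 : ∀ t ∈ (univ : Finset Bool), ((J k).image fun j => ((k, j, t) : I)).card =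
                (J k).card := by
              intro t _
              refine card_image_of_injective _ fun a b h => ?_
              exact (Prod.mk.inj (Prod.mk.inj h).2).1
            rw [sum_congr rfl h2, sum_const, card_univ, Fintype.card_bool, smul_eq_mul]
            have h3 := hJ k
            rw [hd]
            refine Nat.div_le_of_le_mul ?_
            calc N₁ ≤ 2 * 4 ^ r * (J k).card := h3
              _ = 4 ^ r * (2 * (J k).card) := by ring
          · intro a _ b _ hab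
            rw [Function.onFun, disjoint_left]
            intro x hx hx'
            obtain ⟨y, -, rfl⟩ := mem_image.1 hx
            obtain ⟨y', -, hy'⟩ := mem_image.1 hx'
            exact hab ((Prod.mk.inj (Prod.mk.inj hy').2).2).symm
        choose U hU1 hU2 using hU
        have hU3 : ∀ k, ∀ i ∈ U k, i.1 = k ∧
            (Sum.inl (Sum.inl (e i)) : Bit n ⊕ Fin t) ∈ X k := by
          intro k i hik
          obtain ⟨t, -, ht⟩ := mem_biUnion.1 (hU1 k hik)
          obtain ⟨j, hj, rfl⟩ := mem_image.1 ht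
          exact ⟨rfl, hJX k j hj t⟩
        have h2 := fam2 (I := I) (d := d) (l := l)
          (fun v b S => Sum.elim (pt e i₀ v b S) fun j => g j (pt e i₀ v b S) w) X T hT U
          (by
            rw [disjoint_left]
            intro i h0 h1
            have h3 := (hU3 0 i h0).1.symm.trans (hU3 1 i h1).1
            exact absurd h3 (by decide)) hU2
          (by
            rintro v b k S S' hSS (f | j) hf
            · show pt e i₀ v b S f = pt e i₀ v b S' f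
              by_contra hc
              obtain ⟨i, rfl, h3⟩ := pt_ne v b S S' f hc
              refine h3 ?_
              have h4 : i ∉ U k := fun h => hf (hU3 k i h).2
              have h5 := congrArg (fun A : Finset I => i ∈ A) hSS
              simp only [mem_sdiff, h4, not_false_eq_true, and_true] at h5
              exact iff_of_eq h5
            · exact hfree v b S S' w j)
          (by
            intro v b S hS
            by_contra hc
            exact hTC _ hS (hD _ _ ((mulNe_pt he hi hdn v b S).2 hc)))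
          (by
            have h3 : Fintype.card I = 4 * N₁ := hIc
            rw [h3]
            exact hl2)
        rw [Nat.card_eq_fintype_card, Fintype.card_subtype]
        refine h2.trans ?_
        have h3 : Fintype.card I = 4 * N₁ := hIc
        rw [h3, hιR]
        refine mul_le_mul_of_nonneg_left ?_ (by positivity)
        refine Real.rpow_le_rpow_of_exponent_le (by norm_num) ?_
        have h4 : (2 : ℝ) * (2 * l + 1) ≤ d := by exact_mod_cast hld
        linarith)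
    have h3 : ((univ.filter fun i : Fin (Fintype.card ι) =>
        ¬ D.Accepts (Sum.elim (q (φ i)) fun j => g j (q (φ i)) w)).card : ℝ) =
        Nat.card {p : ι // ¬ D.Accepts (Sum.elim (q p) fun j => g j (q p) w)} := by
      rw [Nat.card_eq_fintype_card, Fintype.card_subtype, Nat.cast_inj]
      refine card_bij (fun i _ => φ i) ?_ ?_ ?_
      · intro i hi
        exact mem_filter.2 ⟨mem_univ _, (mem_filter.1 hi).2⟩
      · intro i _ j _ h
        exact φ.injective h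
      · intro i hi
        refine ⟨φ.symm i, mem_filter.2 ⟨mem_univ _, ?_⟩, φ.apply_symm_apply i⟩
        have h2 := (mem_filter.1 hi).2
        simpa only [Equiv.apply_symm_apply] using h2
    rw [h3]
    refine h1.trans ?_
    have h4 := num_count (R := 256 * r ^ 2 * 4 ^ r) hs1 hs hz1 (by
      have h2 : 1 ≤ r ^ 2 := Nat.one_le_pow _ _ hr
      nlinarith) hfin
    have h5 : (0 : ℝ) ≤ Fintype.card ι := Nat.cast_nonneg _
    have h6 := mul_le_mul_of_nonneg_left h4 h5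
    refine le_trans (le_of_eq ?_) h6
    ring
  have h3 : ((univ.filter fun p : Fin (Fintype.card ι) × (Fin u → Bool) =>
      ¬ D.Accepts (Sum.elim (q (φ p.1)) fun j => g j (q (φ p.1)) p.2)).card : ℝ) =
      ∑ w : Fin u → Bool, ((univ.filter fun i : Fin (Fintype.card ι) =>
        ¬ D.Accepts (Sum.elim (q (φ i)) fun j => g j (q (φ i)) w)).card : ℝ) := by
    rw [card_filter]
    push_cast
    rw [Fintype.sum_prod_type_right]
    refine sum_congr rfl fun w _ => ?_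
    rw [card_filter]
    push_cast
    rfl
  rw [h3]
  refine (sum_le_sum fun w _ => key w).trans (le_of_eq ?_)
  rw [sum_const, card_univ, Fintype.card_fun, Fintype.card_bool, Fintype.card_fin, nsmul_eq_mul]
  push_cast
  ring

end Pool.Agent.MV
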