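import Mathlib
import Pool.Agent.Lib.MP_b573ec_lc_MV.Defs

/-!
# Matrix times vector: the part with the solutions as sums of few vectors

The AND over all `c : Fin h → Bool` of the OR over `l` of `x l ≠ y c l`, and `x l ≠ y` is
`(x l ∨ y) ∧ (¬ x l ∨ ¬ y)`.
-/

set_option autoImplicit false

namespace Pool.Agent.MV

open Finset

private theorem inv_lit {V Q P : Type} {gate : P → MGate V Q P} {g : P} {L : List V}
    (hT : MTree gate g L) {v : V} {b : Bool} (h : gate g = .lit v b) : L = [v] := by
  cases hT with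
  | lit _ v' b' h' => rw [h] at h'; injection h' with h1 h2; rw [h1]
  | free _ _ _ h' => rw [h] at h'; cases h'
  | left _ _ _ _ h' _ => rw [h] at h'; cases h'
  | right _ _ _ _ h' _ => rw [h] at h'; cases h'
  | both _ _ _ _ _ h' _ _ => rw [h] at h'; cases h'

private theorem inv_free {V Q P : Type} {gate : P → MGate V Q P} {g : P} {L : List V}
    (hT : MTree gate g L) {q : Q} {b : Bool} (h : gate g = .free q b) : L = [] := by
  cases hT with
  | lit _ v' b' h' => rw [h] at h'; cases h'
  | free _ _ _ h' => rfl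
  | left _ _ _ _ h' _ => rw [h] at h'; cases h'
  | right _ _ _ _ h' _ => rw [h] at h'; cases h'
  | both _ _ _ _ _ h' _ _ => rw [h] at h'; cases h'

private theorem inv_and {V Q P : Type} {gate : P → MGate V Q P} {g : P} {L : List V}
    (hT : MTree gate g L) {i j : P} (h : gate g = .and i j) : MTree gate i L ∨ MTree gate j L := by
  cases hT with
  | lit _ v' b' h' => rw [h] at h'; cases h'
  | free _ _ _ h' => rw [h] at h'; cases h'
  | left _ i' j' _ h' h'' => rw [h] at h'; injection h' with h1 h2; rw [h1]; exact Or.inl h''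
  | right _ i' j' _ h' h'' => rw [h] at h'; injection h' with h1 h2; rw [h2]; exact Or.inr h''
  | both _ _ _ _ _ h' _ _ => rw [h] at h'; cases h'

private theorem inv_or {V Q P : Type} {gate : P → MGate V Q P} {g : P} {L : List V}
    (hT : MTree gate g L) {i j : P} (h : gate g = .or i j) :
    ∃ L1 L2, L = L1 ++ L2 ∧ MTree gate i L1 ∧ MTree gate j L2 := by
  cases hT with
  | lit _ v' b' h' => rw [h] at h'; cases h'
  | free _ _ _ h' => rw [h] at h'; cases h'
  | left _ _ _ _ h' _ => rw [h] at h'; cases h'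
  | right _ _ _ _ h' _ => rw [h] at h'; cases h'
  | both _ i' j' L1 L2 h' h1 h2 =>
    rw [h] at h'
    injection h' with e1 e2
    rw [e1, e2]
    exact ⟨L1, L2, rfl, h1, h2⟩

private inductive K
  | a1 | a0 | y1 | y0 | o1 | o0 | n | r
  deriving DecidableEq, Fintype

private abbrev PT (m h : ℕ) : Type := ((Fin h → Bool) × Fin m × K) ⊕ Fin (2 ^ h)

private def gt {V Q : Type} {m h : ℕ} (hm : 1 ≤ m) (e : Fin m → V)
    (y : (Fin h → Bool) → Fin m → Q) (E : Fin (2 ^ h) → (Fin h → Bool)) :
    PT m h → MGate V Q (PT m h)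
  | .inl (_, l, .a1) => .lit (e l) true
  | .inl (_, l, .a0) => .lit (e l) false
  | .inl (c, l, .y1) => .free (y c l) true
  | .inl (c, l, .y0) => .free (y c l) false
  | .inl (c, l, .o1) => .or (.inl (c, l, .a1)) (.inl (c, l, .y1))
  | .inl (c, l, .o0) => .or (.inl (c, l, .a0)) (.inl (c, l, .y0))
  | .inl (c, l, .n) => .and (.inl (c, l, .o1)) (.inl (c, l, .o0))
  | .inl (c, l, .r) => if (l : ℕ) = 0 then .and (.inl (c, l, .n)) (.inl (c, l, .n))
      else .or (.inl (c, ⟨(l : ℕ) - 1, by have := l.2; omega⟩, .r)) (.inl (c, l, .n))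
  | .inr k => if (k : ℕ) = 0 then
        .and (.inl (E k, ⟨m - 1, by omega⟩, .r)) (.inl (E k, ⟨m - 1, by omega⟩, .r))
      else .and (.inr ⟨(k : ℕ) - 1, by have := k.2; omega⟩) (.inl (E k, ⟨m - 1, by omega⟩, .r))

private def rkK : K → ℕ
  | .a1 => 0
  | .a0 => 0
  | .y1 => 0
  | .y0 => 0
  | .o1 => 1
  | .o0 => 1
  | .n => 2
  | .r => 3

private def rkP {m h : ℕ} : PT m h → ℕ
  | .inl (_, l, k) => 10 * (l : ℕ) + rkK k
  | .inr k => 10 * m + 10 + (k : ℕ)

private theorem rkK_le (k : K) : rkK k ≤ 3 := by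
  cases k <;> simp [rkK]

private theorem gt_ranked {V Q : Type} {m h : ℕ} (hm : 1 ≤ m) (e : Fin m → V)
    (y : (Fin h → Bool) → Fin m → Q) (E : Fin (2 ^ h) → (Fin h → Bool)) :
    MRanked (gt hm e y E) rkP := by
  have key : ∀ (g i j : PT m h) (q : MGate V Q (PT m h)), gt hm e y E g = q →
      (q = .and i j ∨ q = .or i j) → rkP i < rkP g ∧ rkP j < rkP g := by
    intro g i j q hq h
    rcases g with ⟨c, l, k⟩ | k
    · cases k
      · rw [← hq] at h; rcases h with h | h <;> cases h
      · rw [← hq] at h; rcases h with h | h <;> cases h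
      · rw [← hq] at h; rcases h with h | h <;> cases h
      · rw [← hq] at h; rcases h with h | h <;> cases h
      · rw [← hq] at h
        rcases h with h | h
        · cases h
        · cases h
          simp [rkP, rkK]
      · rw [← hq] at h
        rcases h with h | h
        · cases h
        · cases h
          simp [rkP, rkK]
      · rw [← hq] at h
        rcases h with h | h
        · cases h
          simp [rkP, rkK]
        · cases h
      · by_cases hl : (l : ℕ) = 0
        · have hq' : gt hm e y E (.inl (c, l, .r)) =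
              .and (.inl (c, l, .n)) (.inl (c, l, .n)) := by
            simp only [gt, if_pos hl]
          rw [← hq, hq'] at h
          rcases h with h | h
          · cases h
            simp [rkP, rkK]
          · cases h
        · have hq' : gt hm e y E (.inl (c, l, .r)) =
              .or (.inl (c, ⟨(l : ℕ) - 1, by have := l.2; omega⟩, .r)) (.inl (c, l, .n)) := by
            simp only [gt, if_neg hl]
          rw [← hq, hq'] at h
          rcases h with h | h
          · cases h
          · cases h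
            simp only [rkP, rkK]
            omega
    · by_cases hk : (k : ℕ) = 0
      · have hq' : gt hm e y E (.inr k) = .and (.inl (E k, ⟨m - 1, by omega⟩, .r))
            (.inl (E k, ⟨m - 1, by omega⟩, .r)) := by
          simp only [gt, if_pos hk]
        rw [← hq, hq'] at h
        rcases h with h | h
        · cases h
          simp only [rkP, rkK]
          omega
        · cases h
      · have hq' : gt hm e y E (.inr k) = .and (.inr ⟨(k : ℕ) - 1, by have := k.2; omega⟩)
            (.inl (E k, ⟨m - 1, by omega⟩, .r)) := by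
          simp only [gt, if_neg hk]
        rw [← hq, hq'] at h
        rcases h with h | h
        · cases h
          simp only [rkP, rkK]
          omega
        · cases h
  intro g i j h
  exact key g i j _ rfl h

private theorem val_n {V Q : Type} {m h : ℕ} (hm : 1 ≤ m) (e : Fin m → V)
    (y : (Fin h → Bool) → Fin m → Q) (E : Fin (2 ^ h) → (Fin h → Bool)) {x : V → Bool}
    {w : Q → Bool} {val : PT m h → Bool} (hv : MEval (gt hm e y E) x w val)
    (c : Fin h → Bool) (l : Fin m) :
    val (.inl (c, l, .n)) = true ↔ x (e l) ≠ w (y c l) := by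
  have h1 := hv (.inl (c, l, .a1))
  have h2 := hv (.inl (c, l, .a0))
  have h3 := hv (.inl (c, l, .y1))
  have h4 := hv (.inl (c, l, .y0))
  have h5 := hv (.inl (c, l, .o1))
  have h6 := hv (.inl (c, l, .o0))
  have h7 := hv (.inl (c, l, .n))
  simp only [gt] at h1 h2 h3 h4 h5 h6 h7
  rw [h7, h5, h6, h1, h2, h3, h4]
  cases x (e l) <;> cases w (y c l) <;> decide

private theorem val_r {V Q : Type} {m h : ℕ} (hm : 1 ≤ m) (e : Fin m → V)
    (y : (Fin h → Bool) → Fin m → Q) (E : Fin (2 ^ h) → (Fin h → Bool)) {x : V → Bool}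
    {w : Q → Bool} {val : PT m h → Bool} (hv : MEval (gt hm e y E) x w val)
    (c : Fin h → Bool) (t : ℕ) : ∀ l : Fin m, (l : ℕ) = t →
    (val (.inl (c, l, .r)) = true ↔ ∃ l' : Fin m, (l' : ℕ) ≤ t ∧ x (e l') ≠ w (y c l')) := by
  induction t with
  | zero =>
    intro l hl
    have h1 := hv (.inl (c, l, .r))
    simp only [gt, if_pos hl] at h1
    rw [h1, Bool.and_self, val_n hm e y E hv c l]
    constructor
    · intro h
      exact ⟨l, by omega, h⟩
    · rintro ⟨l', h2, h3⟩
      have : l' = l := Fin.ext (by omega)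
      rw [← this]; exact h3
  | succ t ih =>
    intro l hl
    have h1 := hv (.inl (c, l, .r))
    have h0 : ¬ (l : ℕ) = 0 := by omega
    simp only [gt, if_neg h0] at h1
    rw [h1, Bool.or_eq_true, val_n hm e y E hv c l, ih ⟨(l : ℕ) - 1, by have := l.2; omega⟩
      (by simp only; omega)]
    constructor
    · rintro (⟨l', h2, h3⟩ | h)
      · exact ⟨l', by omega, h3⟩
      · exact ⟨l, by omega, h⟩
    · rintro ⟨l', h2, h3⟩
      rcases Nat.lt_or_ge (l' : ℕ) (t + 1) with h4 | h4
      · exact Or.inl ⟨l', by omega, h3⟩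
      · have : l' = l := Fin.ext (by omega)
        rw [← this]; exact Or.inr h3

private theorem val_last {V Q : Type} {m h : ℕ} (hm : 1 ≤ m) (e : Fin m → V)
    (y : (Fin h → Bool) → Fin m → Q) (E : Fin (2 ^ h) → (Fin h → Bool)) {x : V → Bool}
    {w : Q → Bool} {val : PT m h → Bool} (hv : MEval (gt hm e y E) x w val)
    (c : Fin h → Bool) (hlast : m - 1 < m) :
    val (.inl (c, ⟨m - 1, hlast⟩, .r)) = true ↔ ∃ l' : Fin m, x (e l') ≠ w (y c l') := by
  rw [val_r hm e y E hv c (m - 1) ⟨m - 1, hlast⟩ rfl]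
  constructor
  · rintro ⟨l', _, h3⟩
    exact ⟨l', h3⟩
  · rintro ⟨l', h3⟩
    exact ⟨l', by have := l'.2; omega, h3⟩

private theorem val_s {V Q : Type} {m h : ℕ} (hm : 1 ≤ m) (e : Fin m → V)
    (y : (Fin h → Bool) → Fin m → Q) (E : Fin (2 ^ h) → (Fin h → Bool)) {x : V → Bool}
    {w : Q → Bool} {val : PT m h → Bool} (hv : MEval (gt hm e y E) x w val)
    (t : ℕ) : ∀ k : Fin (2 ^ h), (k : ℕ) = t →
    (val (.inr k) = true ↔ ∀ k' : Fin (2 ^ h), (k' : ℕ) ≤ t →
      ∃ l' : Fin m, x (e l') ≠ w (y (E k') l')) := by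
  induction t with
  | zero =>
    intro k hk
    have h1 := hv (.inr k)
    simp only [gt, if_pos hk] at h1
    rw [h1, Bool.and_self, val_last hm e y E hv]
    constructor
    · intro h k' hk'
      have : k' = k := Fin.ext (by omega)
      rw [this]; exact h
    · intro h
      exact h k (by omega)
  | succ t ih =>
    intro k hk
    have h1 := hv (.inr k)
    have h0 : ¬ (k : ℕ) = 0 := by omega
    simp only [gt, if_neg h0] at h1
    rw [h1, Bool.and_eq_true, val_last hm e y E hv, ih ⟨(k : ℕ) - 1, by have := k.2; omega⟩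
      (by simp only; omega)]
    constructor
    · rintro ⟨h2, h3⟩ k' hk'
      rcases Nat.lt_or_ge (k' : ℕ) (t + 1) with h4 | h4
      · exact h2 k' (by omega)
      · have : k' = k := Fin.ext (by omega)
        rw [this]; exact h3
    · intro h
      exact ⟨fun k' hk' => h k' (by omega), h k (by omega)⟩

private theorem tree_n {V Q : Type} {m h : ℕ} (hm : 1 ≤ m) (e : Fin m → V)
    (y : (Fin h → Bool) → Fin m → Q) (E : Fin (2 ^ h) → (Fin h → Bool))
    (c : Fin h → Bool) (l : Fin m) (L : List V)
    (hT : MTree (gt hm e y E) (.inl (c, l, .n)) L) : L = [e l] := by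
  rcases inv_and hT (i := .inl (c, l, .o1)) (j := .inl (c, l, .o0)) rfl with h | h
  · obtain ⟨L1, L2, h1, h2, h3⟩ := inv_or h (i := .inl (c, l, .a1)) (j := .inl (c, l, .y1)) rfl
    have h4 := inv_lit h2 (v := e l) (b := true) rfl
    have h5 := inv_free h3 (q := y c l) (b := true) rfl
    rw [h1, h4, h5]
    rfl
  · obtain ⟨L1, L2, h1, h2, h3⟩ := inv_or h (i := .inl (c, l, .a0)) (j := .inl (c, l, .y0)) rfl
    have h4 := inv_lit h2 (v := e l) (b := false) rfl
    have h5 := inv_free h3 (q := y c l) (b := false) rfl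
    rw [h1, h4, h5]
    rfl

private theorem tree_r {V Q : Type} [DecidableEq V] {m h : ℕ} (hm : 1 ≤ m) (e : Fin m → V)
    (he : Function.Injective e)
    (y : (Fin h → Bool) → Fin m → Q) (E : Fin (2 ^ h) → (Fin h → Bool))
    (c : Fin h → Bool) (t : ℕ) : ∀ l : Fin m, (l : ℕ) = t → ∀ L : List V,
    MTree (gt hm e y E) (.inl (c, l, .r)) L → ∀ l' : Fin m,
      (L.filter fun v => v = e l').length ≤ if (l' : ℕ) ≤ t then 1 else 0 := by
  have one : ∀ l l' : Fin m, ([e l].filter fun v => v = e l').length =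
      if (l : ℕ) = l' then 1 else 0 := by
    intro l l'
    by_cases hll : l = l'
    · simp [hll]
    · have h1 : ¬ (l : ℕ) = l' := fun h => hll (Fin.ext h)
      have h2 : ¬ e l = e l' := fun h => hll (he h)
      simp [h1, h2]
  induction t with
  | zero =>
    intro l hl L hT l'
    have hg : gt hm e y E (.inl (c, l, .r)) = .and (.inl (c, l, .n)) (.inl (c, l, .n)) := by
      simp only [gt, if_pos hl]
    have hL : L = [e l] := by
      rcases inv_and hT hg with h | h
      · exact tree_n hm e y E c l L h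
      · exact tree_n hm e y E c l L h
    rw [hL, one]
    split_ifs <;> omega
  | succ t ih =>
    intro l hl L hT l'
    have h0 : ¬ (l : ℕ) = 0 := by omega
    have hg : gt hm e y E (.inl (c, l, .r)) =
        .or (.inl (c, ⟨(l : ℕ) - 1, by have := l.2; omega⟩, .r)) (.inl (c, l, .n)) := by
      simp only [gt, if_neg h0]
    obtain ⟨L1, L2, h1, h2, h3⟩ := inv_or hT hg
    have h4 := ih ⟨(l : ℕ) - 1, by have := l.2; omega⟩ (by simp only; omega) L1 h2 l'
    have h5 := tree_n hm e y E c l L2 h3
    rw [h1, List.filter_append, List.length_append, h5, one]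
    split_ifs at h4 ⊢ <;> omega

private theorem tree_s {V Q : Type} {m h : ℕ} (hm : 1 ≤ m) (e : Fin m → V)
    (y : (Fin h → Bool) → Fin m → Q) (E : Fin (2 ^ h) → (Fin h → Bool))
    (t : ℕ) : ∀ k : Fin (2 ^ h), (k : ℕ) = t → ∀ L : List V,
    MTree (gt hm e y E) (.inr k) L →
      ∃ c, MTree (gt hm e y E) (.inl (c, ⟨m - 1, by omega⟩, .r)) L := by
  induction t with
  | zero =>
    intro k hk L hT
    have hg : gt hm e y E (.inr k) = .and (.inl (E k, ⟨m - 1, by omega⟩, .r))
        (.inl (E k, ⟨m - 1, by omega⟩, .r)) := by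
      simp only [gt, if_pos hk]
    rcases inv_and hT hg with h | h
    · exact ⟨_, h⟩
    · exact ⟨_, h⟩
  | succ t ih =>
    intro k hk L hT
    have h0 : ¬ (k : ℕ) = 0 := by omega
    have hg : gt hm e y E (.inr k) = .and (.inr ⟨(k : ℕ) - 1, by have := k.2; omega⟩)
        (.inl (E k, ⟨m - 1, by omega⟩, .r)) := by
      simp only [gt, if_neg h0]
    rcases inv_and hT hg with h | h
    · exact ih ⟨(k : ℕ) - 1, by have := k.2; omega⟩ (by simp only; omega) L h
    · exact ⟨_, h⟩

theorem part1 {V Q : Type} [DecidableEq V] {m h : ℕ} (hm : 1 ≤ m) (e : Fin m → V)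
    (he : Function.Injective e) (y : (Fin h → Bool) → Fin m → Q) :
    ∃ (P : Type) (_ : Fintype P) (gate : P → MGate V Q P) (rank : P → ℕ) (out : P),
      MRanked gate rank ∧ Fintype.card P ≤ 2 ^ h * (20 * (m + 1)) ∧
      (∀ x w val, MEval gate x w val →
        (val out = true ↔ ∀ c : Fin h → Bool, ∃ l, x (e l) ≠ w (y c l))) ∧
      ∀ l L, MTree gate out L → (L.filter fun v => v = e l).length ≤ 1 := by
  have hpos : 0 < 2 ^ h := Nat.two_pow_pos h
  have hcard : Fintype.card (Fin h → Bool) = 2 ^ h := by simp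
  obtain ⟨E⟩ : Nonempty (Fin (2 ^ h) ≃ (Fin h → Bool)) :=
    ⟨(Fintype.equivFinOfCardEq hcard).symm⟩
  refine ⟨PT m h, inferInstance, gt hm e y E, rkP, .inr ⟨2 ^ h - 1, by omega⟩,
    gt_ranked hm e y E, ?_, ?_, ?_⟩
  · have hK : Fintype.card K = 8 := rfl
    rw [Fintype.card_sum, Fintype.card_prod, Fintype.card_prod, hcard, Fintype.card_fin,
      Fintype.card_fin, hK]
    nlinarith [hpos]
  · intro x w val hv
    rw [val_s hm e y E hv (2 ^ h - 1) ⟨2 ^ h - 1, by omega⟩ rfl]
    constructor
    · intro h1 c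
      have h2 := h1 (E.symm c) (by have := (E.symm c).2; omega)
      rwa [Equiv.apply_symm_apply] at h2
    · intro h1 k' _
      exact h1 (E k')
  · intro l L hT
    obtain ⟨c, hc⟩ := tree_s hm e y E (2 ^ h - 1) ⟨2 ^ h - 1, by omega⟩ rfl L hT
    have h1 := tree_r hm e he y E c (m - 1) ⟨m - 1, by omega⟩ rfl L hc l
    split_ifs at h1 <;> omega

end Pool.Agent.MV
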