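import Mathlib
import Pool.Agent.Lib.MP_b573ec_lc_MV.Defs

/-!
# Matrix times vector: the part with the solutions as the solutions of few equations

The circuit reads the `x l` in order and remembers the sum `σ : Fin h → Bool` of the columns `H · l`
with `x l = 1`: `F l σ = (x l ∨ F (l + 1) σ) ∧ (¬ x l ∨ F (l + 1) (σ + column l))`; the addition of
the column takes `h` steps, the step `j` replaces `F' σ` by
`(H j l ∨ F' σ) ∧ (¬ H j l ∨ F' (σ with bit j changed))`; `F m σ` is the OR over `j` of `σ j ≠ β j`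
(a gate with the value `false` if `h = 0`: `q₀ ∧ ¬ q₀`).
-/

set_option autoImplicit false

namespace Pool.Agent.MV

open Finset

/-- The gates: a state, a position `(l, j)` and one of five gates at this position. -/
abbrev M2P (m h : ℕ) : Type := (Fin h → Bool) × Fin (m + 1) × Fin (h + 1) × Fin 5

/-- the state with the bit `j` changed -/
def m2flip {h : ℕ} (σ : Fin h → Bool) (j : ℕ) : Fin h → Bool := fun i =>
  if (i : ℕ) = j then !σ i else σ i

/-- the next position -/
def m2nx {m h : ℕ} (l : Fin (m + 1)) (j : Fin (h + 1)) : Fin (m + 1) × Fin (h + 1) :=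
  if (j : ℕ) < h then (l, Fin.ofNat (h + 1) (j + 1)) else (Fin.ofNat (m + 1) (l + 1), 0)

/-- the main gate at a position -/
def m2at {m h : ℕ} (σ : Fin h → Bool) (p : Fin (m + 1) × Fin (h + 1)) : M2P m h :=
  (σ, p.1, p.2, 0)

/-- the gates -/
def m2gate {V Q : Type} {m h : ℕ} (e : Fin m → V) (H : Fin h → Fin m → Q) (β : Fin h → Q) (q₀ : Q) :
    M2P m h → MGate V Q (M2P m h) := fun p =>
  if hl : (p.2.1 : ℕ) < m then
    if hj : (p.2.2.1 : ℕ) = 0 then
      if p.2.2.2 = 0 then .and (p.1, p.2.1, p.2.2.1, 1) (p.1, p.2.1, p.2.2.1, 2)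
      else if p.2.2.2 = 1 then .or (p.1, p.2.1, p.2.2.1, 3)
        (m2at p.1 (Fin.ofNat (m + 1) (p.2.1 + 1), 0))
      else if p.2.2.2 = 2 then .or (p.1, p.2.1, p.2.2.1, 4) (m2at p.1 (m2nx p.2.1 p.2.2.1))
      else if p.2.2.2 = 3 then .lit (e ⟨p.2.1, hl⟩) true
      else .lit (e ⟨p.2.1, hl⟩) false
    else
      if p.2.2.2 = 0 then .and (p.1, p.2.1, p.2.2.1, 1) (p.1, p.2.1, p.2.2.1, 2)
      else if p.2.2.2 = 1 then .or (p.1, p.2.1, p.2.2.1, 3) (m2at p.1 (m2nx p.2.1 p.2.2.1))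
      else if p.2.2.2 = 2 then .or (p.1, p.2.1, p.2.2.1, 4)
        (m2at (m2flip p.1 (p.2.2.1 - 1)) (m2nx p.2.1 p.2.2.1))
      else if p.2.2.2 = 3 then .free (H ⟨p.2.2.1 - 1, by have := p.2.2.1.2; omega⟩ ⟨p.2.1, hl⟩) true
      else .free (H ⟨p.2.2.1 - 1, by have := p.2.2.1.2; omega⟩ ⟨p.2.1, hl⟩) false
  else
    if hj : (p.2.2.1 : ℕ) < h then
      if p.2.2.2 = 0 then .or (p.1, p.2.1, p.2.2.1, 3)
        (m2at p.1 (p.2.1, Fin.ofNat (h + 1) (p.2.2.1 + 1)))
      else .free (β ⟨p.2.2.1, hj⟩) (!p.1 ⟨p.2.2.1, hj⟩)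
    else
      if p.2.2.2 = 0 then .and (p.1, p.2.1, p.2.2.1, 3) (p.1, p.2.1, p.2.2.1, 4)
      else if p.2.2.2 = 3 then .free q₀ true
      else .free q₀ false

/-- the rank of a gate -/
def m2rank {m h : ℕ} (p : M2P m h) : ℕ :=
  3 * ((m + 1) * (h + 1) - ((p.2.1 : ℕ) * (h + 1) + p.2.2.1)) +
    (if p.2.2.2 = 0 then 2 else if p.2.2.2 = 1 ∨ p.2.2.2 = 2 then 1 else 0)

/-- bound for the number of leaves at `e l₀` -/
def m2bd {m h : ℕ} (l₀ : ℕ) (p : M2P m h) : ℕ :=
  if p.2.2.2 = 3 ∨ p.2.2.2 = 4 then (if (p.2.1 : ℕ) = l₀ ∧ (p.2.2.1 : ℕ) = 0 then 1 else 0)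
  else (if (p.2.1 : ℕ) + (if (p.2.2.1 : ℕ) = 0 then 0 else 1) ≤ l₀ then 1 else 0)

theorem ofNat_val {k a : ℕ} (h : a ≤ k) : ((Fin.ofNat (k + 1) a : Fin (k + 1)) : ℕ) = a := by
  rw [Fin.val_ofNat]
  exact Nat.mod_eq_of_lt (by omega)

/-- the main gate after the position `(l, j)` -/
theorem m2nx_fst {m h : ℕ} {l : Fin (m + 1)} (hl : (l : ℕ) < m) (j : Fin (h + 1)) :
    ((m2nx l j).1 : ℕ) = if (j : ℕ) < h then (l : ℕ) else l + 1 := by
  unfold m2nx
  split_ifs
  · rfl
  · exact ofNat_val (by omega)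

theorem m2nx_snd {m h : ℕ} (l : Fin (m + 1)) (j : Fin (h + 1)) :
    ((m2nx l j).2 : ℕ) = if (j : ℕ) < h then (j : ℕ) + 1 else 0 := by
  unfold m2nx
  split_ifs
  · exact ofNat_val (by omega)
  · rfl

theorem m2pos_lt {m h l j l' j' : ℕ} (hl : l ≤ m) (hj : j ≤ h) (hlt : l * (h + 1) + j <
    l' * (h + 1) + j') {a b : ℕ} (ha : a ≤ 2) :
    3 * ((m + 1) * (h + 1) - (l' * (h + 1) + j')) + a <
      3 * ((m + 1) * (h + 1) - (l * (h + 1) + j)) + b := by
  have h1 : l * (h + 1) + j < (m + 1) * (h + 1) := by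
    have h2 : l * (h + 1) ≤ m * (h + 1) := Nat.mul_le_mul_right _ hl
    have h3 : (m + 1) * (h + 1) = m * (h + 1) + (h + 1) := by ring
    omega
  omega

theorem m2rank_next {m h : ℕ} {l : Fin (m + 1)} (hl : (l : ℕ) < m) (j : Fin (h + 1))
    (σ σ' : Fin h → Bool) (c : Fin 5) : m2rank (m2at σ' (m2nx l j)) < m2rank (σ, l, j, c) := by
  unfold m2rank m2at
  refine m2pos_lt (by omega) (by omega) ?_ (by simp)
  dsimp only
  rw [m2nx_fst hl, m2nx_snd]
  have hj := j.2
  split_ifs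
  · omega
  · have h3 : ((l : ℕ) + 1) * (h + 1) = l * (h + 1) + (h + 1) := by ring
    omega

theorem m2rank_var {m h : ℕ} {l : Fin (m + 1)} (hl : (l : ℕ) < m) {j : Fin (h + 1)}
    (hj : (j : ℕ) = 0) (σ σ' : Fin h → Bool) (c : Fin 5) :
    m2rank (m2at σ' (Fin.ofNat (m + 1) (l + 1), (0 : Fin (h + 1)))) < m2rank (σ, l, j, c) := by
  unfold m2rank m2at
  refine m2pos_lt (by omega) (by omega) ?_ (by simp)
  dsimp only
  rw [ofNat_val (by omega), hj]
  have h3 : ((l : ℕ) + 1) * (h + 1) = l * (h + 1) + (h + 1) := by ring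
  have h4 : ((0 : Fin (h + 1)) : ℕ) = 0 := rfl
  omega

theorem m2rank_end {m h : ℕ} (l : Fin (m + 1)) {j : Fin (h + 1)}
    (hj : (j : ℕ) < h) (σ σ' : Fin h → Bool) (c : Fin 5) :
    m2rank (m2at σ' (l, Fin.ofNat (h + 1) (j + 1))) < m2rank (σ, l, j, c) := by
  unfold m2rank m2at
  refine m2pos_lt (by omega) (by omega) ?_ (by simp)
  dsimp only
  rw [ofNat_val (by omega)]
  omega

section

variable {V Q : Type} {m h : ℕ} (e : Fin m → V) (H : Fin h → Fin m → Q) (β : Fin h → Q) (q₀ : Q)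

theorem m2_ranked : MRanked (m2gate e H β q₀) m2rank := by
  rintro ⟨σ, l, j, c⟩ i k hg
  have hj := j.2
  have hl' := l.2
  unfold m2gate at hg
  dsimp only at hg
  split_ifs at hg with h1 h2 h3 h4 h5 h6 h3 h4 h5 h6 h2 h3 h3 h4 <;>
    simp only [MGate.and.injEq, MGate.or.injEq, or_false, false_or] at hg <;>
    obtain ⟨rfl, rfl⟩ := hg
  · subst h3
    constructor <;> (unfold m2rank; dsimp only; norm_num [Fin.ext_iff])
  · subst h4
    refine ⟨?_, m2rank_var h1 h2 _ _ _⟩
    unfold m2rank; dsimp only; norm_num [Fin.ext_iff]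
  · subst h5
    refine ⟨?_, m2rank_next h1 _ _ _ _⟩
    unfold m2rank; dsimp only; norm_num [Fin.ext_iff]
  · subst h3
    constructor <;> (unfold m2rank; dsimp only; norm_num [Fin.ext_iff])
  · subst h4
    refine ⟨?_, m2rank_next h1 _ _ _ _⟩
    unfold m2rank; dsimp only; norm_num [Fin.ext_iff]
  · subst h5
    refine ⟨?_, m2rank_next h1 _ _ _ _⟩
    unfold m2rank; dsimp only; norm_num [Fin.ext_iff]
  · subst h3
    refine ⟨?_, m2rank_end _ h2 _ _ _⟩
    unfold m2rank; dsimp only; norm_num [Fin.ext_iff]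
  · subst h3
    constructor <;> (unfold m2rank; dsimp only; norm_num [Fin.ext_iff])

theorem m2bd_main (l₀ : ℕ) (σ : Fin h → Bool) (l : Fin (m + 1)) (j : Fin (h + 1)) {c : Fin 5}
    (hc : ¬ (c = 3 ∨ c = 4)) : m2bd l₀ (σ, l, j, c) =
      if (l : ℕ) + (if (j : ℕ) = 0 then 0 else 1) ≤ l₀ then 1 else 0 := by
  unfold m2bd
  rw [if_neg hc]

theorem m2bd_leaf (l₀ : ℕ) (σ : Fin h → Bool) (l : Fin (m + 1)) (j : Fin (h + 1)) {c : Fin 5}
    (hc : c = 3 ∨ c = 4) : m2bd l₀ (σ, l, j, c) =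
      if (l : ℕ) = l₀ ∧ (j : ℕ) = 0 then 1 else 0 := by
  unfold m2bd
  rw [if_pos hc]

theorem m2bd_next {l : Fin (m + 1)} (hl : (l : ℕ) < m) (j : Fin (h + 1)) (l₀ : ℕ)
    (σ : Fin h → Bool) : m2bd l₀ (m2at σ (m2nx l j)) ≤ if (l : ℕ) + 1 ≤ l₀ then 1 else 0 := by
  unfold m2at
  rw [m2bd_main _ _ _ _ (by decide), m2nx_fst hl, m2nx_snd]
  by_cases hjh : (j : ℕ) < h
  · rw [if_pos hjh, if_pos hjh, if_neg (Nat.succ_ne_zero _)]
  · rw [if_neg hjh, if_neg hjh, if_pos rfl, Nat.add_zero]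

theorem m2bd_var {l : Fin (m + 1)} (hl : (l : ℕ) < m) (l₀ : ℕ) (σ : Fin h → Bool) :
    m2bd l₀ (m2at σ (Fin.ofNat (m + 1) (l + 1), (0 : Fin (h + 1)))) ≤
      if (l : ℕ) + 1 ≤ l₀ then 1 else 0 := by
  unfold m2at
  rw [m2bd_main _ _ _ _ (by decide)]
  dsimp only
  rw [ofNat_val (by omega)]
  have h4 : ((0 : Fin (h + 1)) : ℕ) = 0 := rfl
  split_ifs <;> omega

theorem m2_lit (he : Function.Injective e) (l₀ : Fin m) {g : M2P m h} {v : V} {b : Bool}
    (hg : m2gate e H β q₀ g = .lit v b) (hv : v = e l₀) : 1 ≤ m2bd l₀ g := by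
  obtain ⟨σ, l, j, c⟩ := g
  have hj := j.2
  have hl' := l.2
  unfold m2gate at hg
  dsimp only at hg
  split_ifs at hg with h1 h2 h3 h4 h5 h6 h3 h4 h5 h6 h2 h3 h3 h4 <;>
    simp only [MGate.lit.injEq] at hg <;> obtain ⟨h7, rfl⟩ := hg
  · rw [hv] at h7
    have h8 := congrArg Fin.val (he h7)
    dsimp only at h8
    rw [m2bd_leaf _ _ _ _ (Or.inl h6), if_pos ⟨h8, h2⟩]
  · rw [hv] at h7
    have h8 := congrArg Fin.val (he h7)
    dsimp only at h8
    have h9 : c = 4 := by
      revert h3 h4 h5 h6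
      revert c
      decide
    rw [m2bd_leaf _ _ _ _ (Or.inr h9), if_pos ⟨h8, h2⟩]

theorem m2_and (l₀ : Fin m) {g i k : M2P m h} (hg : m2gate e H β q₀ g = .and i k) :
    m2bd l₀ i ≤ m2bd l₀ g ∧ m2bd l₀ k ≤ m2bd l₀ g := by
  obtain ⟨σ, l, j, c⟩ := g
  have hj := j.2
  have hl' := l.2
  have hl0 := l₀.2
  unfold m2gate at hg
  dsimp only at hg
  split_ifs at hg with h1 h2 h3 h4 h5 h6 h3 h4 h5 h6 h2 h3 h3 h4 <;>
    simp only [MGate.and.injEq] at hg <;> obtain ⟨rfl, rfl⟩ := hg <;> subst h3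
  · rw [m2bd_main _ _ _ _ (by decide), m2bd_main _ _ _ _ (by decide),
      m2bd_main _ _ _ _ (by decide)]
    exact ⟨le_rfl, le_rfl⟩
  · rw [m2bd_main _ _ _ _ (by decide), m2bd_main _ _ _ _ (by decide),
      m2bd_main _ _ _ _ (by decide)]
    exact ⟨le_rfl, le_rfl⟩
  · rw [m2bd_leaf (c := 3) _ _ _ _ (by decide), m2bd_leaf (c := 4) _ _ _ _ (by decide),
      m2bd_main (c := 0) _ _ _ _ (by decide)]
    split_ifs <;> omega

theorem m2_or (l₀ : Fin m) {g i k : M2P m h} (hg : m2gate e H β q₀ g = .or i k) :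
    m2bd l₀ i + m2bd l₀ k ≤ m2bd l₀ g := by
  obtain ⟨σ, l, j, c⟩ := g
  have hj := j.2
  have hl' := l.2
  have hl0 := l₀.2
  unfold m2gate at hg
  dsimp only at hg
  split_ifs at hg with h1 h2 h3 h4 h5 h6 h3 h4 h5 h6 h2 h3 h3 h4 <;>
    simp only [MGate.or.injEq] at hg <;> obtain ⟨rfl, rfl⟩ := hg
  · subst h4
    refine (Nat.add_le_add_left (m2bd_var h1 _ _) _).trans ?_
    rw [m2bd_leaf _ _ _ _ (by decide), m2bd_main _ _ _ _ (by decide)]
    split_ifs <;> omega
  · subst h5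
    refine (Nat.add_le_add_left (m2bd_next h1 _ _ _) _).trans ?_
    rw [m2bd_leaf _ _ _ _ (by decide), m2bd_main _ _ _ _ (by decide)]
    split_ifs <;> omega
  · subst h4
    refine (Nat.add_le_add_left (m2bd_next h1 _ _ _) _).trans ?_
    rw [m2bd_leaf _ _ _ _ (by decide), m2bd_main _ _ _ _ (by decide)]
    split_ifs <;> omega
  · subst h5
    refine (Nat.add_le_add_left (m2bd_next h1 _ _ _) _).trans ?_
    rw [m2bd_leaf _ _ _ _ (by decide), m2bd_main _ _ _ _ (by decide)]
    split_ifs <;> omega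
  · subst h3
    unfold m2at
    rw [m2bd_leaf _ _ _ _ (by decide), m2bd_main _ _ _ _ (by decide),
      m2bd_main _ _ _ _ (by decide)]
    dsimp only
    rw [ofNat_val (by omega)]
    split_ifs <;> omega

open Classical in
theorem m2_tree [DecidableEq V] (he : Function.Injective e) (l₀ : Fin m) {g : M2P m h}
    {L : List V} (hL : MTree (m2gate e H β q₀) g L) :
    (L.filter fun v => v = e l₀).length ≤ m2bd l₀ g := by
  induction hL with
  | lit g v b hg =>
    by_cases hv : v = e l₀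
    · rw [List.filter_cons_of_pos (by simpa using hv)]
      exact m2_lit e H β q₀ he l₀ hg hv
    · rw [List.filter_cons_of_neg (by simpa using hv)]
      exact Nat.zero_le _
  | free g q b hg => exact Nat.zero_le _
  | left g i j L hg _ ih => exact ih.trans (m2_and e H β q₀ l₀ hg).1
  | right g i j L hg _ ih => exact ih.trans (m2_and e H β q₀ l₀ hg).2
  | both g i j L L' hg _ _ ih ih' =>
    rw [List.filter_append, List.length_append]
    exact (Nat.add_le_add ih ih').trans (m2_or e H β q₀ l₀ hg)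

variable {x : V → Bool} {w : Q → Bool} {val : M2P m h → Bool}
  (hval : MEval (m2gate e H β q₀) x w val)

include hval

/-- the values at the positions `(m, j)` -/
theorem m2_end (σ : Fin h → Bool) {l : Fin (m + 1)} (hl : ¬ (l : ℕ) < m) (k : ℕ) :
    ∀ j : Fin (h + 1), (j : ℕ) + k = h → (val (m2at σ (l, j)) = true ↔
      ∃ i : Fin h, (j : ℕ) ≤ i ∧ σ i ≠ w (β i)) := by
  induction k with
  | zero =>
    intro j hj
    have hj' : ¬ (j : ℕ) < h := by omega
    have h0 := hval (σ, l, j, 0)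
    have h3 := hval (σ, l, j, 3)
    have h4 := hval (σ, l, j, 4)
    unfold m2gate at h0 h3 h4
    dsimp only at h0 h3 h4
    rw [dif_neg hl, dif_neg hj', if_pos rfl] at h0
    rw [dif_neg hl, dif_neg hj', if_neg (by decide), if_pos rfl] at h3
    rw [dif_neg hl, dif_neg hj', if_neg (by decide), if_neg (by decide)] at h4
    dsimp only at h0 h3 h4
    unfold m2at
    rw [h0, h3, h4]
    constructor
    · intro h5
      exfalso
      revert h5
      cases w q₀ <;> simp
    · rintro ⟨i, hi, -⟩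
      have := i.2
      omega
  | succ k ih =>
    intro j hj
    have hj' : (j : ℕ) < h := by omega
    have h0 := hval (σ, l, j, 0)
    have h3 := hval (σ, l, j, 3)
    unfold m2gate at h0 h3
    dsimp only at h0 h3
    rw [dif_neg hl, dif_pos hj', if_pos rfl] at h0
    rw [dif_neg hl, dif_pos hj', if_neg (by decide)] at h3
    dsimp only at h0 h3
    have h5 : ((Fin.ofNat (h + 1) (j + 1) : Fin (h + 1)) : ℕ) = j + 1 := ofNat_val (by omega)
    have h6 := ih (Fin.ofNat (h + 1) (j + 1)) (by omega)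
    rw [h5] at h6
    unfold m2at at h6 h0 ⊢
    rw [h0, h3, Bool.or_eq_true, h6]
    constructor
    · rintro (h7 | ⟨i, hi, h7⟩)
      · refine ⟨⟨j, hj'⟩, le_rfl, ?_⟩
        intro h8
        rw [h8] at h7
        revert h7
        cases w (β ⟨j, hj'⟩) <;> decide
      · exact ⟨i, by omega, h7⟩
    · rintro ⟨i, hi, h7⟩
      rcases Nat.eq_or_lt_of_le hi with h8 | h8
      · left
        have h9 : (⟨j, hj'⟩ : Fin h) = i := Fin.ext h8
        rw [h9]
        revert h7
        cases w (β i) <;> cases σ i <;> decide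
      · exact Or.inr ⟨i, h8, h7⟩

/-- the value at `(l, 0)` -/
theorem m2_var (σ : Fin h → Bool) {l : Fin (m + 1)} (hl : (l : ℕ) < m) {j : Fin (h + 1)}
    (hj : (j : ℕ) = 0) : val (m2at σ (l, j)) = if x (e ⟨l, hl⟩) = true then
      val (m2at σ (m2nx l j)) else val (m2at σ (Fin.ofNat (m + 1) (l + 1), 0)) := by
  have h0 := hval (σ, l, j, 0)
  have h1 := hval (σ, l, j, 1)
  have h2 := hval (σ, l, j, 2)
  have h3 := hval (σ, l, j, 3)
  have h4 := hval (σ, l, j, 4)
  unfold m2gate at h0 h1 h2 h3 h4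
  dsimp only at h0 h1 h2 h3 h4
  rw [dif_pos hl, dif_pos hj, if_pos rfl] at h0
  rw [dif_pos hl, dif_pos hj, if_neg (by decide), if_pos rfl] at h1
  rw [dif_pos hl, dif_pos hj, if_neg (by decide), if_neg (by decide), if_pos rfl] at h2
  rw [dif_pos hl, dif_pos hj, if_neg (by decide), if_neg (by decide), if_neg (by decide),
    if_pos rfl] at h3
  rw [dif_pos hl, dif_pos hj, if_neg (by decide), if_neg (by decide), if_neg (by decide),
    if_neg (by decide)] at h4
  dsimp only at h0 h1 h2 h3 h4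
  change val (σ, l, j, 0) = _
  rw [h0, h1, h2, h3, h4]
  cases x (e ⟨l, hl⟩) <;> simp

/-- the value at `(l, j)`, `j ≥ 1` -/
theorem m2_bit (σ : Fin h → Bool) {l : Fin (m + 1)} (hl : (l : ℕ) < m) {j : Fin (h + 1)}
    (hj : ¬ (j : ℕ) = 0) : val (m2at σ (l, j)) =
      if w (H ⟨j - 1, by have := j.2; omega⟩ ⟨l, hl⟩) = true then
      val (m2at (m2flip σ (j - 1)) (m2nx l j)) else val (m2at σ (m2nx l j)) := by
  have h0 := hval (σ, l, j, 0)
  have h1 := hval (σ, l, j, 1)
  have h2 := hval (σ, l, j, 2)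
  have h3 := hval (σ, l, j, 3)
  have h4 := hval (σ, l, j, 4)
  unfold m2gate at h0 h1 h2 h3 h4
  dsimp only at h0 h1 h2 h3 h4
  rw [dif_pos hl, dif_neg hj, if_pos rfl] at h0
  rw [dif_pos hl, dif_neg hj, if_neg (by decide), if_pos rfl] at h1
  rw [dif_pos hl, dif_neg hj, if_neg (by decide), if_neg (by decide), if_pos rfl] at h2
  rw [dif_pos hl, dif_neg hj, if_neg (by decide), if_neg (by decide), if_neg (by decide),
    if_pos rfl] at h3
  rw [dif_pos hl, dif_neg hj, if_neg (by decide), if_neg (by decide), if_neg (by decide),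
    if_neg (by decide)] at h4
  dsimp only at h0 h1 h2 h3 h4
  change val (σ, l, j, 0) = _
  rw [h0, h1, h2, h3, h4]
  cases w (H ⟨j - 1, by have := j.2; omega⟩ ⟨l, hl⟩) <;> simp

omit hval in
/-- the addition of the bits `i ≥ j - 1` of the column `l` -/
def m2add (w : Q → Bool) (l : Fin m) (j : ℕ) (σ : Fin h → Bool) : Fin h → Bool := fun i =>
  if j ≤ (i : ℕ) + 1 then xor (σ i) (w (H i l)) else σ i

theorem m2_col {l : Fin (m + 1)} (hl : (l : ℕ) < m) (k : ℕ) :
    ∀ j : Fin (h + 1), (j : ℕ) + k = h → ¬ (j : ℕ) = 0 → ∀ σ : Fin h → Bool,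
      val (m2at σ (l, j)) =
        val (m2at (m2add H w ⟨l, hl⟩ j σ) (Fin.ofNat (m + 1) (l + 1), 0)) := by
  induction k with
  | zero =>
    intro j hj hj0 σ
    have hj2 : ¬ (j : ℕ) < h := by omega
    have hnx : m2nx l j = (Fin.ofNat (m + 1) (l + 1), (0 : Fin (h + 1))) := by
      unfold m2nx
      rw [if_neg hj2]
    rw [m2_bit e H β q₀ hval σ hl hj0, hnx]
    have h5 : ∀ i : Fin h, (j : ℕ) ≤ (i : ℕ) + 1 → i = ⟨j - 1, by have := j.2; omega⟩ := by
      intro i hi
      apply Fin.ext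
      have := i.2
      dsimp only
      omega
    by_cases hw : w (H ⟨j - 1, by have := j.2; omega⟩ ⟨l, hl⟩) = true
    · rw [if_pos hw]
      congr 2
      funext i
      unfold m2flip m2add
      by_cases hi : (j : ℕ) ≤ (i : ℕ) + 1
      · have h6 := h5 i hi
        rw [if_pos hi, if_pos (by have := congrArg Fin.val h6; exact this), h6, hw, Bool.xor_true]
      · rw [if_neg hi, if_neg (by omega)]
    · rw [if_neg hw]
      congr 2
      funext i
      unfold m2add
      by_cases hi : (j : ℕ) ≤ (i : ℕ) + 1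
      · have h6 := h5 i hi
        rw [if_pos hi, h6, Bool.not_eq_true _ |>.mp hw, Bool.xor_false]
      · rw [if_neg hi]
  | succ k ih =>
    intro j hj hj0 σ
    have hj2 : (j : ℕ) < h := by omega
    have h5 : ((Fin.ofNat (h + 1) (j + 1) : Fin (h + 1)) : ℕ) = j + 1 := ofNat_val (by omega)
    have hnx : m2nx l j = (l, Fin.ofNat (h + 1) (j + 1)) := by
      unfold m2nx
      rw [if_pos hj2]
    rw [m2_bit e H β q₀ hval σ hl hj0, hnx, ih _ (by omega) (by omega), ih _ (by omega) (by omega),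
      h5]
    by_cases hw : w (H ⟨j - 1, by have := j.2; omega⟩ ⟨l, hl⟩) = true
    · rw [if_pos hw]
      congr 2
      funext i
      unfold m2flip m2add
      dsimp only
      by_cases hi : (j : ℕ) + 1 ≤ (i : ℕ) + 1
      · rw [if_pos hi, if_neg (show ¬ (i : ℕ) = j - 1 by omega),
          if_pos (show (j : ℕ) ≤ i + 1 by omega)]
      · rw [if_neg hi]
        by_cases hi' : (i : ℕ) = j - 1
        · have h6 : i = ⟨j - 1, by have := j.2; omega⟩ := Fin.ext hi'
          rw [if_pos hi', if_pos (by omega), h6, hw, Bool.xor_true]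
        · rw [if_neg hi', if_neg (by omega)]
    · rw [if_neg hw]
      congr 2
      funext i
      unfold m2add
      by_cases hi : (j : ℕ) + 1 ≤ (i : ℕ) + 1
      · rw [if_pos hi, if_pos (by omega)]
      · rw [if_neg hi]
        by_cases hi' : (i : ℕ) = j - 1
        · have h6 : i = ⟨j - 1, by have := j.2; omega⟩ := Fin.ext hi'
          rw [if_pos (by omega), h6, Bool.not_eq_true _ |>.mp hw, Bool.xor_false]
        · rw [if_neg (by omega)]

/-- the value at `(l, 0)` in terms of the values at `(l + 1, 0)` -/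
theorem m2_step (σ : Fin h → Bool) {l : Fin (m + 1)} (hl : (l : ℕ) < m) :
    val (m2at σ (l, 0)) = val (m2at (fun i => xor (σ i) (w (H i ⟨l, hl⟩) && x (e ⟨l, hl⟩)))
      (Fin.ofNat (m + 1) (l + 1), 0)) := by
  rw [m2_var e H β q₀ hval σ hl rfl]
  by_cases hx : x (e ⟨l, hl⟩) = true
  · rw [if_pos hx, hx]
    simp only [Bool.and_true]
    rcases Nat.eq_zero_or_pos h with hh | hh
    · have hnx : m2nx l (0 : Fin (h + 1)) = (Fin.ofNat (m + 1) (l + 1), 0) := by
        unfold m2nx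
        rw [if_neg (by rw [hh]; exact lt_irrefl _)]
      rw [hnx]
      congr 2
      funext i
      have := i.2
      omega
    · have hnx : m2nx l (0 : Fin (h + 1)) = (l, Fin.ofNat (h + 1) (0 + 1)) := by
        unfold m2nx
        rw [if_pos (show ((0 : Fin (h + 1)) : ℕ) < h from hh)]
        rfl
      have h5 : ((Fin.ofNat (h + 1) (0 + 1) : Fin (h + 1)) : ℕ) = 0 + 1 := ofNat_val (by omega)
      rw [hnx, m2_col e H β q₀ hval hl (h - 1) _ (by omega) (by omega), h5]
      congr 2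
  · rw [if_neg hx, Bool.not_eq_true _ |>.mp hx]
    simp only [Bool.and_false, Bool.xor_false]

omit hval in
open Classical in
/-- the parity of the column sum from `l` on -/
noncomputable def m2par (x : V → Bool) (w : Q → Bool) (l : ℕ) (j : Fin h) : Bool :=
  decide (Odd (univ.filter fun l' : Fin m => l ≤ (l' : ℕ) ∧ w (H j l') = true ∧
    x (e l') = true).card)

omit hval in
theorem m2par_succ (x : V → Bool) (w : Q → Bool) (l : Fin m) (j : Fin h) :
    m2par e H x w l j = xor (w (H j l) && x (e l)) (m2par e H x w (l + 1) j) := by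
  classical
  unfold m2par
  by_cases hp : w (H j l) = true ∧ x (e l) = true
  · have h1 : (univ.filter fun l' : Fin m => (l : ℕ) ≤ (l' : ℕ) ∧ w (H j l') = true ∧
        x (e l') = true) = insert l (univ.filter fun l' : Fin m => (l : ℕ) + 1 ≤ (l' : ℕ) ∧
        w (H j l') = true ∧ x (e l') = true) := by
      ext l'
      simp only [mem_filter, mem_univ, true_and, mem_insert]
      constructor
      · rintro ⟨h2, h3⟩
        rcases Nat.eq_or_lt_of_le h2 with h4 | h4
        · exact Or.inl (Fin.ext h4.symm)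
        · exact Or.inr ⟨h4, h3⟩
      · rintro (h2 | ⟨h2, h3⟩)
        · rw [h2]
          exact ⟨le_rfl, hp⟩
        · exact ⟨by omega, h3⟩
    have h2 : l ∉ (univ.filter fun l' : Fin m => (l : ℕ) + 1 ≤ (l' : ℕ) ∧
        w (H j l') = true ∧ x (e l') = true) := by
      simp
    rw [h1, card_insert_of_notMem h2, hp.1, hp.2]
    simp only [Nat.odd_add_one, Bool.and_self, Bool.true_xor, decide_not]
  · have h1 : (univ.filter fun l' : Fin m => (l : ℕ) ≤ (l' : ℕ) ∧ w (H j l') = true ∧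
        x (e l') = true) = univ.filter fun l' : Fin m => (l : ℕ) + 1 ≤ (l' : ℕ) ∧
        w (H j l') = true ∧ x (e l') = true := by
      ext l'
      simp only [mem_filter, mem_univ, true_and]
      constructor
      · rintro ⟨h2, h3⟩
        rcases Nat.eq_or_lt_of_le h2 with h4 | h4
        · exact absurd (by rw [show l = l' from Fin.ext h4]; exact h3) hp
        · exact ⟨h4, h3⟩
      · rintro ⟨h2, h3⟩
        exact ⟨by omega, h3⟩
    rw [h1]
    have h2 : (w (H j l) && x (e l)) = false := by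
      rw [Bool.and_eq_false_iff]
      by_contra h3
      push Not at h3
      exact hp ⟨by simpa using h3.1, by simpa using h3.2⟩
    rw [h2, Bool.false_xor]

theorem m2_main (k : ℕ) : ∀ l : Fin (m + 1), (l : ℕ) + k = m → ∀ σ : Fin h → Bool,
    (val (m2at σ (l, 0)) = true ↔ ∃ j : Fin h, xor (σ j) (m2par e H x w l j) ≠ w (β j)) := by
  induction k with
  | zero =>
    intro l hl σ
    rw [m2_end e H β q₀ hval σ (by omega) h 0 (Nat.zero_add _)]
    have h1 : ∀ j : Fin h, m2par e H x w l j = false := by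
      intro j
      unfold m2par
      have h2 : (univ.filter fun l' : Fin m => (l : ℕ) ≤ (l' : ℕ) ∧ w (H j l') = true ∧
          x (e l') = true) = ∅ := by
        rw [filter_eq_empty_iff]
        rintro l' - ⟨h3, -⟩
        have := l'.2
        omega
      rw [h2]
      simp
    simp only [h1, Bool.xor_false]
    constructor
    · rintro ⟨i, -, h2⟩
      exact ⟨i, h2⟩
    · rintro ⟨i, h2⟩
      exact ⟨i, Nat.zero_le _, h2⟩
  | succ k ih =>
    intro l hl σ
    have hl' : (l : ℕ) < m := by omega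
    have h5 : ((Fin.ofNat (m + 1) (l + 1) : Fin (m + 1)) : ℕ) = l + 1 := ofNat_val (by omega)
    rw [m2_step e H β q₀ hval σ hl', ih _ (by omega), h5]
    have h6 : ∀ j, m2par e H x w l j = xor (w (H j ⟨l, hl'⟩) && x (e ⟨l, hl'⟩))
        (m2par e H x w (l + 1) j) := fun j => m2par_succ e H x w ⟨l, hl'⟩ j
    simp only [h6, Bool.xor_assoc]

omit hval in
theorem m2_card : Fintype.card (M2P m h) ≤ 2 ^ h * (20 * (m + 1) * (h + 1)) := by
  simp only [M2P, Fintype.card_prod, Fintype.card_fun, Fintype.card_bool, Fintype.card_fin]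
  refine Nat.mul_le_mul_left _ ?_
  nlinarith [Nat.zero_le m, Nat.zero_le h, Nat.zero_le (m * h)]

end

open Classical in
theorem part2 {V Q : Type} [DecidableEq V] {m h : ℕ} (hm : 1 ≤ m) (e : Fin m → V)
    (he : Function.Injective e) (H : Fin h → Fin m → Q) (β : Fin h → Q) (q₀ : Q) :
    ∃ (P : Type) (_ : Fintype P) (gate : P → MGate V Q P) (rank : P → ℕ) (out : P),
      MRanked gate rank ∧ Fintype.card P ≤ 2 ^ h * (20 * (m + 1) * (h + 1)) ∧
      (∀ x w val, MEval gate x w val →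
        (val out = true ↔ ∃ j : Fin h, decide (Odd (univ.filter fun l =>
          w (H j l) = true ∧ x (e l) = true).card) ≠ w (β j))) ∧
      ∀ l L, MTree gate out L → (L.filter fun v => v = e l).length ≤ 1 := by
  refine ⟨M2P m h, inferInstance, m2gate e H β q₀, m2rank, m2at (fun _ => false) (0, 0),
    m2_ranked e H β q₀, m2_card, ?_, ?_⟩
  · intro x w val hval
    rw [m2_main e H β q₀ hval m 0 (Nat.zero_add _)]
    have h1 : ∀ j : Fin h, m2par e H x w ((0 : Fin (m + 1)) : ℕ) j =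
        decide (Odd (univ.filter fun l => w (H j l) = true ∧ x (e l) = true).card) := by
      intro j
      unfold m2par
      have h2 : (univ.filter fun l' : Fin m => ((0 : Fin (m + 1)) : ℕ) ≤ (l' : ℕ) ∧
          w (H j l') = true ∧ x (e l') = true) =
          univ.filter fun l => w (H j l) = true ∧ x (e l) = true := by
        ext l'
        simp only [mem_filter, mem_univ, true_and]
        exact ⟨fun h3 => h3.2, fun h3 => ⟨Nat.zero_le _, h3⟩⟩
      rw [h2]
    simp only [h1, Bool.false_xor]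
  · intro l L hL
    refine (m2_tree e H β q₀ he l hL).trans ?_
    unfold m2at
    rw [m2bd_main _ _ _ _ (by decide)]
    split_ifs <;> omega

end Pool.Agent.MV
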