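import Mathlib
import Pool.Agent.Lib.MP_b573ec_lc_MV.Free
import Pool.Agent.Lib.MP_b573ec_lc_MV.Main1
import Pool.Agent.Lib.MP_b573ec_lc_MV.Main2

/-!
# Matrix times vector: circuits without error, from signals

The circuit is `dead ∨ ((¬ κ ∨ G₁) ∧ (κ ∨ G₂))`.  `G₁` is the AND over all `c : Fin h → Bool` of the
OR over `l` of `x l ≠ y c l`, where `y c l` is a signal (partial sums over `j` as further signals:
at most `2 ^ h * m * (h + 1)` of them) and `x l ≠ y` is `(x l ∨ y) ∧ (¬ x l ∨ ¬ y)`.  `G₂` reads the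
`x l` in order and remembers the sum `σ` of the columns `H · l` with `x l = 1`:
`F l σ = (x l ∨ F (l + 1) σ) ∧ (¬ x l ∨ F (l + 1) (σ + column l))`; the addition of the column takes
`h` steps, the step `j` replaces `F' σ` by `(H j l ∨ F' σ) ∧ (¬ H j l ∨ F' (σ with bit j changed))`;
`F m σ` is the OR over `j` of `σ j ≠ β j`.
-/

set_option autoImplicit false

namespace Pool.Agent.MV

open Finset Pool.Agent.FP Pool.Agent.RT Pool.Agent.RO

/-! ## values exist -/

private def mcStep {V Q P : Type} (gate : P → MGate V Q P) (x : V → Bool) (w : Q → Bool)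
    (val : P → Bool) (g : P) : Bool :=
  match gate g with
    | .lit v b => x v == b
    | .free q b => w q == b
    | .and i j => val i && val j
    | .or i j => val i || val j

private theorem mc_and {V Q P : Type} {gate : P → MGate V Q P} (x : V → Bool) (w : Q → Bool)
    (val : P → Bool) {g i j : P} (h : gate g = .and i j) :
    mcStep gate x w val g = (val i && val j) := by
  simp only [mcStep, h]

private theorem mc_or {V Q P : Type} {gate : P → MGate V Q P} (x : V → Bool) (w : Q → Bool)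
    (val : P → Bool) {g i j : P} (h : gate g = .or i j) :
    mcStep gate x w val g = (val i || val j) := by
  simp only [mcStep, h]

private theorem mc_exists {V Q P : Type} [Fintype P] (gate : P → MGate V Q P) (rank : P → ℕ)
    (hr : MRanked gate rank) (x : V → Bool) (w : Q → Bool) : ∃ val, MEval gate x w val := by
  have key : ∀ n : ℕ, ∃ val : P → Bool, ∀ g, rank g < n → val g = mcStep gate x w val g := by
    intro n
    induction n with
    | zero => exact ⟨fun _ => false, fun g hg => absurd hg (Nat.not_lt_zero _)⟩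
    | succ n ih =>
      obtain ⟨val, hval⟩ := ih
      refine ⟨mcStep gate x w val, fun g hg => ?_⟩
      have hsub : ∀ i, rank i < rank g → mcStep gate x w val i = val i := by
        intro i hi
        exact (hval i (by omega)).symm
      rcases hgt : gate g with ⟨v, b⟩ | ⟨q, b⟩ | ⟨i, j⟩ | ⟨i, j⟩
      · simp only [mcStep, hgt]
      · simp only [mcStep, hgt]
      · have h1 := hr g i j (.inl hgt)
        rw [mc_and x w _ hgt, mc_and x w _ hgt, hsub i h1.1, hsub j h1.2]
      · have h1 := hr g i j (.inr hgt)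
        rw [mc_or x w _ hgt, mc_or x w _ hgt, hsub i h1.1, hsub j h1.2]
  obtain ⟨val, hval⟩ := key ((∑ g, rank g) + 1)
  refine ⟨val, fun g => ?_⟩
  exact hval g (Nat.lt_succ_of_le
    (Finset.single_le_sum (f := rank) (fun i _ => Nat.zero_le _) (Finset.mem_univ g)))

private def scStep {V Q : Type} (sig : Q → SGate V Q) (x : V → Bool) (val : Q → Bool) (q : Q) :
    Bool :=
  match sig q with
    | .var v => x v
    | .fn φ a b c => φ (val a) (val b) (val c)

private theorem sc_fn {V Q : Type} {sig : Q → SGate V Q} (x : V → Bool) (val : Q → Bool)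
    {q : Q} {φ : Bool → Bool → Bool → Bool} {a b c : Q} (h : sig q = .fn φ a b c) :
    scStep sig x val q = φ (val a) (val b) (val c) := by
  simp only [scStep, h]

private theorem sc_exists {V Q : Type} [Fintype Q] (sig : Q → SGate V Q) (rk : Q → ℕ)
    (hr : SRanked sig rk) (x : V → Bool) : ∃ val, SEval sig x val := by
  have key : ∀ n : ℕ, ∃ val : Q → Bool, ∀ g, rk g < n → val g = scStep sig x val g := by
    intro n
    induction n with
    | zero => exact ⟨fun _ => false, fun g hg => absurd hg (Nat.not_lt_zero _)⟩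
    | succ n ih =>
      obtain ⟨val, hval⟩ := ih
      refine ⟨scStep sig x val, fun g hg => ?_⟩
      have hsub : ∀ i, rk i < rk g → scStep sig x val i = val i := by
        intro i hi
        exact (hval i (by omega)).symm
      rcases hgt : sig g with v | ⟨φ, a, b, c⟩
      · simp only [scStep, hgt]
      · have h1 := hr g φ a b c hgt
        rw [sc_fn x _ hgt, sc_fn x _ hgt, hsub a h1.1, hsub b h1.2.1, hsub c h1.2.2]
  obtain ⟨val, hval⟩ := key ((∑ g, rk g) + 1)
  refine ⟨val, fun g => ?_⟩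
  exact hval g (Nat.lt_succ_of_le
    (Finset.single_le_sum (f := rk) (fun i _ => Nat.zero_le _) (Finset.mem_univ g)))

/-! ## the new signals -/

private abbrev SQ (Q : Type) (m h : ℕ) : Type := Q ⊕ ((Fin h → Bool) × Fin m × Fin (h + 1))

private def sq {V Q : Type} {m h : ℕ} (sig : Q → SGate V Q) (z : Fin m → Q)
    (g : Fin h → Fin m → Q) : SQ Q m h → SGate V (SQ Q m h)
  | .inl q => match sig q with
    | .var v => .var v
    | .fn φ a b c => .fn φ (.inl a) (.inl b) (.inl c)
  | .inr (c, l, j) =>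
    if hj : (j : ℕ) = 0 then .fn (fun a _ _ => a) (.inl (z l)) (.inl (z l)) (.inl (z l))
    else .fn (fun a b _ => xor a (c ⟨(j : ℕ) - 1, by have := j.2; omega⟩ && b))
      (.inr (c, l, ⟨(j : ℕ) - 1, by have := j.2; omega⟩))
      (.inl (g ⟨(j : ℕ) - 1, by have := j.2; omega⟩ l))
      (.inl (g ⟨(j : ℕ) - 1, by have := j.2; omega⟩ l))

private def sqRk {Q : Type} {m h : ℕ} (rk : Q → ℕ) (N : ℕ) : SQ Q m h → ℕ
  | .inl q => rk q
  | .inr (_, _, j) => N + 1 + (j : ℕ)

private theorem sq_ranked {V Q : Type} {m h : ℕ} (sig : Q → SGate V Q) (rk : Q → ℕ)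
    (hsig : SRanked sig rk) (z : Fin m → Q) (g : Fin h → Fin m → Q) (N : ℕ)
    (hN : ∀ q, rk q ≤ N) : SRanked (sq sig z g) (sqRk rk N) := by
  intro q φ a b c hq
  rcases q with q | ⟨c', l, j⟩
  · simp only [sq] at hq
    rcases hs : sig q with v | ⟨φ', a', b', c''⟩
    · rw [hs] at hq; cases hq
    · rw [hs] at hq
      have h1 := hsig q φ' a' b' c'' hs
      injection hq with e1 e2 e3 e4
      subst e2 e3 e4
      exact h1
  · by_cases hj : (j : ℕ) = 0
    · simp only [sq, dif_pos hj] at hq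
      injection hq with e1 e2 e3 e4
      subst e2 e3 e4
      have h1 := hN (z l)
      simp only [sqRk]
      omega
    · simp only [sq, dif_neg hj] at hq
      injection hq with e1 e2 e3 e4
      subst e2 e3 e4
      have h1 := hN (g ⟨(j : ℕ) - 1, by have := j.2; omega⟩ l)
      simp only [sqRk]
      omega

private theorem sq_sub {V Q : Type} {m h : ℕ} (sig : Q → SGate V Q) (z : Fin m → Q)
    (g : Fin h → Fin m → Q) {x : V → Bool} {w : SQ Q m h → Bool}
    (hw : SEval (sq sig z g) x w) : SEval sig x (fun q => w (.inl q)) := by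
  intro q
  have h1 := hw (.inl q)
  simp only [sq] at h1
  rcases hs : sig q with v | ⟨φ, a, b, c⟩
  · rw [hs] at h1
    simpa using h1
  · rw [hs] at h1
    simpa using h1

open Classical in
private theorem sq_val {V Q : Type} {m h : ℕ} (sig : Q → SGate V Q) (z : Fin m → Q)
    (g : Fin h → Fin m → Q) {x : V → Bool} {w : SQ Q m h → Bool}
    (hw : SEval (sq sig z g) x w) (c : Fin h → Bool) (l : Fin m) (t : ℕ) :
    ∀ j : Fin (h + 1), (j : ℕ) = t → w (.inr (c, l, j)) =
      xor (w (.inl (z l))) (decide (Odd (univ.filter fun i : Fin h =>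
        (i : ℕ) < t ∧ c i = true ∧ w (.inl (g i l)) = true).card)) := by
  induction t with
  | zero =>
    intro j hj
    have h1 := hw (.inr (c, l, j))
    simp only [sq, dif_pos hj] at h1
    rw [h1]
    simp
  | succ t ih =>
    intro j hj
    have h1 := hw (.inr (c, l, j))
    have hj0 : ¬ (j : ℕ) = 0 := by omega
    have ht : t < h := by have := j.2; omega
    simp only [sq, dif_neg hj0] at h1
    have hjt : (⟨(j : ℕ) - 1, by have := j.2; omega⟩ : Fin h) = ⟨t, ht⟩ := Fin.ext (by
      simp only; omega)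
    rw [h1, hjt, ih ⟨(j : ℕ) - 1, by have := j.2; omega⟩ (by simp only; omega)]
    set S := (univ.filter fun i : Fin h =>
        (i : ℕ) < t ∧ c i = true ∧ w (.inl (g i l)) = true) with hS
    by_cases hc : c ⟨t, ht⟩ = true ∧ w (.inl (g ⟨t, ht⟩ l)) = true
    · have h2 : (univ.filter fun i : Fin h =>
          (i : ℕ) < t + 1 ∧ c i = true ∧ w (.inl (g i l)) = true) = insert ⟨t, ht⟩ S := by
        ext i
        simp only [hS, mem_filter, mem_univ, true_and, mem_insert]
        constructor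
        · rintro ⟨h3, h4⟩
          rcases Nat.lt_or_ge (i : ℕ) t with h5 | h5
          · exact Or.inr ⟨h5, h4⟩
          · exact Or.inl (Fin.ext (by simp only; omega))
        · rintro (rfl | ⟨h3, h4⟩)
          · exact ⟨by simp, hc⟩
          · exact ⟨by omega, h4⟩
      have h3 : (⟨t, ht⟩ : Fin h) ∉ S := by
        simp [hS]
      rw [h2, card_insert_of_notMem h3, hc.1, hc.2]
      have h4 : decide (Odd (S.card + 1)) = ! decide (Odd S.card) := by
        by_cases h5 : Odd S.card
        · simp [h5, Nat.odd_add_one]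
        · simp [h5, Nat.odd_add_one]
      rw [h4]
      cases w (.inl (z l)) <;> cases decide (Odd S.card) <;> rfl
    · have h2 : (univ.filter fun i : Fin h =>
          (i : ℕ) < t + 1 ∧ c i = true ∧ w (.inl (g i l)) = true) = S := by
        ext i
        simp only [hS, mem_filter, mem_univ, true_and]
        constructor
        · rintro ⟨h3, h4⟩
          rcases Nat.lt_or_ge (i : ℕ) t with h5 | h5
          · exact ⟨h5, h4⟩
          · have h6 : i = ⟨t, ht⟩ := Fin.ext (by simp only; omega)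
            rw [h6] at h4
            exact absurd h4 hc
        · rintro ⟨h3, h4⟩
          exact ⟨by omega, h4⟩
      have h3 : (c ⟨t, ht⟩ && w (.inl (g ⟨t, ht⟩ l))) = false := by
        rw [Bool.eq_false_iff, Ne, Bool.and_eq_true]
        exact hc
      rw [h2, h3, Bool.xor_false]

open Classical in
private theorem sq_last {V Q : Type} {m h : ℕ} (sig : Q → SGate V Q) (z : Fin m → Q)
    (g : Fin h → Fin m → Q) {x : V → Bool} {w : SQ Q m h → Bool}
    (hw : SEval (sq sig z g) x w) (c : Fin h → Bool) (l : Fin m) :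
    w (.inr (c, l, Fin.last h)) =
      xor (w (.inl (z l))) (decide (Odd (univ.filter fun i : Fin h =>
        c i = true ∧ w (.inl (g i l)) = true).card)) := by
  rw [sq_val sig z g hw c l h (Fin.last h) rfl]
  have h1 : (univ.filter fun i : Fin h => (i : ℕ) < h ∧ c i = true ∧ w (.inl (g i l)) = true) =
      univ.filter fun i : Fin h => c i = true ∧ w (.inl (g i l)) = true := by
    ext i
    simp
  rw [h1]

/-! ## gates of a disjoint union -/

private def mapG {V Q P P' : Type} (f : P → P') : MGate V Q P → MGate V Q P'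
  | .lit v b => .lit v b
  | .free q b => .free q b
  | .and i j => .and (f i) (f j)
  | .or i j => .or (f i) (f j)

private inductive TG
  | d | k1 | k0 | a | b | c | o
  deriving DecidableEq, Fintype

private abbrev TP (P1 P2 : Type) : Type := P1 ⊕ P2 ⊕ TG

private def tg {V Q P1 P2 : Type} (g1 : P1 → MGate V Q P1) (g2 : P2 → MGate V Q P2) (o1 : P1)
    (o2 : P2) (dead κ : Q) : TP P1 P2 → MGate V Q (TP P1 P2)
  | .inl p => mapG .inl (g1 p)
  | .inr (.inl p) => mapG (fun q => .inr (.inl q)) (g2 p)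
  | .inr (.inr .d) => .free dead true
  | .inr (.inr .k1) => .free κ true
  | .inr (.inr .k0) => .free κ false
  | .inr (.inr .a) => .or (.inr (.inr .k0)) (.inl o1)
  | .inr (.inr .b) => .or (.inr (.inr .k1)) (.inr (.inl o2))
  | .inr (.inr .c) => .and (.inr (.inr .a)) (.inr (.inr .b))
  | .inr (.inr .o) => .or (.inr (.inr .d)) (.inr (.inr .c))

private def tgRk {P1 P2 : Type} (r1 : P1 → ℕ) (r2 : P2 → ℕ) (N : ℕ) : TP P1 P2 → ℕ
  | .inl p => r1 p
  | .inr (.inl p) => r2 p
  | .inr (.inr .d) => 0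
  | .inr (.inr .k1) => 0
  | .inr (.inr .k0) => 0
  | .inr (.inr .a) => N + 1
  | .inr (.inr .b) => N + 1
  | .inr (.inr .c) => N + 2
  | .inr (.inr .o) => N + 3

private theorem tg_ranked {V Q P1 P2 : Type} (g1 : P1 → MGate V Q P1) (g2 : P2 → MGate V Q P2)
    (o1 : P1) (o2 : P2) (dead κ : Q) (r1 : P1 → ℕ) (r2 : P2 → ℕ) (h1 : MRanked g1 r1)
    (h2 : MRanked g2 r2) (N : ℕ) (hN1 : ∀ p, r1 p ≤ N) (hN2 : ∀ p, r2 p ≤ N) :
    MRanked (tg g1 g2 o1 o2 dead κ) (tgRk r1 r2 N) := by
  intro g i j hg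
  rcases g with p | p | t
  · simp only [tg] at hg
    rcases hp : g1 p with ⟨v, b⟩ | ⟨q, b⟩ | ⟨i', j'⟩ | ⟨i', j'⟩ <;> rw [hp] at hg <;>
      simp only [mapG] at hg
    · rcases hg with hg | hg <;> cases hg
    · rcases hg with hg | hg <;> cases hg
    · rcases hg with hg | hg
      · cases hg
        exact h1 p i' j' (.inl hp)
      · cases hg
    · rcases hg with hg | hg
      · cases hg
      · cases hg
        exact h1 p i' j' (.inr hp)
  · simp only [tg] at hg
    rcases hp : g2 p with ⟨v, b⟩ | ⟨q, b⟩ | ⟨i', j'⟩ | ⟨i', j'⟩ <;> rw [hp] at hg <;>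
      simp only [mapG] at hg
    · rcases hg with hg | hg <;> cases hg
    · rcases hg with hg | hg <;> cases hg
    · rcases hg with hg | hg
      · cases hg
        exact h2 p i' j' (.inl hp)
      · cases hg
    · rcases hg with hg | hg
      · cases hg
      · cases hg
        exact h2 p i' j' (.inr hp)
  · have h3 := hN1 o1
    have h4 := hN2 o2
    cases t <;> simp only [tg] at hg
    · rcases hg with hg | hg <;> cases hg
    · rcases hg with hg | hg <;> cases hg
    · rcases hg with hg | hg <;> cases hg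
    · rcases hg with hg | hg
      · cases hg
      · cases hg
        simp only [tgRk]
        omega
    · rcases hg with hg | hg
      · cases hg
      · cases hg
        simp only [tgRk]
        omega
    · rcases hg with hg | hg
      · cases hg
        simp only [tgRk]
        omega
      · cases hg
    · rcases hg with hg | hg
      · cases hg
      · cases hg
        simp only [tgRk]
        omega

private theorem tg_eval1 {V Q P1 P2 : Type} {g1 : P1 → MGate V Q P1} {g2 : P2 → MGate V Q P2}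
    {o1 : P1} {o2 : P2} {dead κ : Q} {x : V → Bool} {w : Q → Bool} {val : TP P1 P2 → Bool}
    (hv : MEval (tg g1 g2 o1 o2 dead κ) x w val) : MEval g1 x w (fun p => val (.inl p)) := by
  intro p
  have h1 := hv (.inl p)
  simp only [tg] at h1
  rcases hp : g1 p with ⟨v, b⟩ | ⟨q, b⟩ | ⟨i', j'⟩ | ⟨i', j'⟩ <;> rw [hp] at h1 <;>
    simpa only [mapG] using h1

private theorem tg_eval2 {V Q P1 P2 : Type} {g1 : P1 → MGate V Q P1} {g2 : P2 → MGate V Q P2}
    {o1 : P1} {o2 : P2} {dead κ : Q} {x : V → Bool} {w : Q → Bool} {val : TP P1 P2 → Bool}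
    (hv : MEval (tg g1 g2 o1 o2 dead κ) x w val) :
    MEval g2 x w (fun p => val (.inr (.inl p))) := by
  intro p
  have h1 := hv (.inr (.inl p))
  simp only [tg] at h1
  rcases hp : g2 p with ⟨v, b⟩ | ⟨q, b⟩ | ⟨i', j'⟩ | ⟨i', j'⟩ <;> rw [hp] at h1 <;>
    simpa only [mapG] using h1

private theorem tg_out {V Q P1 P2 : Type} {g1 : P1 → MGate V Q P1} {g2 : P2 → MGate V Q P2}
    {o1 : P1} {o2 : P2} {dead κ : Q} {x : V → Bool} {w : Q → Bool} {val : TP P1 P2 → Bool}
    (hv : MEval (tg g1 g2 o1 o2 dead κ) x w val) :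
    (val (.inr (.inr .o)) = true ↔ (w dead = true ∨ (w κ = true ∧ val (.inl o1) = true) ∨
      (w κ = false ∧ val (.inr (.inl o2)) = true))) := by
  have h1 := hv (.inr (.inr .d))
  have h2 := hv (.inr (.inr .k1))
  have h3 := hv (.inr (.inr .k0))
  have h4 := hv (.inr (.inr .a))
  have h5 := hv (.inr (.inr .b))
  have h6 := hv (.inr (.inr .c))
  have h7 := hv (.inr (.inr .o))
  simp only [tg] at h1 h2 h3 h4 h5 h6 h7
  rw [h7, h6, h4, h5, h1, h2, h3]
  cases w dead <;> cases w κ <;> cases val (.inl o1) <;> cases val (.inr (.inl o2)) <;> decide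

private theorem tg_tree1 {V Q P1 P2 : Type} {g1 : P1 → MGate V Q P1} {g2 : P2 → MGate V Q P2}
    {o1 : P1} {o2 : P2} {dead κ : Q} {g' : TP P1 P2} {L : List V}
    (h : MTree (tg g1 g2 o1 o2 dead κ) g' L) : ∀ p, g' = .inl p → MTree g1 p L := by
  induction h with
  | lit g v b hg =>
    rintro p rfl
    simp only [tg] at hg
    rcases hp : g1 p with ⟨v', b'⟩ | ⟨q, b'⟩ | ⟨i', j'⟩ | ⟨i', j'⟩ <;> rw [hp] at hg <;>
      simp only [mapG] at hg <;> cases hg
    exact .lit _ _ _ hp
  | free g q b hg =>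
    rintro p rfl
    simp only [tg] at hg
    rcases hp : g1 p with ⟨v', b'⟩ | ⟨q, b'⟩ | ⟨i', j'⟩ | ⟨i', j'⟩ <;> rw [hp] at hg <;>
      simp only [mapG] at hg <;> cases hg
    exact .free _ _ _ hp
  | left g i j L hg _ ih =>
    rintro p rfl
    simp only [tg] at hg
    rcases hp : g1 p with ⟨v', b'⟩ | ⟨q, b'⟩ | ⟨i', j'⟩ | ⟨i', j'⟩ <;> rw [hp] at hg <;>
      simp only [mapG] at hg <;> cases hg
    exact .left _ _ _ _ hp (ih _ rfl)
  | right g i j L hg _ ih =>
    rintro p rfl
    simp only [tg] at hg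
    rcases hp : g1 p with ⟨v', b'⟩ | ⟨q, b'⟩ | ⟨i', j'⟩ | ⟨i', j'⟩ <;> rw [hp] at hg <;>
      simp only [mapG] at hg <;> cases hg
    exact .right _ _ _ _ hp (ih _ rfl)
  | both g i j L L' hg _ _ ih ih' =>
    rintro p rfl
    simp only [tg] at hg
    rcases hp : g1 p with ⟨v', b'⟩ | ⟨q, b'⟩ | ⟨i', j'⟩ | ⟨i', j'⟩ <;> rw [hp] at hg <;>
      simp only [mapG] at hg <;> cases hg
    exact .both _ _ _ _ _ hp (ih _ rfl) (ih' _ rfl)

private theorem tg_tree2 {V Q P1 P2 : Type} {g1 : P1 → MGate V Q P1} {g2 : P2 → MGate V Q P2}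
    {o1 : P1} {o2 : P2} {dead κ : Q} {g' : TP P1 P2} {L : List V}
    (h : MTree (tg g1 g2 o1 o2 dead κ) g' L) : ∀ p, g' = .inr (.inl p) → MTree g2 p L := by
  induction h with
  | lit g v b hg =>
    rintro p rfl
    simp only [tg] at hg
    rcases hp : g2 p with ⟨v', b'⟩ | ⟨q, b'⟩ | ⟨i', j'⟩ | ⟨i', j'⟩ <;> rw [hp] at hg <;>
      simp only [mapG] at hg <;> cases hg
    exact .lit _ _ _ hp
  | free g q b hg =>
    rintro p rfl
    simp only [tg] at hg
    rcases hp : g2 p with ⟨v', b'⟩ | ⟨q, b'⟩ | ⟨i', j'⟩ | ⟨i', j'⟩ <;> rw [hp] at hg <;>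
      simp only [mapG] at hg <;> cases hg
    exact .free _ _ _ hp
  | left g i j L hg _ ih =>
    rintro p rfl
    simp only [tg] at hg
    rcases hp : g2 p with ⟨v', b'⟩ | ⟨q, b'⟩ | ⟨i', j'⟩ | ⟨i', j'⟩ <;> rw [hp] at hg <;>
      simp only [mapG] at hg <;> cases hg
    exact .left _ _ _ _ hp (ih _ rfl)
  | right g i j L hg _ ih =>
    rintro p rfl
    simp only [tg] at hg
    rcases hp : g2 p with ⟨v', b'⟩ | ⟨q, b'⟩ | ⟨i', j'⟩ | ⟨i', j'⟩ <;> rw [hp] at hg <;>
      simp only [mapG] at hg <;> cases hg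
    exact .right _ _ _ _ hp (ih _ rfl)
  | both g i j L L' hg _ _ ih ih' =>
    rintro p rfl
    simp only [tg] at hg
    rcases hp : g2 p with ⟨v', b'⟩ | ⟨q, b'⟩ | ⟨i', j'⟩ | ⟨i', j'⟩ <;> rw [hp] at hg <;>
      simp only [mapG] at hg <;> cases hg
    exact .both _ _ _ _ _ hp (ih _ rfl) (ih' _ rfl)

private theorem tg_free {V Q P : Type} {gate : P → MGate V Q P} {g : P} {L : List V}
    (hT : MTree gate g L) {q : Q} {b : Bool} (h : gate g = .free q b) : L = [] := by
  cases hT with
  | lit _ v' b' h' => rw [h] at h'; cases h'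
  | free _ _ _ h' => rfl
  | left _ _ _ _ h' _ => rw [h] at h'; cases h'
  | right _ _ _ _ h' _ => rw [h] at h'; cases h'
  | both _ _ _ _ _ h' _ _ => rw [h] at h'; cases h'

private theorem tg_and {V Q P : Type} {gate : P → MGate V Q P} {g : P} {L : List V}
    (hT : MTree gate g L) {i j : P} (h : gate g = .and i j) : MTree gate i L ∨ MTree gate j L := by
  cases hT with
  | lit _ v' b' h' => rw [h] at h'; cases h'
  | free _ _ _ h' => rw [h] at h'; cases h'
  | left _ i' j' _ h' h'' => rw [h] at h'; injection h' with h1 h2; rw [h1]; exact Or.inl h''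
  | right _ i' j' _ h' h'' => rw [h] at h'; injection h' with h1 h2; rw [h2]; exact Or.inr h''
  | both _ _ _ _ _ h' _ _ => rw [h] at h'; cases h'

private theorem tg_or {V Q P : Type} {gate : P → MGate V Q P} {g : P} {L : List V}
    (hT : MTree gate g L) {i j : P} (h : gate g = .or i j) :
    ∃ L1 L2, L = L1 ++ L2 ∧ MTree gate i L1 ∧ MTree gate j L2 := by
  cases hT with
  | lit _ v' b' h' => rw [h] at h'; cases h'
  | free _ _ _ h' => rw [h] at h'; cases h'
  | left _ _ _ _ h' _ => rw [h] at h'; cases h'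
  | right _ _ _ _ h' _ => rw [h] at h'; cases h'
  | both _ i' j' L1 L2 h' h1 h2 =>
    rw [h] at h'
    injection h' with e1 e2
    rw [e1, e2]
    exact ⟨L1, L2, rfl, h1, h2⟩

private theorem tg_tree {V Q P1 P2 : Type} {g1 : P1 → MGate V Q P1} {g2 : P2 → MGate V Q P2}
    {o1 : P1} {o2 : P2} {dead κ : Q} {L : List V}
    (h : MTree (tg g1 g2 o1 o2 dead κ) (.inr (.inr .o)) L) : MTree g1 o1 L ∨ MTree g2 o2 L := by
  obtain ⟨L1, L2, rfl, h1, h2⟩ := tg_or h (i := .inr (.inr .d)) (j := .inr (.inr .c)) rfl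
  rw [tg_free h1 (q := dead) (b := true) rfl, List.nil_append]
  rcases tg_and h2 (i := .inr (.inr .a)) (j := .inr (.inr .b)) rfl with h3 | h3
  · obtain ⟨L3, L4, rfl, h4, h5⟩ := tg_or h3 (i := .inr (.inr .k0)) (j := .inl o1) rfl
    rw [tg_free h4 (q := κ) (b := false) rfl, List.nil_append]
    exact Or.inl (tg_tree1 h5 _ rfl)
  · obtain ⟨L3, L4, rfl, h4, h5⟩ := tg_or h3 (i := .inr (.inr .k1)) (j := .inr (.inl o2)) rfl
    rw [tg_free h4 (q := κ) (b := true) rfl, List.nil_append]
    exact Or.inr (tg_tree2 h5 _ rfl)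

open Classical in
theorem main_circ {V Q : Type} [Fintype Q] [DecidableEq V] (sig : Q → SGate V Q) (rk : Q → ℕ)
    (hsig : SRanked sig rk) {m h : ℕ} (hm : 1 ≤ m) (hhm : h ≤ m) (e : Fin m → V)
    (he : Function.Injective e) (hF : ∀ q v, sig q = .var v → ∀ l, v ≠ e l) (dead κ : Q)
    (z : Fin m → Q) (g H : Fin h → Fin m → Q) (β : Fin h → Q) (f : (V → Bool) → Prop)
    (hf : ∀ x val, SEval sig x val → (f x ↔ (val dead = true ∨
      (val κ = true ∧ ∀ c : Fin h → Bool, ∃ l, x (e l) ≠
        xor (val (z l)) (decide (Odd (univ.filter fun j : Fin h =>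
          c j = true ∧ val (g j l) = true).card))) ∨
      (val κ = false ∧ ∃ j : Fin h, decide (Odd (univ.filter fun l =>
        val (H j l) = true ∧ x (e l) = true).card) ≠ val (β j))))) :
    ∃ (s : ℕ) (D : Circuit V s), s ≤ 64 * Fintype.card Q + 2 ^ h * (200 * (m + 1) ^ 2) ∧
      (∀ x, D.Accepts x ↔ f x) ∧
      ∀ l L, Tree D D.out L → (L.filter fun y => y = e l).length ≤ 1 := by
  obtain ⟨P1, _, g1, r1, o1, hr1, hc1, hv1, ht1⟩ :=
    part1 (Q := SQ Q m h) hm e he (fun c l => .inr (c, l, Fin.last h))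
  obtain ⟨P2, _, g2, r2, o2, hr2, hc2, hv2, ht2⟩ :=
    part2 (Q := SQ Q m h) hm e he (fun j l => .inl (H j l)) (fun j => .inl (β j)) (.inl dead)
  have hsr : SRanked (sq sig z g) (sqRk rk (∑ q, rk q)) :=
    sq_ranked sig rk hsig z g _ fun q =>
      Finset.single_le_sum (f := rk) (fun i _ => Nat.zero_le _) (Finset.mem_univ q)
  have hgr : MRanked (tg g1 g2 o1 o2 (.inl dead) (.inl κ))
      (tgRk r1 r2 ((∑ p, r1 p) + ∑ p, r2 p)) := by
    refine tg_ranked g1 g2 o1 o2 _ _ r1 r2 hr1 hr2 _ (fun p => ?_) (fun p => ?_)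
    · exact le_trans (Finset.single_le_sum (f := r1) (fun i _ => Nat.zero_le _)
        (Finset.mem_univ p)) (Nat.le_add_right _ _)
    · exact le_trans (Finset.single_le_sum (f := r2) (fun i _ => Nat.zero_le _)
        (Finset.mem_univ p)) (Nat.le_add_left _ _)
  have hF' : ∀ q v, sq sig z g q = .var v → ¬ ∃ l, v = e l := by
    rintro (q | ⟨c, l, j⟩) v hq ⟨l', hl'⟩
    · simp only [sq] at hq
      rcases hs : sig q with v' | ⟨φ, a, b, c⟩
      · rw [hs] at hq
        cases hq
        exact hF q _ hs l' hl'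
      · rw [hs] at hq; cases hq
    · simp only [sq] at hq
      split_ifs at hq
  obtain ⟨s, D, hs, hD, hT⟩ := build_free (sq sig z g) _ hsr (fun v => ∃ l, v = e l) hF'
    (tg g1 g2 o1 o2 (.inl dead) (.inl κ)) _ hgr (.inr (.inr .o))
  refine ⟨s, D, le_trans hs ?_, fun x => ?_, fun l L hL => ?_⟩
  · have hK : Fintype.card TG = 7 := rfl
    rw [Fintype.card_sum, Fintype.card_prod, Fintype.card_prod, Fintype.card_fin,
      Fintype.card_fin, Fintype.card_sum, Fintype.card_sum, hK]
    have hcard : Fintype.card (Fin h → Bool) = 2 ^ h := by simp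
    rw [hcard]
    have hpos : 1 ≤ 2 ^ h := Nat.one_le_two_pow
    have a1 : 64 * (Fintype.card Q + 2 ^ h * (m * (h + 1))) =
        64 * Fintype.card Q + 2 ^ h * (64 * (m * (h + 1))) := by ring
    have a2 : 2 * (Fintype.card P1 + (Fintype.card P2 + 7)) ≤
        2 ^ h * (40 * (m + 1) + 40 * ((m + 1) * (h + 1)) + 14) := by
      have b1 : 2 * (Fintype.card P1 + (Fintype.card P2 + 7)) =
          2 * Fintype.card P1 + 2 * Fintype.card P2 + 14 := by ring
      have b2 : 2 ^ h * (40 * (m + 1) + 40 * ((m + 1) * (h + 1)) + 14) =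
          2 * (2 ^ h * (20 * (m + 1))) + 2 * (2 ^ h * (20 * (m + 1) * (h + 1))) +
            14 * 2 ^ h := by ring
      rw [b1, b2]
      omega
    have a3 : 64 * (m * (h + 1)) + (40 * (m + 1) + 40 * ((m + 1) * (h + 1)) + 14) ≤
        200 * (m + 1) ^ 2 := by
      have b1 : m * (h + 1) ≤ (m + 1) * (m + 1) := Nat.mul_le_mul (by omega) (by omega)
      have b2 : (m + 1) * (h + 1) ≤ (m + 1) * (m + 1) := Nat.mul_le_mul (le_refl _) (by omega)
      have b3 : m + 1 ≤ (m + 1) * (m + 1) := Nat.le_mul_self _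
      have b4 : (m + 1) ^ 2 = (m + 1) * (m + 1) := pow_two _
      have b5 : 1 ≤ (m + 1) * (m + 1) := Nat.one_le_iff_ne_zero.2 (by positivity)
      rw [b4]
      omega
    calc 64 * (Fintype.card Q + 2 ^ h * (m * (h + 1))) +
          2 * (Fintype.card P1 + (Fintype.card P2 + 7))
        ≤ 64 * Fintype.card Q + 2 ^ h * (64 * (m * (h + 1))) +
          2 ^ h * (40 * (m + 1) + 40 * ((m + 1) * (h + 1)) + 14) := by
          rw [a1]; exact Nat.add_le_add_left a2 _
      _ = 64 * Fintype.card Q + 2 ^ h * (64 * (m * (h + 1)) +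
          (40 * (m + 1) + 40 * ((m + 1) * (h + 1)) + 14)) := by ring
      _ ≤ 64 * Fintype.card Q + 2 ^ h * (200 * (m + 1) ^ 2) :=
          Nat.add_le_add_left (Nat.mul_le_mul_left _ a3) _
  · obtain ⟨w, hw⟩ := sc_exists (sq sig z g) _ hsr x
    obtain ⟨val, hval⟩ := mc_exists (tg g1 g2 o1 o2 (.inl dead) (.inl κ)) _ hgr x w
    rw [hD x w val hw hval, tg_out hval, hv1 x w _ (tg_eval1 hval), hv2 x w _ (tg_eval2 hval),
      hf x _ (sq_sub sig z g hw)]
    simp only [sq_last sig z g hw]
  · obtain ⟨L', h1, h2⟩ := hT L hL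
    refine le_trans (h2 (e l) ⟨l, rfl⟩) ?_
    rcases tg_tree h1 with h3 | h3
    · exact ht1 l L' h3
    · exact ht2 l L' h3

end Pool.Agent.MV
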