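import Mathlib
import Pool.Agent.Lib.MP_0a1b52_lc_RT.Defs
import Pool.Agent.Lib.MP_b573ec_lc_MV.Avg

/-!
# Matrix times vector: the walk, with means

Let `W g` be the variables below the gate `g` and `S g` the inputs which are rejected through `g`
(all siblings of OR gates on some path from the output to `g` and `g` itself are false).  The
parts of the elements of `S g` outside `W g` have the same sum of columns, so there are at most
`ker v (W g)ᶜ` of them, and the parts inside `W g` are at most `ker v (W g)`.  Walk from the output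
through gates with `d < |W g|`; the walk ends at a gate `g` with this property such that a false
child `i` (AND), or both children `i`, `j` (OR), have at most `d` variables.  In the first case
the columns in `W g \ W i` are zero.
-/

set_option autoImplicit false

namespace Pool.Agent.MV

open Finset Pool.Agent.FP Pool.Agent.RT

variable {V : Type} {s m : ℕ}

/-- the values of the gates -/
private def ev (D : Circuit V s) (x : V → Bool) (g : Fin s) : Bool :=
  match h : D.gate g with
  | .lit v b => x v == b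
  | .and i j => ev D x i && ev D x j
  | .or i j => ev D x i || ev D x j
termination_by g
decreasing_by
  · exact (D.and_lt g i j h).1
  · exact (D.and_lt g i j h).2
  · exact (D.or_lt g i j h).1
  · exact (D.or_lt g i j h).2

private theorem ev_isEval (D : Circuit V s) (x : V → Bool) : D.IsEval x (ev D x) := by
  intro g
  rw [ev]
  split
  · rename_i v b h
    rw [h]
  · rename_i i j h
    rw [h]
  · rename_i i j h
    rw [h]

private theorem ev_unique {D : Circuit V s} {x : V → Bool} {val val' : Fin s → Bool}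
    (h : D.IsEval x val) (h' : D.IsEval x val') : val = val' := by
  funext g
  induction g using WellFoundedLT.induction with
  | ind g ih =>
    rw [h g, h' g]
    rcases hg : D.gate g with ⟨v, b⟩ | ⟨i, j⟩ | ⟨i, j⟩
    · rfl
    · have h1 := D.and_lt g i j hg
      simp only [ih i h1.1, ih j h1.2]
    · have h1 := D.or_lt g i j hg
      simp only [ih i h1.1, ih j h1.2]

private theorem ev_out {D : Circuit V s} {x : V → Bool} :
    ev D x D.out = false ↔ ¬ D.Accepts x := by
  constructor
  · rintro h ⟨val, h1, h2⟩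
    rw [ev_unique h1 (ev_isEval D x), h] at h2
    exact Bool.noConfusion h2
  · intro h
    by_contra hc
    exact h ⟨_, ev_isEval D x, by simpa using hc⟩

private theorem ev_lit {D : Circuit V s} {x : V → Bool} {g : Fin s} {v : V} {b : Bool}
    (hg : D.gate g = .lit v b) : ev D x g = (x v == b) := by
  have h := ev_isEval D x g
  rw [hg] at h
  exact h

private theorem ev_and {D : Circuit V s} {x : V → Bool} {g i j : Fin s}
    (hg : D.gate g = .and i j) : ev D x g = (ev D x i && ev D x j) := by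
  have h := ev_isEval D x g
  rw [hg] at h
  exact h

private theorem ev_or {D : Circuit V s} {x : V → Bool} {g i j : Fin s}
    (hg : D.gate g = .or i j) : ev D x g = (ev D x i || ev D x j) := by
  have h := ev_isEval D x g
  rw [hg] at h
  exact h

/-- `g` can be reached from the output, all siblings at OR gates being in `F` -/
inductive RchF (D : Circuit V s) (F : Fin s → Prop) : Fin s → Prop
  | out : RchF D F D.out
  | andl (g i j : Fin s) : D.gate g = .and i j → RchF D F g → RchF D F i
  | andr (g i j : Fin s) : D.gate g = .and i j → RchF D F g → RchF D F j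
  | orl (g i j : Fin s) : D.gate g = .or i j → F j → RchF D F g → RchF D F i
  | orr (g i j : Fin s) : D.gate g = .or i j → F i → RchF D F g → RchF D F j

/-- `g` can be reached from the output, all siblings at OR gates being false -/
private abbrev Rch (D : Circuit V s) (x : V → Bool) : Fin s → Prop :=
  RchF D fun i => ev D x i = false

private theorem rch_false {D : Circuit V s} {x : V → Bool} {g : Fin s} (h : Rch D x g)
    (hg : ev D x g = false) : ev D x D.out = false := by
  induction h with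
  | out => exact hg
  | andl g i j h1 _ ih => exact ih (by rw [ev_and h1, hg, Bool.false_and])
  | andr g i j h1 _ ih => exact ih (by rw [ev_and h1, hg, Bool.and_false])
  | orl g i j h1 h2 _ ih => exact ih (by rw [ev_or h1, hg, h2, Bool.false_or])
  | orr g i j h1 h2 _ ih => exact ih (by rw [ev_or h1, hg, h2, Bool.false_or])

private theorem tree_ex (D : Circuit V s) (g : Fin s) : ∃ L, Tree D g L := by
  induction g using WellFoundedLT.induction with
  | ind g ih =>
    rcases hg : D.gate g with ⟨v, b⟩ | ⟨i, j⟩ | ⟨i, j⟩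
    · exact ⟨_, .lit g v b hg⟩
    · obtain ⟨L, hL⟩ := ih i (D.and_lt g i j hg).1
      exact ⟨_, .left g i j L hg hL⟩
    · obtain ⟨L, hL⟩ := ih i (D.or_lt g i j hg).1
      obtain ⟨L', hL'⟩ := ih j (D.or_lt g i j hg).2
      exact ⟨_, .both g i j L L' hg hL hL'⟩

open Classical in
/-- the variables below the gate `g` -/
private noncomputable def W (D : Circuit V s) (e : Fin m → V) (g : Fin s) : Finset (Fin m) :=
  univ.filter fun i => ∃ L, Tree D g L ∧ e i ∈ L

private theorem mem_W {D : Circuit V s} {e : Fin m → V} {g : Fin s} {i : Fin m} :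
    i ∈ W D e g ↔ ∃ L, Tree D g L ∧ e i ∈ L := by
  simp only [W, mem_filter, mem_univ, true_and]

private theorem W_lit {D : Circuit V s} {e : Fin m → V} {g : Fin s} {v : V} {b : Bool}
    (hg : D.gate g = .lit v b) (i : Fin m) : i ∈ W D e g ↔ e i = v := by
  rw [mem_W]
  constructor
  · rintro ⟨L, hL, hi⟩
    cases hL with
    | lit g v' b' h =>
      rw [hg] at h
      cases h
      simpa using hi
    | left g i j L h => rw [hg] at h; cases h
    | right g i j L h => rw [hg] at h; cases h
    | both g i j L L' h => rw [hg] at h; cases h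
  · intro h
    exact ⟨_, .lit g v b hg, by simp [h]⟩

private theorem W_and {D : Circuit V s} {e : Fin m → V} {g i j : Fin s}
    (hg : D.gate g = .and i j) : W D e g = W D e i ∪ W D e j := by
  ext k
  rw [mem_union, mem_W, mem_W, mem_W]
  constructor
  · rintro ⟨L, hL, hk⟩
    cases hL with
    | lit g v' b' h => rw [hg] at h; cases h
    | left g i' j' L h h1 =>
      rw [hg] at h
      cases h
      exact Or.inl ⟨L, h1, hk⟩
    | right g i' j' L h h1 =>
      rw [hg] at h
      cases h
      exact Or.inr ⟨L, h1, hk⟩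
    | both g i j L L' h => rw [hg] at h; cases h
  · rintro (⟨L, h1, hk⟩ | ⟨L, h1, hk⟩)
    · exact ⟨L, .left g i j L hg h1, hk⟩
    · exact ⟨L, .right g i j L hg h1, hk⟩

private theorem W_or {D : Circuit V s} {e : Fin m → V} {g i j : Fin s}
    (hg : D.gate g = .or i j) : W D e g = W D e i ∪ W D e j := by
  ext k
  rw [mem_union, mem_W, mem_W, mem_W]
  constructor
  · rintro ⟨L, hL, hk⟩
    cases hL with
    | lit g v' b' h => rw [hg] at h; cases h
    | left g i' j' L h h1 => rw [hg] at h; cases h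
    | right g i' j' L h h1 => rw [hg] at h; cases h
    | both g i j L L' h h1 h2 =>
      rw [hg] at h
      cases h
      rcases List.mem_append.1 hk with hk | hk
      · exact Or.inl ⟨L, h1, hk⟩
      · exact Or.inr ⟨L', h2, hk⟩
  · rintro (⟨L, h1, hk⟩ | ⟨L, h1, hk⟩)
    · obtain ⟨L', h2⟩ := tree_ex D j
      exact ⟨_, .both g i j L L' hg h1 h2, List.mem_append.2 (Or.inl hk)⟩
    · obtain ⟨L', h2⟩ := tree_ex D i
      exact ⟨_, .both g i j L' L hg h2 h1, List.mem_append.2 (Or.inr hk)⟩

section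

variable {D : Circuit V s} {e : Fin m → V} {pt : Finset (Fin m) → V → Bool}

private theorem ev_congr
    (hpt : ∀ X X' v, pt X v ≠ pt X' v → ∃ i, v = e i ∧ ¬ (i ∈ X ↔ i ∈ X'))
    {X X' : Finset (Fin m)} {g : Fin s} (h : ∀ i ∈ W D e g, (i ∈ X ↔ i ∈ X')) :
    ev D (pt X) g = ev D (pt X') g := by
  induction g using WellFoundedLT.induction with
  | ind g ih =>
    rcases hg : D.gate g with ⟨v, b⟩ | ⟨i, j⟩ | ⟨i, j⟩
    · rw [ev_lit hg, ev_lit hg]
      have : pt X v = pt X' v := by
        by_contra hc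
        obtain ⟨i, hi, hi2⟩ := hpt X X' v hc
        exact hi2 (h i ((W_lit hg i).2 hi.symm))
      rw [this]
    · have h1 := D.and_lt g i j hg
      rw [W_and hg] at h
      rw [ev_and hg, ev_and hg, ih i h1.1 fun k hk => h k (mem_union_left _ hk),
        ih j h1.2 fun k hk => h k (mem_union_right _ hk)]
    · have h1 := D.or_lt g i j hg
      rw [W_or hg] at h
      rw [ev_or hg, ev_or hg, ih i h1.1 fun k hk => h k (mem_union_left _ hk),
        ih j h1.2 fun k hk => h k (mem_union_right _ hk)]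

private theorem rch_tree [BEq V] [LawfulBEq V] {x : V → Bool} {g : Fin s} (h : Rch D x g)
    (L : List V) (hL : Tree D g L) : ∃ L', Tree D D.out L' ∧ ∀ v, L.count v ≤ L'.count v := by
  induction h generalizing L with
  | out => exact ⟨L, hL, fun v => le_refl _⟩
  | andl g i j h1 _ ih => exact ih L (.left g i j L h1 hL)
  | andr g i j h1 _ ih => exact ih L (.right g i j L h1 hL)
  | orl g i j h1 h2 _ ih =>
    obtain ⟨M, hM⟩ := tree_ex D j
    obtain ⟨L', h3, h4⟩ := ih _ (.both g i j L M h1 hL hM)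
    exact ⟨L', h3, fun v => le_trans (by rw [List.count_append]; omega) (h4 v)⟩
  | orr g i j h1 h2 _ ih =>
    obtain ⟨M, hM⟩ := tree_ex D i
    obtain ⟨L', h3, h4⟩ := ih _ (.both g i j M L h1 hM hL)
    exact ⟨L', h3, fun v => le_trans (by rw [List.count_append]; omega) (h4 v)⟩

private theorem or_disj [BEq V] [LawfulBEq V]
    (h1 : ∀ i L, Tree D D.out L → L.count (e i) ≤ 1) {x : V → Bool} {g i j : Fin s}
    (h : Rch D x g) (hg : D.gate g = .or i j) : Disjoint (W D e i) (W D e j) := by
  rw [disjoint_left]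
  intro k hk hk'
  obtain ⟨L, hL, hk⟩ := mem_W.1 hk
  obtain ⟨L', hL', hk'⟩ := mem_W.1 hk'
  obtain ⟨M, hM, hM2⟩ := rch_tree h _ (.both g i j L L' hg hL hL')
  have h2 := hM2 (e k)
  have h3 := h1 k M hM
  rw [List.count_append] at h2
  have h4 := List.count_pos_iff.2 hk
  have h5 := List.count_pos_iff.2 hk'
  omega

private theorem rch_congr [BEq V] [LawfulBEq V]
    (h1 : ∀ i L, Tree D D.out L → L.count (e i) ≤ 1)
    (hpt : ∀ X X' v, pt X v ≠ pt X' v → ∃ i, v = e i ∧ ¬ (i ∈ X ↔ i ∈ X'))
    {X X' : Finset (Fin m)} {g : Fin s} (hr : Rch D (pt X) g)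
    (h : ∀ i, i ∉ W D e g → (i ∈ X ↔ i ∈ X')) : Rch D (pt X') g := by
  induction hr with
  | out => exact .out
  | andl g i j hg _ ih =>
    exact .andl g i j hg (ih fun k hk => h k fun hc => hk (by
      rw [W_and hg]
      exact mem_union_left _ hc))
  | andr g i j hg _ ih =>
    exact .andr g i j hg (ih fun k hk => h k fun hc => hk (by
      rw [W_and hg]
      exact mem_union_right _ hc))
  | orl g i j hg h2 hr ih =>
    have hd := or_disj h1 hr hg
    refine .orl g i j hg ?_ (ih fun k hk => h k fun hc => hk (by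
      rw [W_or hg]
      exact mem_union_left _ hc))
    rw [← h2]
    exact (ev_congr hpt fun k hk => h k (disjoint_right.1 hd hk)).symm
  | orr g i j hg h2 hr ih =>
    have hd := or_disj h1 hr hg
    refine .orr g i j hg ?_ (ih fun k hk => h k fun hc => hk (by
      rw [W_or hg]
      exact mem_union_right _ hc))
    rw [← h2]
    exact (ev_congr hpt fun k hk => h k (disjoint_left.1 hd hk)).symm

end
/-! ## Sets of columns with the same sum -/

open Classical in
private theorem fiber_le {I : Type} {d : ℕ} (v : I → Fin d → ZMod 2) (U : Finset I)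
    (c : Fin d → ZMod 2) (B : Finset (Finset I)) (hU : ∀ T ∈ B, T ⊆ U)
    (hc : ∀ T ∈ B, ∑ k ∈ T, v k = c) : B.card ≤ ker v U := by
  rcases B.eq_empty_or_nonempty with rfl | ⟨T₀, h0⟩
  · exact Nat.zero_le _
  unfold ker
  refine card_le_card_of_injOn (fun T => symmDiff T T₀) (fun T hT => ?_)
    fun T _ T' _ h => symmDiff_left_injective T₀ h
  have hT := mem_coe.1 hT
  refine mem_coe.2 (mem_filter.2 ⟨mem_powerset.2 ?_, ?_⟩)
  · intro k hk
    rcases mem_symmDiff.1 hk with h | h
    · exact hU T hT h.1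
    · exact hU T₀ h0 h.1
  · have h2 : ∀ a : Fin d → ZMod 2, a + a = 0 := by
      intro a
      funext i
      exact (by decide : ∀ x : ZMod 2, x + x = 0) (a i)
    have h3 : ∑ k ∈ symmDiff T T₀, v k + (∑ k ∈ T ∩ T₀, v k + ∑ k ∈ T ∩ T₀, v k) =
        ∑ k ∈ T, v k + ∑ k ∈ T₀, v k := by
      have e1 : T = (T \ T₀) ∪ (T ∩ T₀) := (sdiff_union_inter T T₀).symm
      have e2 : T₀ = (T₀ \ T) ∪ (T ∩ T₀) := by
        rw [inter_comm]
        exact (sdiff_union_inter T₀ T).symm
      have d1 : Disjoint (T \ T₀) (T ∩ T₀) := by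
        rw [disjoint_left]
        intro k hk hk'
        simp only [mem_sdiff, mem_inter] at hk hk'
        exact hk.2 hk'.2
      have d2 : Disjoint (T₀ \ T) (T ∩ T₀) := by
        rw [disjoint_left]
        intro k hk hk'
        simp only [mem_sdiff, mem_inter] at hk hk'
        exact hk.2 hk'.1
      have d3 : Disjoint (T \ T₀) (T₀ \ T) := by
        rw [disjoint_left]
        intro k hk hk'
        simp only [mem_sdiff] at hk hk'
        exact hk.2 hk'.1
      have e3 : symmDiff T T₀ = (T \ T₀) ∪ (T₀ \ T) := rfl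
      have s1 : ∑ k ∈ T, v k = ∑ k ∈ T \ T₀, v k + ∑ k ∈ T ∩ T₀, v k := by
        rw [← sum_union d1, ← e1]
      have s2 : ∑ k ∈ T₀, v k = ∑ k ∈ T₀ \ T, v k + ∑ k ∈ T ∩ T₀, v k := by
        rw [← sum_union d2, ← e2]
      rw [s1, s2, e3, sum_union d3]
      abel
    rw [h2, add_zero, hc T hT, hc T₀ h0, h2] at h3
    exact h3

/-! ## The inputs which are rejected through a gate -/

section

variable {D : Circuit V s} {e : Fin m → V} {pt : Finset (Fin m) → V → Bool} {d : ℕ}

open Classical in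
private noncomputable def Sg (D : Circuit V s) (pt : Finset (Fin m) → V → Bool) (g : Fin s) :
    Finset (Finset (Fin m)) :=
  univ.filter fun X => Rch D (pt X) g ∧ ev D (pt X) g = false

private theorem mem_Sg {g : Fin s} {X : Finset (Fin m)} :
    X ∈ Sg D pt g ↔ Rch D (pt X) g ∧ ev D (pt X) g = false := by
  simp only [Sg, mem_filter, mem_univ, true_and]

/-- exchange of the part below `g` -/
private theorem mix [BEq V] [LawfulBEq V]
    (h1 : ∀ i L, Tree D D.out L → L.count (e i) ≤ 1)
    (hpt : ∀ X X' v, pt X v ≠ pt X' v → ∃ i, v = e i ∧ ¬ (i ∈ X ↔ i ∈ X'))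
    {g : Fin s} {X X' Y : Finset (Fin m)} (hX : X ∈ Sg D pt g) (hX' : X' ∈ Sg D pt g)
    (ho : ∀ k, k ∉ W D e g → (k ∈ X ↔ k ∈ Y)) (hi : ∀ k ∈ W D e g, (k ∈ X' ↔ k ∈ Y)) :
    ¬ D.Accepts (pt Y) := by
  refine ev_out.1 (rch_false (rch_congr h1 hpt (mem_Sg.1 hX).1 ho) ?_)
  rw [← (mem_Sg.1 hX').2]
  exact (ev_congr hpt hi).symm

open Classical in
private theorem PA_le [BEq V] [LawfulBEq V]
    (h1 : ∀ i L, Tree D D.out L → L.count (e i) ≤ 1)
    (hpt : ∀ X X' v, pt X v ≠ pt X' v → ∃ i, v = e i ∧ ¬ (i ∈ X ↔ i ∈ X'))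
    {v : Fin m → Fin d → ZMod 2} {b : Fin d → ZMod 2}
    (hD : ∀ X, ¬ D.Accepts (pt X) → ∑ i ∈ X, v i = b) (g : Fin s) :
    ((Sg D pt g).image fun X => X \ W D e g).card ≤ ker v (W D e g)ᶜ := by
  rcases (Sg D pt g).eq_empty_or_nonempty with h0 | ⟨X₀, h0⟩
  · rw [h0]
    exact Nat.zero_le _
  refine fiber_le v _ (b - ∑ k ∈ X₀ ∩ W D e g, v k) _ (fun T hT => ?_) fun T hT => ?_
  · obtain ⟨X, -, rfl⟩ := mem_image.1 hT
    intro k hk
    exact mem_compl.2 (mem_sdiff.1 hk).2
  · obtain ⟨X, hX, rfl⟩ := mem_image.1 hT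
    have h2 := hD ((X \ W D e g) ∪ (X₀ ∩ W D e g)) (mix h1 hpt hX h0 (fun k hk => by
      simp only [mem_union, mem_sdiff, mem_inter]
      tauto) fun k hk => by
      simp only [mem_union, mem_sdiff, mem_inter]
      tauto)
    rw [sum_union (by
      rw [disjoint_left]
      intro k hk hk'
      simp only [mem_sdiff, mem_inter] at hk hk'
      exact hk.2 hk'.2)] at h2
    rw [← h2]
    abel

open Classical in
private theorem PB_le [BEq V] [LawfulBEq V]
    (h1 : ∀ i L, Tree D D.out L → L.count (e i) ≤ 1)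
    (hpt : ∀ X X' v, pt X v ≠ pt X' v → ∃ i, v = e i ∧ ¬ (i ∈ X ↔ i ∈ X'))
    {v : Fin m → Fin d → ZMod 2} {b : Fin d → ZMod 2}
    (hD : ∀ X, ¬ D.Accepts (pt X) → ∑ i ∈ X, v i = b) (g : Fin s) :
    ((Sg D pt g).image fun X => X ∩ W D e g).card ≤ ker v (W D e g) := by
  rcases (Sg D pt g).eq_empty_or_nonempty with h0 | ⟨X₀, h0⟩
  · rw [h0]
    exact Nat.zero_le _
  refine fiber_le v _ (b - ∑ k ∈ X₀ \ W D e g, v k) _ (fun T hT => ?_) fun T hT => ?_
  · obtain ⟨X, -, rfl⟩ := mem_image.1 hT
    exact inter_subset_right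
  · obtain ⟨X, hX, rfl⟩ := mem_image.1 hT
    have h2 := hD ((X₀ \ W D e g) ∪ (X ∩ W D e g)) (mix h1 hpt h0 hX (fun k hk => by
      simp only [mem_union, mem_sdiff, mem_inter]
      tauto) fun k hk => by
      simp only [mem_union, mem_sdiff, mem_inter]
      tauto)
    rw [sum_union (by
      rw [disjoint_left]
      intro k hk hk'
      simp only [mem_sdiff, mem_inter] at hk hk'
      exact hk.2 hk'.2)] at h2
    rw [← h2]
    abel

open Classical in
/-- counting by three parts -/
private theorem cnt3 (G I J : Finset (Fin m)) (hG : G = I ∪ J) (S : Finset (Finset (Fin m)))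
    (A B B' : Finset (Finset (Fin m))) (hA : ∀ X ∈ S, X \ G ∈ A) (hB : ∀ X ∈ S, X ∩ I ∈ B)
    (hB' : ∀ X ∈ S, X ∩ J ∈ B') : S.card ≤ A.card * (B.card * B'.card) := by
  rw [← card_product, ← card_product]
  refine card_le_card_of_injOn (fun X => (X \ G, X ∩ I, X ∩ J)) (fun X hX => ?_)
    fun X hX X' hX' hXX => ?_
  · exact mem_coe.2 (mem_product.2 ⟨hA X hX, mem_product.2 ⟨hB X hX, hB' X hX⟩⟩)
  · have h6 : X \ G = X' \ G := congrArg Prod.fst hXX
    have h7 : X ∩ I = X' ∩ I := congrArg (fun p => p.2.1) hXX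
    have h8 : X ∩ J = X' ∩ J := congrArg (fun p => p.2.2) hXX
    subst hG
    ext k
    have e1 := Finset.ext_iff.1 h6 k
    have e2 := Finset.ext_iff.1 h7 k
    have e3 := Finset.ext_iff.1 h8 k
    simp only [mem_sdiff, mem_inter, mem_union] at e1 e2 e3
    tauto

open Classical in
/-- the inputs rejected through `g` and its child `i` -/
private theorem two_le [BEq V] [LawfulBEq V]
    (h1 : ∀ i L, Tree D D.out L → L.count (e i) ≤ 1)
    (hpt : ∀ X X' v, pt X v ≠ pt X' v → ∃ i, v = e i ∧ ¬ (i ∈ X ↔ i ∈ X'))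
    {v : Fin m → Fin d → ZMod 2} {b : Fin d → ZMod 2}
    (hD : ∀ X, ¬ D.Accepts (pt X) → ∑ i ∈ X, v i = b) (g i : Fin s)
    (hW : W D e i ⊆ W D e g) (hgi : ∀ x, Rch D x g → Rch D x i) :
    (Sg D pt g ∩ Sg D pt i).card ≤
      ker v (W D e g)ᶜ * (ker v (W D e i) * zer v (W D e g \ W D e i)) := by
  rcases (Sg D pt g ∩ Sg D pt i).eq_empty_or_nonempty with h0 | ⟨X₀, h0⟩
  · rw [h0]
    exact Nat.zero_le _
  obtain ⟨hg0, hi0⟩ := mem_inter.1 h0
  -- all inputs which agree with `X₀` outside `W g` and on `W i` are rejected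
  have hrej : ∀ Y : Finset (Fin m), (∀ k, k ∉ W D e g → (k ∈ X₀ ↔ k ∈ Y)) →
      (∀ k ∈ W D e i, (k ∈ X₀ ↔ k ∈ Y)) → ∑ k ∈ Y, v k = b := by
    intro Y ho hi
    refine hD Y (ev_out.1 (rch_false (hgi _ (rch_congr h1 hpt (mem_Sg.1 hg0).1 ho)) ?_))
    rw [← (mem_Sg.1 hi0).2]
    exact (ev_congr hpt hi).symm
  have hz : ∀ k ∈ W D e g \ W D e i, v k = 0 := by
    intro k hk
    rw [mem_sdiff] at hk
    have h2 := hrej (X₀.erase k) (fun k' hk' => by
      rw [mem_erase]
      exact ⟨fun h => ⟨fun hc => hk' (hc ▸ hk.1), h⟩, fun h => h.2⟩) (fun k' hk' => by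
      rw [mem_erase]
      exact ⟨fun h => ⟨fun hc => hk.2 (hc ▸ hk'), h⟩, fun h => h.2⟩)
    have h3 := hrej (insert k (X₀.erase k)) (fun k' hk' => by
      rw [mem_insert, mem_erase]
      constructor
      · exact fun h => .inr ⟨fun hc => hk' (hc ▸ hk.1), h⟩
      · rintro (rfl | h)
        · exact absurd hk.1 hk'
        · exact h.2) (fun k' hk' => by
      rw [mem_insert, mem_erase]
      constructor
      · exact fun h => .inr ⟨fun hc => hk.2 (hc ▸ hk'), h⟩
      · rintro (rfl | h)
        · exact absurd hk' hk.2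
        · exact h.2)
    rw [sum_insert (notMem_erase k X₀), h2] at h3
    exact add_eq_right.1 h3
  have h2 := cnt3 (W D e g) (W D e i) (W D e g \ W D e i)
    (by rw [union_sdiff_of_subset hW]) (Sg D pt g ∩ Sg D pt i)
    ((Sg D pt g).image fun X => X \ W D e g) ((Sg D pt i).image fun X => X ∩ W D e i)
    (W D e g \ W D e i).powerset
    (fun X hX => mem_image.2 ⟨X, (mem_inter.1 hX).1, rfl⟩)
    (fun X hX => mem_image.2 ⟨X, (mem_inter.1 hX).2, rfl⟩)
    (fun X _ => mem_powerset.2 inter_subset_right)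
  refine h2.trans (Nat.mul_le_mul (PA_le h1 hpt hD g) (Nat.mul_le_mul (PB_le h1 hpt hD i) ?_))
  rw [card_powerset, zer, if_pos hz]

/-! ## The walk -/

open Classical in
/-- the bound for the gate `g` -/
private noncomputable def Kg (D : Circuit V s) (e : Fin m → V) (d : ℕ)
    (v : Fin m → Fin d → ZMod 2) (g : Fin s) : ℕ :=
  match D.gate g with
  | .lit _ _ => 0
  | .and i j =>
    (if d < (W D e g).card ∧ (W D e i).card ≤ d then
      ker v (W D e g)ᶜ * (ker v (W D e i) * zer v (W D e g \ W D e i)) else 0) +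
    (if d < (W D e g).card ∧ (W D e j).card ≤ d then
      ker v (W D e g)ᶜ * (ker v (W D e j) * zer v (W D e g \ W D e j)) else 0)
  | .or i j =>
    if d < (W D e g).card ∧ (W D e i).card ≤ d ∧ (W D e j).card ≤ d ∧
        Disjoint (W D e i) (W D e j) then
      ker v (W D e g)ᶜ * (ker v (W D e i) * ker v (W D e j)) else 0

/-- the input `X` ends at the gate `g` -/
private def Tm (D : Circuit V s) (e : Fin m → V) (pt : Finset (Fin m) → V → Bool) (d : ℕ)
    (g : Fin s) (X : Finset (Fin m)) : Prop :=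
  X ∈ Sg D pt g ∧ d < (W D e g).card ∧
    ((∃ i j, D.gate g = .and i j ∧ ((X ∈ Sg D pt i ∧ (W D e i).card ≤ d) ∨
      (X ∈ Sg D pt j ∧ (W D e j).card ≤ d))) ∨
    ∃ i j, D.gate g = .or i j ∧ (W D e i).card ≤ d ∧ (W D e j).card ≤ d)

private theorem ends (he : Function.Injective e) (hd : 1 ≤ d) {X : Finset (Fin m)}
    (g : Fin s) (hX : X ∈ Sg D pt g) (hg : d < (W D e g).card) : ∃ g', Tm D e pt d g' X := by
  induction g using WellFoundedLT.induction with
  | ind g ih =>
    have hX' := mem_Sg.1 hX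
    rcases hgt : D.gate g with ⟨v, b⟩ | ⟨i, j⟩ | ⟨i, j⟩
    · exfalso
      have hW : (W D e g).card ≤ 1 := by
        rw [card_le_one]
        intro a ha b hb
        exact he (((W_lit hgt a).1 ha).trans ((W_lit hgt b).1 hb).symm)
      omega
    · have h1 := D.and_lt g i j hgt
      have hf := hX'.2
      rw [ev_and hgt, Bool.and_eq_false_iff] at hf
      rcases hf with hf | hf
      · have h2 : X ∈ Sg D pt i := mem_Sg.2 ⟨.andl g i j hgt hX'.1, hf⟩
        rcases Nat.lt_or_ge d (W D e i).card with h3 | h3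
        · exact ih i h1.1 h2 h3
        · exact ⟨g, hX, hg, .inl ⟨i, j, hgt, .inl ⟨h2, h3⟩⟩⟩
      · have h2 : X ∈ Sg D pt j := mem_Sg.2 ⟨.andr g i j hgt hX'.1, hf⟩
        rcases Nat.lt_or_ge d (W D e j).card with h3 | h3
        · exact ih j h1.2 h2 h3
        · exact ⟨g, hX, hg, .inl ⟨i, j, hgt, .inr ⟨h2, h3⟩⟩⟩
    · have h1 := D.or_lt g i j hgt
      have hf := hX'.2
      rw [ev_or hgt, Bool.or_eq_false_iff] at hf
      have h2 : X ∈ Sg D pt i := mem_Sg.2 ⟨.orl g i j hgt hf.2 hX'.1, hf.1⟩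
      have h3 : X ∈ Sg D pt j := mem_Sg.2 ⟨.orr g i j hgt hf.1 hX'.1, hf.2⟩
      rcases Nat.lt_or_ge d (W D e i).card with h4 | h4
      · exact ih i h1.1 h2 h4
      · rcases Nat.lt_or_ge d (W D e j).card with h5 | h5
        · exact ih j h1.2 h3 h5
        · exact ⟨g, hX, hg, .inr ⟨i, j, hgt, h4, h5⟩⟩

open Classical in
private theorem Kg_le [BEq V] [LawfulBEq V]
    (h1 : ∀ i L, Tree D D.out L → L.count (e i) ≤ 1)
    (hpt : ∀ X X' v, pt X v ≠ pt X' v → ∃ i, v = e i ∧ ¬ (i ∈ X ↔ i ∈ X'))
    {v : Fin m → Fin d → ZMod 2} {b : Fin d → ZMod 2}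
    (hD : ∀ X, ¬ D.Accepts (pt X) → ∑ i ∈ X, v i = b) (g : Fin s) :
    (univ.filter (Tm D e pt d g)).card ≤ Kg D e d v g := by
  rcases (univ.filter (Tm D e pt d g)).eq_empty_or_nonempty with h0 | ⟨X₀, h0⟩
  · rw [h0]
    exact Nat.zero_le _
  obtain ⟨hS, hbig, hT⟩ := (mem_filter.1 h0).2
  rcases hgt : D.gate g with ⟨x, y⟩ | ⟨i, j⟩ | ⟨i, j⟩
  · exfalso
    rcases hT with ⟨i, j, h2, -⟩ | ⟨i, j, h2, -⟩ <;> rw [hgt] at h2 <;> cases h2
  · have hi := two_le (d := d) h1 hpt hD g i (by rw [W_and hgt]; exact subset_union_left)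
      fun x hx => .andl g i j hgt hx
    have hj := two_le (d := d) h1 hpt hD g j (by rw [W_and hgt]; exact subset_union_right)
      fun x hx => .andr g i j hgt hx
    have hsub : univ.filter (Tm D e pt d g) ⊆
        (if (W D e i).card ≤ d then Sg D pt g ∩ Sg D pt i else ∅) ∪
        (if (W D e j).card ≤ d then Sg D pt g ∩ Sg D pt j else ∅) := by
      intro X hX
      obtain ⟨k1, -, k2⟩ := (mem_filter.1 hX).2
      rw [mem_union]
      rcases k2 with ⟨i', j', h2, h3⟩ | ⟨i', j', h2, -⟩
      · rw [hgt] at h2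
        cases h2
        rcases h3 with ⟨h3, h4⟩ | ⟨h3, h4⟩
        · left
          rw [if_pos h4]
          exact mem_inter.2 ⟨k1, h3⟩
        · right
          rw [if_pos h4]
          exact mem_inter.2 ⟨k1, h3⟩
      · rw [hgt] at h2
        cases h2
    refine (card_le_card hsub).trans ((card_union_le _ _).trans ?_)
    have e1 : Kg D e d v g = (if d < (W D e g).card ∧ (W D e i).card ≤ d then
        ker v (W D e g)ᶜ * (ker v (W D e i) * zer v (W D e g \ W D e i)) else 0) +
      (if d < (W D e g).card ∧ (W D e j).card ≤ d then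
        ker v (W D e g)ᶜ * (ker v (W D e j) * zer v (W D e g \ W D e j)) else 0) := by
      unfold Kg
      rw [hgt]
    rw [e1]
    refine Nat.add_le_add ?_ ?_
    · split_ifs with h2 h3 h3
      · exact hi
      · exact absurd ⟨hbig, h2⟩ h3
      · exact absurd h3.2 h2
      · exact Nat.zero_le _
    · split_ifs with h2 h3 h3
      · exact hj
      · exact absurd ⟨hbig, h2⟩ h3
      · exact absurd h3.2 h2
      · exact Nat.zero_le _
  · obtain ⟨h2, h3⟩ : (W D e i).card ≤ d ∧ (W D e j).card ≤ d := by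
      rcases hT with ⟨i', j', h2, -⟩ | ⟨i', j', h2, h3⟩
      · rw [hgt] at h2
        cases h2
      · rw [hgt] at h2
        cases h2
        exact h3
    have hdis := or_disj h1 (mem_Sg.1 hS).1 hgt
    have e1 : Kg D e d v g = if d < (W D e g).card ∧ (W D e i).card ≤ d ∧ (W D e j).card ≤ d ∧
        Disjoint (W D e i) (W D e j) then
      ker v (W D e g)ᶜ * (ker v (W D e i) * ker v (W D e j)) else 0 := by
      unfold Kg
      rw [hgt]
    rw [e1, if_pos ⟨hbig, h2, h3, hdis⟩]
    have hch : ∀ X ∈ univ.filter (Tm D e pt d g), X ∈ Sg D pt g ∧ X ∈ Sg D pt i ∧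
        X ∈ Sg D pt j := by
      intro X hX
      have k1 := (mem_filter.1 hX).2.1
      have k2 := mem_Sg.1 k1
      have hf := k2.2
      rw [ev_or hgt, Bool.or_eq_false_iff] at hf
      exact ⟨k1, mem_Sg.2 ⟨.orl g i j hgt hf.2 k2.1, hf.1⟩,
        mem_Sg.2 ⟨.orr g i j hgt hf.1 k2.1, hf.2⟩⟩
    refine (cnt3 (W D e g) (W D e i) (W D e j) (W_or hgt) (univ.filter (Tm D e pt d g))
      ((Sg D pt g).image fun X => X \ W D e g) ((Sg D pt i).image fun X => X ∩ W D e i)
      ((Sg D pt j).image fun X => X ∩ W D e j)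
      (fun X hX => mem_image.2 ⟨X, (hch X hX).1, rfl⟩)
      (fun X hX => mem_image.2 ⟨X, (hch X hX).2.1, rfl⟩)
      (fun X hX => mem_image.2 ⟨X, (hch X hX).2.2, rfl⟩)).trans
      (Nat.mul_le_mul (PA_le h1 hpt hD g)
        (Nat.mul_le_mul (PB_le h1 hpt hD i) (PB_le h1 hpt hD j)))

private theorem Kg_avg (hd : 1 ≤ d) (hmd : m ≤ 2 * d + 1) (g : Fin s) :
    ∑ v : Fin m → Fin d → ZMod 2, Kg D e d v g ≤ 8 * 2 ^ (d * m) := by
  have hcompl : d < (W D e g).card → ((W D e g)ᶜ).card ≤ d := by
    intro h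
    rw [card_compl, Fintype.card_fin]
    omega
  rcases hgt : D.gate g with ⟨x, y⟩ | ⟨i, j⟩ | ⟨i, j⟩
  · have e1 : ∀ v : Fin m → Fin d → ZMod 2, Kg D e d v g = 0 := by
      intro v
      unfold Kg
      rw [hgt]
    rw [sum_congr rfl fun v _ => e1 v, sum_const_zero]
    exact Nat.zero_le _
  · have hside : ∀ i, W D e i ⊆ W D e g →
        ∑ v : Fin m → Fin d → ZMod 2, (if d < (W D e g).card ∧ (W D e i).card ≤ d then
          ker v (W D e g)ᶜ * (ker v (W D e i) * zer v (W D e g \ W D e i)) else 0) ≤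
          4 * 2 ^ (d * m) := by
      intro i hi
      split_ifs with h2
      · have h3 := avgF (I := Fin m) (d := d) hd (W D e g)ᶜ (W D e i) (W D e g \ W D e i)
          (disjoint_left.2 fun k hk hk' => mem_compl.1 hk (hi hk'))
          (disjoint_left.2 fun k hk hk' => mem_compl.1 hk (mem_sdiff.1 hk').1)
          (disjoint_left.2 fun k hk hk' => (mem_sdiff.1 hk').2 hk) (hcompl h2.1) h2.2
        rwa [Fintype.card_fin] at h3
      · rw [sum_const_zero]
        exact Nat.zero_le _
    have e1 : ∀ v : Fin m → Fin d → ZMod 2, Kg D e d v g =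
        (if d < (W D e g).card ∧ (W D e i).card ≤ d then
          ker v (W D e g)ᶜ * (ker v (W D e i) * zer v (W D e g \ W D e i)) else 0) +
        (if d < (W D e g).card ∧ (W D e j).card ≤ d then
          ker v (W D e g)ᶜ * (ker v (W D e j) * zer v (W D e g \ W D e j)) else 0) := by
      intro v
      unfold Kg
      rw [hgt]
    rw [sum_congr rfl fun v _ => e1 v, sum_add_distrib]
    have h2 := hside i (by rw [W_and hgt]; exact subset_union_left)
    have h3 := hside j (by rw [W_and hgt]; exact subset_union_right)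
    omega
  · have e1 : ∀ v : Fin m → Fin d → ZMod 2, Kg D e d v g =
        if d < (W D e g).card ∧ (W D e i).card ≤ d ∧ (W D e j).card ≤ d ∧
          Disjoint (W D e i) (W D e j) then
        ker v (W D e g)ᶜ * (ker v (W D e i) * ker v (W D e j)) else 0 := by
      intro v
      unfold Kg
      rw [hgt]
    rw [sum_congr rfl fun v _ => e1 v]
    split_ifs with h2
    · have h3 := avg3 (I := Fin m) (d := d) (W D e g)ᶜ (W D e i) (W D e j)
        (disjoint_left.2 fun k hk hk' => mem_compl.1 hk (by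
          rw [W_or hgt]
          exact mem_union_left _ hk'))
        (disjoint_left.2 fun k hk hk' => mem_compl.1 hk (by
          rw [W_or hgt]
          exact mem_union_right _ hk'))
        h2.2.2.2 (hcompl h2.1) h2.2.1 h2.2.2.1
      rwa [Fintype.card_fin] at h3
    · rw [sum_const_zero]
      exact Nat.zero_le _

end

open Classical in
/-- **The walk, with means.** -/
theorem walkS {V : Type} [BEq V] [LawfulBEq V] {s m d : ℕ} (D : Circuit V s) (e : Fin m → V)
    (he : Function.Injective e) (h1 : ∀ i L, Tree D D.out L → L.count (e i) ≤ 1) (hd : 1 ≤ d)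
    (hmd : m ≤ 2 * d + 1) :
    ∃ K : (Fin m → Fin d → ZMod 2) → ℕ, ∑ v, K v ≤ 8 * s * 2 ^ (d * m) ∧
      ∀ (v : Fin m → Fin d → ZMod 2) (b : Fin d → ZMod 2) (p : Finset (Fin m) → V → Bool),
        (∀ X X' f, p X f ≠ p X' f → ∃ i, f = e i ∧ ¬ (i ∈ X ↔ i ∈ X')) →
        (∀ X, ¬ D.Accepts (p X) → ∑ i ∈ X, v i = b) →
        (univ.filter fun X => ¬ D.Accepts (p X)).card ≤ K v := by
  have hs : 1 ≤ s := Nat.one_le_iff_ne_zero.2 fun h => (h ▸ D.out).elim0
  rcases Nat.lt_or_ge d (W D e D.out).card with hout | hout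
  · refine ⟨fun v => ∑ g, Kg D e d v g, ?_, fun v b p hp hD => ?_⟩
    · rw [sum_comm]
      refine (sum_le_sum fun g _ => Kg_avg hd hmd g).trans ?_
      rw [sum_const, card_univ, Fintype.card_fin, smul_eq_mul]
      exact le_of_eq (by ring)
    · have hsub : (univ.filter fun X => ¬ D.Accepts (p X)) ⊆
          univ.biUnion fun g => univ.filter (Tm D e p d g) := by
        intro X hX
        have h2 := ev_out.2 (mem_filter.1 hX).2
        obtain ⟨g, hg⟩ := ends he hd D.out (mem_Sg.2 ⟨.out, h2⟩) hout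
        exact mem_biUnion.2 ⟨g, mem_univ _, mem_filter.2 ⟨mem_univ _, hg⟩⟩
      exact (card_le_card hsub).trans (card_biUnion_le.trans
        (sum_le_sum fun g _ => Kg_le h1 hp hD g))
  · refine ⟨fun v => ker v ∅ * (ker v (W D e D.out) * zer v (W D e D.out)ᶜ), ?_,
      fun v b p hp hD => ?_⟩
    · have h3 := avgF (I := Fin m) (d := d) hd ∅ (W D e D.out) (W D e D.out)ᶜ
        (disjoint_empty_left _) (disjoint_empty_left _)
        (disjoint_left.2 fun k hk hk' => mem_compl.1 hk' hk) (by simp) hout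
      rw [Fintype.card_fin] at h3
      refine h3.trans ?_
      exact Nat.mul_le_mul_right _ (by omega)
    · rcases (univ.filter fun X => ¬ D.Accepts (p X)).eq_empty_or_nonempty with h0 | ⟨X₀, h0⟩
      · rw [h0]
        exact Nat.zero_le _
      have hX0 := ev_out.2 (mem_filter.1 h0).2
      have hrej : ∀ Y : Finset (Fin m), (∀ k ∈ W D e D.out, (k ∈ X₀ ↔ k ∈ Y)) →
          ∑ k ∈ Y, v k = b := by
        intro Y hi
        refine hD Y (ev_out.1 ?_)
        rw [← hX0]
        exact (ev_congr hp hi).symm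
      have hz : ∀ k ∈ (W D e D.out)ᶜ, v k = 0 := by
        intro k hk
        rw [mem_compl] at hk
        have h2 := hrej (X₀.erase k) (fun k' hk' => by
          rw [mem_erase]
          exact ⟨fun h => ⟨fun hc => hk (hc ▸ hk'), h⟩, fun h => h.2⟩)
        have h3 := hrej (insert k (X₀.erase k)) (fun k' hk' => by
          rw [mem_insert, mem_erase]
          constructor
          · exact fun h => .inr ⟨fun hc => hk (hc ▸ hk'), h⟩
          · rintro (rfl | h)
            · exact absurd hk' hk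
            · exact h.2)
        rw [sum_insert (notMem_erase k X₀), h2] at h3
        exact add_eq_right.1 h3
      have hsub : ∀ X ∈ (univ.filter fun X => ¬ D.Accepts (p X)), X ∈ Sg D p D.out := fun X hX =>
        mem_Sg.2 ⟨.out, ev_out.2 (mem_filter.1 hX).2⟩
      have h2 := cnt3 univ (W D e D.out) (W D e D.out)ᶜ (by simp)
        (univ.filter fun X => ¬ D.Accepts (p X)) {∅}
        ((Sg D p D.out).image fun X => X ∩ W D e D.out) ((W D e D.out)ᶜ).powerset
        (fun X _ => by simp) (fun X hX => mem_image.2 ⟨X, hsub X hX, rfl⟩)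
        (fun X _ => mem_powerset.2 inter_subset_right)
      refine h2.trans (Nat.mul_le_mul ?_ (Nat.mul_le_mul (PB_le h1 hp hD D.out) ?_))
      · rw [card_singleton, ker]
        refine card_pos.2 ⟨∅, mem_filter.2 ⟨by simp, by simp⟩⟩
      · rw [card_powerset, zer, if_pos hz]

end Pool.Agent.MV
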