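import Mathlib
import Pool.Agent.Lib.MP_b573ec_lc_MV.Low1
import Pool.Agent.Lib.MP_b573ec_lc_MV.WalkS

/-!
# Matrix times vector: the exact exponent for circuits which read some bits once
-/

set_option autoImplicit false

namespace Pool.Agent.MV

open Finset Pool.Agent.FP Pool.Agent.RT

open Classical in
private theorem sum_single {I : Type} [Fintype I] [DecidableEq I] {d : ℕ}
    (R : (I → Fin d → ZMod 2) → (Fin d → ZMod 2) → Finset I → Prop)
    (K : (I → Fin d → ZMod 2) → ℕ)
    (hK : ∀ v b, (univ.filter fun X : Finset I => R v b X).card ≤ K v) :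
    (univ.filter fun p : (I → Fin d → ZMod 2) × Finset I =>
      R p.1 (∑ k ∈ p.2, p.1 k) p.2).card ≤ 2 ^ d * ∑ v, K v := by
  have h1 : (univ.filter fun p : (I → Fin d → ZMod 2) × Finset I =>
      R p.1 (∑ k ∈ p.2, p.1 k) p.2).card = ∑ v : I → Fin d → ZMod 2,
        (univ.filter fun X : Finset I => R v (∑ k ∈ X, v k) X).card := by
    rw [card_filter, Fintype.sum_prod_type]
    refine sum_congr rfl fun v _ => ?_
    rw [card_filter]
  rw [h1, mul_sum]
  refine sum_le_sum fun v _ => ?_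
  have h3 : (univ.filter fun X : Finset I => R v (∑ k ∈ X, v k) X) ⊆
      (univ : Finset (Fin d → ZMod 2)).biUnion fun b =>
        univ.filter fun X : Finset I => R v b X := by
    intro X hX
    exact mem_biUnion.2 ⟨_, mem_univ _, mem_filter.2 ⟨mem_univ _, (mem_filter.1 hX).2⟩⟩
  refine (card_le_card h3).trans (card_biUnion_le.trans ?_)
  refine (sum_le_sum fun b _ => hK v b).trans ?_
  rw [sum_const, card_univ, smul_eq_mul]
  refine le_of_eq ?_
  congr 1
  simp [ZMod.card]

private theorem num {m m' d : ℕ} (hm' : m = m' + 1) (hd : d = m' / 2) :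
    8 * (2 : ℝ) ^ d / 2 ^ m' ≤ 12 / (2 : ℝ) ^ ((m : ℝ) / 2) := by
  have hdR : (d : ℝ) ≤ m' / 2 := by
    rw [hd]
    exact Nat.cast_div_le
  have hm : (m : ℝ) = m' + 1 := by
    rw [hm']
    push_cast
    ring
  rw [div_le_div_iff₀ (by positivity) (by positivity)]
  have h1 : (2 : ℝ) ^ d * (2 : ℝ) ^ ((m : ℝ) / 2) ≤ (2 : ℝ) ^ m' * (2 : ℝ) ^ ((1 : ℝ) / 2) := by
    rw [← Real.rpow_natCast (2 : ℝ) d, ← Real.rpow_natCast (2 : ℝ) m',
      ← Real.rpow_add (by norm_num), ← Real.rpow_add (by norm_num)]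
    refine Real.rpow_le_rpow_of_exponent_le (by norm_num) ?_
    rw [hm]
    linarith
  have h2 : (2 : ℝ) ^ ((1 : ℝ) / 2) ≤ 3 / 2 := by
    rw [← Real.sqrt_eq_rpow, show (3 : ℝ) / 2 = Real.sqrt ((3 / 2) ^ 2) by
      rw [Real.sqrt_sq (by norm_num)]]
    exact Real.sqrt_le_sqrt (by norm_num)
  have h3 : (0 : ℝ) < (2 : ℝ) ^ m' := by positivity
  nlinarith

open Classical in
/-- **Reading `m` given bits of `x` once.** -/
theorem once {n m : ℕ} (E : Finset (Fin n)) (hE : m ≤ E.card) :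
    ∃ (N : ℕ) (Q : Fin N → Bit n → Bool), 0 < N ∧ (∀ i, ¬ MulNe (Q i)) ∧
      ∀ (u t : ℕ) (g : Fin t → (Bit n → Bool) → (Fin u → Bool) → Bool),
        (∀ j z z' w, (∀ f, (∀ i ∈ E, f ≠ Sum.inl i) → z f = z' f) → g j z w = g j z' w) →
      ∀ (s : ℕ) (D : Circuit (Bit n ⊕ Fin t) s),
        (∀ (z : Bit n → Bool) (w : Fin u → Bool), MulNe z →
          D.Accepts (Sum.elim z fun j => g j z w)) →
        (∀ i ∈ E, ∀ L, Tree D D.out L → L.count (Sum.inl (Sum.inl i)) ≤ 1) →
        ((univ.filter fun p : Fin N × (Fin u → Bool) =>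
          ¬ D.Accepts (Sum.elim (Q p.1) fun j => g j (Q p.1) p.2)).card : ℝ) ≤
          N * 2 ^ u * (12 * s / (2 : ℝ) ^ ((m : ℝ) / 2)) := by
  by_cases hm : m < 3
  · -- the bound is trivial
    refine ⟨1, fun _ _ => false, one_pos, ?_, ?_⟩
    · rintro _ ⟨i, hi⟩
      simp at hi
    · intro u t g _ s D _ _
      have hs : 1 ≤ s := Nat.one_le_iff_ne_zero.2 fun h => (h ▸ D.out).elim0
      have hsR : (1 : ℝ) ≤ s := by exact_mod_cast hs
      have h1 : ((univ.filter fun p : Fin 1 × (Fin u → Bool) =>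
          ¬ D.Accepts (Sum.elim ((fun _ _ => false : Fin 1 → Bit n → Bool) p.1)
            fun j => g j ((fun _ _ => false : Fin 1 → Bit n → Bool) p.1) p.2)).card : ℝ) ≤
          2 ^ u := by
        have := card_le_univ (univ.filter fun p : Fin 1 × (Fin u → Bool) =>
          ¬ D.Accepts (Sum.elim ((fun _ _ => false : Fin 1 → Bit n → Bool) p.1)
            fun j => g j ((fun _ _ => false : Fin 1 → Bit n → Bool) p.1) p.2))
        rw [Fintype.card_prod, Fintype.card_fin, Fintype.card_fun, Fintype.card_bool,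
          Fintype.card_fin, one_mul] at this
        exact_mod_cast this
      refine h1.trans ?_
      have hmR : (m : ℝ) ≤ 2 := by
        have : m ≤ 2 := by omega
        exact_mod_cast this
      have h2 : (2 : ℝ) ^ ((m : ℝ) / 2) ≤ 2 := by
        calc (2 : ℝ) ^ ((m : ℝ) / 2) ≤ (2 : ℝ) ^ (1 : ℝ) :=
              Real.rpow_le_rpow_of_exponent_le (by norm_num) (by linarith)
          _ = 2 := Real.rpow_one 2
      have h3 : (1 : ℝ) ≤ 12 * s / (2 : ℝ) ^ ((m : ℝ) / 2) := by
        rw [le_div_iff₀ (by positivity)]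
        linarith
      have h4 : (0 : ℝ) < 2 ^ u := by positivity
      push_cast
      nlinarith
  push Not at hm
  obtain ⟨m', hm'⟩ : ∃ m', m = m' + 1 := ⟨m - 1, by omega⟩
  obtain ⟨d, hd⟩ : ∃ d, d = m' / 2 := ⟨_, rfl⟩
  obtain ⟨e, i₀, he, heE, -, hi⟩ := pick (m := m') E (hm' ▸ hE)
  have hdn : d ≤ n := by
    have h1 : E.card ≤ n := by simpa using card_le_univ E
    omega
  let ι : Type := (Fin m' → Fin d → ZMod 2) × Finset (Fin m')
  have hιc : Fintype.card ι = 2 ^ (d * m') * 2 ^ m' := by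
    simp [ι, ZMod.card, ← pow_mul]
  let φ : Fin (Fintype.card ι) ≃ ι := (Fintype.equivFin ι).symm
  let q : ι → Bit n → Bool := fun p => pt e i₀ p.1 (∑ k ∈ p.2, p.1 k) p.2
  refine ⟨Fintype.card ι, fun i => q (φ i), ?_, fun i h => ?_, ?_⟩
  · rw [hιc]
    positivity
  · exact (mulNe_pt he hi hdn _ _ _).1 h rfl
  intro u t g hg s D hD hread
  obtain ⟨K, hK1, hK2⟩ := @walkS (Bit n ⊕ Fin t) instBEqOfDecidableEq _ s m' d D
    (fun k => Sum.inl (Sum.inl (e k)))
    (fun i j h => he (Sum.inl_injective (Sum.inl_injective h)))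
    (fun k L hL => (count_bit _ L).le.trans (hread _ (heE k) L hL)) (by omega) (by omega)
  -- one `w`
  have key : ∀ w : Fin u → Bool, ((univ.filter fun i : Fin (Fintype.card ι) =>
      ¬ D.Accepts (Sum.elim (q (φ i)) fun j => g j (q (φ i)) w)).card : ℝ) ≤
        Fintype.card ι * (12 * s / (2 : ℝ) ^ ((m : ℝ) / 2)) := by
    intro w
    have h2 := sum_single (I := Fin m') (d := d)
      (fun v b X => Rej D (Sum.elim (pt e i₀ v b X) fun j => g j (pt e i₀ v b X) w)) K (by
        intro v b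
        have h3 := hK2 v b (fun X => Sum.elim (pt e i₀ v b X) fun j => g j (pt e i₀ v b X) w)
          ?_ ?_
        · refine (card_le_card fun X hX => ?_).trans h3
          have h4 : Rej D _ := (mem_filter.1 hX).2
          exact mem_filter.2 ⟨mem_univ _, h4⟩
        · rintro X X' (f | j) hf
          · obtain ⟨i, rfl, h3⟩ := pt_ne v b X X' f hf
            exact ⟨i, rfl, h3⟩
          · exact absurd (free_eq heE g hg v b X X' w j) hf
        · intro X hX
          by_contra hc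
          exact hX (hD _ _ ((mulNe_pt he hi hdn v b X).2 hc)))
    have h1 : (univ.filter fun i : Fin (Fintype.card ι) =>
        ¬ D.Accepts (Sum.elim (q (φ i)) fun j => g j (q (φ i)) w)).card ≤
        2 ^ d * (8 * s * 2 ^ (d * m')) := by
      refine le_trans (card_le_card_of_injOn φ ?_ fun i _ j _ h => φ.injective h)
        (h2.trans (Nat.mul_le_mul_left _ hK1))
      intro i hi
      have h4 : Rej D _ := (mem_filter.1 (mem_coe.1 hi)).2
      exact mem_coe.2 (mem_filter.2 ⟨mem_univ _, h4⟩)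
    have h4 : ((univ.filter fun i : Fin (Fintype.card ι) =>
        ¬ D.Accepts (Sum.elim (q (φ i)) fun j => g j (q (φ i)) w)).card : ℝ) ≤
        2 ^ d * (8 * s * 2 ^ (d * m')) := by
      exact_mod_cast h1
    have h6 := num hm' hd
    have hιR : (Fintype.card ι : ℝ) = 2 ^ (d * m') * 2 ^ m' := by exact_mod_cast hιc
    rw [hιR]
    calc _ ≤ _ := h4
      _ = (2 ^ (d * m') * 2 ^ m') * (s * (8 * (2 : ℝ) ^ d / 2 ^ m')) := by
          field_simp
      _ ≤ (2 ^ (d * m') * 2 ^ m') * (s * (12 / (2 : ℝ) ^ ((m : ℝ) / 2))) := by gcongr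
      _ = _ := by ring
  have h3 : ((univ.filter fun p : Fin (Fintype.card ι) × (Fin u → Bool) =>
      ¬ D.Accepts (Sum.elim (q (φ p.1)) fun j => g j (q (φ p.1)) p.2)).card : ℝ) =
      ∑ w : Fin u → Bool, ((univ.filter fun i : Fin (Fintype.card ι) =>
        ¬ D.Accepts (Sum.elim (q (φ i)) fun j => g j (q (φ i)) w)).card : ℝ) := by
    rw [card_filter]
    push_cast
    rw [Fintype.sum_prod_type_right]
    refine sum_congr rfl fun w _ => ?_
    rw [card_filter]
    push_cast
    rfl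
  rw [h3]
  refine (sum_le_sum fun w _ => key w).trans (le_of_eq ?_)
  rw [sum_const, card_univ, Fintype.card_fun, Fintype.card_bool, Fintype.card_fin, nsmul_eq_mul]
  push_cast
  ring

end Pool.Agent.MV
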