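import Mathlib
import Pool.Agent.Lib.MP_b573ec_lc_MV.Defs

/-!
# Matrix times vector: elimination by signals
-/

set_option autoImplicit false

namespace Pool.Agent.MV

open Finset

/-- the rows restricted to the columns `e l` -/
def rowE {n m : ℕ} (e : Fin m → Fin n) (x : Bit n → Bool) (i : ℕ) (l : Fin m) : Bool :=
  if h : i < n then x (.inr (⟨i, h⟩, e l)) else false

open Classical in
/-- the contribution of the other columns to the rows -/
noncomputable def rhsE {n m : ℕ} (e : Fin m → Fin n) (x : Bit n → Bool) (i : ℕ) : Bool :=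
  if h : i < n then decide (Odd (univ.filter fun j => (∀ l, j ≠ e l) ∧
    x (.inr (⟨i, h⟩, j)) = true ∧ x (.inl j) = true).card) else false

/-! ## Chains for scalar products -/

/-- extension by `false` -/
private def ex {m : ℕ} (f : Fin m → Bool) (l : ℕ) : Bool :=
  if h : l < m then f ⟨l, h⟩ else false

/-- partial scalar product -/
private def pd (f g : ℕ → Bool) : ℕ → Bool
  | 0 => false
  | k + 1 => xor (pd f g k) (f k && g k)

private lemma ex_fin {m : ℕ} (f : Fin m → Bool) (l : Fin m) : ex f (l : ℕ) = f l := by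
  simp [ex]

private lemma ex_lt {m : ℕ} (f : Fin m → Bool) {l : ℕ} (h : l < m) : ex f l = f ⟨l, h⟩ := by
  simp [ex, h]

private lemma ex_ge {m : ℕ} (f : Fin m → Bool) {l : ℕ} (h : ¬ l < m) : ex f l = false := by
  simp [ex, h]

private lemma pd_odd (f g : ℕ → Bool) (k : ℕ) :
    pd f g k = decide (Odd (∑ l ∈ range k, if (f l && g l) = true then 1 else 0)) := by
  induction k with
  | zero => simp [pd]
  | succ k ih =>
    rw [sum_range_succ, pd, ih]
    by_cases h : (f k && g k) = true
    · rw [h, if_pos rfl]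
      simp only [Nat.odd_add_one, decide_not, Bool.xor_true]
    · rw [Bool.not_eq_true] at h
      simp [h]

private lemma dot_pd {m : ℕ} (a b : Fin m → Bool) : dot a b = pd (ex a) (ex b) m := by
  rw [pd_odd, ← Fin.sum_univ_eq_sum_range
    (fun l => if (ex a l && ex b l) = true then (1 : ℕ) else 0)]
  unfold dot
  rw [card_filter]
  simp only [ex_fin, Bool.and_eq_true]

private lemma pd_false (f : ℕ → Bool) (g : ℕ → Bool) (hg : ∀ l, g l = false) (k : ℕ) :
    pd f g k = false := by
  induction k with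
  | zero => rfl
  | succ k ih => rw [pd, ih, hg]; simp

private lemma pd_false' (f : ℕ → Bool) (g : ℕ → Bool) (hf : ∀ l, f l = false) (k : ℕ) :
    pd f g k = false := by
  induction k with
  | zero => rfl
  | succ k ih => rw [pd, ih, hf]; simp

/-! ## Names of the signals -/

/-- names of signals -/
private inductive Nm
  | base
  | vA (i j : ℕ)
  | vX (j : ℕ)
  | R (i k : ℕ)
  | a (i l : ℕ)
  | dead (i : ℕ)
  | z (i l : ℕ)
  | g (i j l : ℕ)
  | H (i j l : ℕ)
  | be (i j : ℕ)
  | T (i j : ℕ)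
  | dz (i k : ℕ)
  | dg (i j k : ℕ)
  | an (i j : ℕ)
  | fi (i j : ℕ)
  | pv (i j l : ℕ)
  | c (i : ℕ)
  | G1 (i j l : ℕ)

private def code : Nm → ℕ × ℕ × ℕ × ℕ
  | .base => (0, 0, 0, 0)
  | .vA i j => (1, i, j, 0)
  | .vX j => (2, 0, j, 0)
  | .R i k => (3, i, k, 0)
  | .a i l => (4, i, l, 0)
  | .dead i => (5, i, 0, 0)
  | .z i l => (6, i, l, 0)
  | .g i j l => (7, i, j, l)
  | .H i j l => (8, i, j, l)
  | .be i j => (9, i, j, 0)
  | .T i j => (10, i, j, 0)
  | .dz i k => (11, i, k, 0)
  | .dg i j k => (12, i, j, k)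
  | .an i j => (13, i, j, 0)
  | .fi i j => (14, i, j, 0)
  | .pv i j l => (15, i, j, l)
  | .c i => (16, i, 0, 0)
  | .G1 i j l => (17, i, j, l)

private lemma code_inj : Function.Injective code := by
  intro a b h
  cases a <;> cases b <;> simp_all [code]

/-- the names which are used -/
private def Ok (n : ℕ) (q : Nm) : Prop :=
  (code q).2.1 ≤ n ∧ (code q).2.2.1 ≤ n ∧ (code q).2.2.2 ≤ n

private lemma code_lt (q : Nm) : (code q).1 < 18 := by
  cases q <;> simp [code]

private noncomputable instance (n : ℕ) : Fintype {q : Nm // Ok n q} :=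
  Fintype.ofInjective
    (fun q => ((⟨(code q.1).1, code_lt _⟩, ⟨(code q.1).2.1, Nat.lt_succ_of_le q.2.1⟩,
      ⟨(code q.1).2.2.1, Nat.lt_succ_of_le q.2.2.1⟩,
      ⟨(code q.1).2.2.2, Nat.lt_succ_of_le q.2.2.2⟩) :
      Fin 18 × Fin (n + 1) × Fin (n + 1) × Fin (n + 1)))
    (by
      intro a b h
      simp only [Prod.mk.injEq, Fin.mk.injEq] at h
      apply Subtype.ext
      apply code_inj
      ext
      · exact h.1
      · exact h.2.1
      · exact h.2.2.1
      · exact h.2.2.2)

private lemma card_ok (n : ℕ) (hn : 20 ≤ n) : Fintype.card {q : Nm // Ok n q} ≤ 100 * n ^ 3 := by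
  have h : Fintype.card {q : Nm // Ok n q} ≤
      Fintype.card (Fin 18 × Fin (n + 1) × Fin (n + 1) × Fin (n + 1)) := by
    refine Fintype.card_le_of_injective
      (fun q => ((⟨(code q.1).1, code_lt _⟩, ⟨(code q.1).2.1, Nat.lt_succ_of_le q.2.1⟩,
      ⟨(code q.1).2.2.1, Nat.lt_succ_of_le q.2.2.1⟩,
      ⟨(code q.1).2.2.2, Nat.lt_succ_of_le q.2.2.2⟩) :
      Fin 18 × Fin (n + 1) × Fin (n + 1) × Fin (n + 1))) ?_
    intro a b h
    simp only [Prod.mk.injEq, Fin.mk.injEq] at h
    apply Subtype.ext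
    apply code_inj
    ext
    · exact h.1
    · exact h.2.1
    · exact h.2.2.1
    · exact h.2.2.2
  simp only [Fintype.card_prod, Fintype.card_fin] at h
  refine h.trans ?_
  have h1 : n + 1 ≤ 2 * n - n / 2 := by omega
  have h2 : 2 * (n + 1) ≤ 3 * n := by omega
  have h3 : (2 * (n + 1)) ^ 3 ≤ (3 * n) ^ 3 := Nat.pow_le_pow_left h2 3
  nlinarith [h3, Nat.zero_le (n ^ 3)]

/-! ## The network -/

private def ite3 (p u v : Bool) : Bool := if p = true then u else v
private def xa3 (u v w : Bool) : Bool := xor u (v && w)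

open Classical in
private noncomputable def sg {n m : ℕ} (hn : 20 ≤ n) (e : Fin m → Fin n) : Nm → SGate (Bit n) Nm
  | .base => .var (.inr (⟨0, by omega⟩, ⟨0, by omega⟩))
  | .vA i j => if h : i < n ∧ j < n then .var (.inr (⟨i, h.1⟩, ⟨j, h.2⟩))
      else .fn (fun _ _ _ => false) .base .base .base
  | .vX j => if h : ∃ h : j < n, ∀ l, (⟨j, h⟩ : Fin n) ≠ e l then .var (.inl ⟨j, h.1⟩)
      else .fn (fun _ _ _ => false) .base .base .base
  | .R _ 0 => .fn (fun _ _ _ => false) .base .base .base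
  | .R i (k + 1) => .fn xa3 (.R i k) (.vA i k) (.vX k)
  | .a i l => if h : i < n ∧ l < m then .var (.inr (⟨i, h.1⟩, e ⟨l, h.2⟩))
      else .fn (fun _ _ _ => false) .base .base .base
  | .dead 0 => .fn (fun _ _ _ => false) .base .base .base
  | .dead (i + 1) => .fn (fun u v w => u || (v && !w)) (.dead i) (.c i) (.an i m)
  | .z 0 _ => .fn (fun _ _ _ => false) .base .base .base
  | .z (i + 1) l => .fn xa3 (.z i l) (.c i) (.pv i m l)
  | .g 0 j l => .fn (fun _ _ _ => decide (j = l ∧ l < m)) .base .base .base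
  | .g (i + 1) j l => if j < m then .fn ite3 (.an i (j + 1)) (.G1 i j l) (.g i j l)
      else .fn (fun _ _ _ => false) .base .base .base
  | .H 0 _ _ => .fn (fun _ _ _ => false) .base .base .base
  | .H (i + 1) 0 l => .fn ite3 (.an i m) (.a i l) (.H i 0 l)
  | .H (i + 1) (j + 1) l => .fn ite3 (.an i m) (.H i j l) (.H i (j + 1) l)
  | .be 0 _ => .fn (fun _ _ _ => false) .base .base .base
  | .be (i + 1) 0 => .fn ite3 (.an i m) (.R i n) (.be i 0)
  | .be (i + 1) (j + 1) => .fn ite3 (.an i m) (.be i j) (.be i (j + 1))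
  | .T 0 j => .fn (fun _ _ _ => decide (j = 0)) .base .base .base
  | .T (i + 1) 0 => .fn (fun p _ v => p || v) (.an i m) (.T i 0) (.T i 0)
  | .T (i + 1) (j + 1) => .fn ite3 (.an i m) (.T i j) (.T i (j + 1))
  | .dz _ 0 => .fn (fun _ _ _ => false) .base .base .base
  | .dz i (k + 1) => .fn xa3 (.dz i k) (.a i k) (.z i k)
  | .dg _ _ 0 => .fn (fun _ _ _ => false) .base .base .base
  | .dg i j (k + 1) => .fn xa3 (.dg i j k) (.a i k) (.g i j k)
  | .an _ 0 => .fn (fun _ _ _ => false) .base .base .base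
  | .an i (j + 1) => .fn (fun u v _ => u || v) (.an i j) (.dg i j m) (.dg i j m)
  | .fi i j => .fn (fun u v _ => !u && v) (.an i j) (.dg i j m) (.dg i j m)
  | .pv _ 0 _ => .fn (fun _ _ _ => false) .base .base .base
  | .pv i (j + 1) l => .fn (fun u v w => u || (v && w)) (.pv i j l) (.fi i j) (.g i j l)
  | .c i => .fn (fun u v _ => xor u v) (.dz i m) (.R i n) (.R i n)
  | .G1 i j l => if j < m then .fn xa3 (.g i (j + 1) l) (.dg i (j + 1) m) (.pv i m l)
      else .fn (fun _ _ _ => false) .base .base .base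

private def KK (n : ℕ) : ℕ := 5 * (n + 3)

private def rk (n : ℕ) : Nm → ℕ
  | .base => 0
  | .vA _ _ => 1
  | .vX _ => 1
  | .R _ k => 2 + k
  | .a _ _ => 1
  | .dead i => (n + 3) + i * KK n
  | .z i _ => (n + 3) + i * KK n
  | .g i _ _ => (n + 3) + i * KK n
  | .H i _ _ => (n + 3) + i * KK n
  | .be i _ => (n + 3) + i * KK n
  | .T i _ => (n + 3) + i * KK n
  | .dz i k => (n + 3) + i * KK n + 1 + k
  | .dg i _ k => (n + 3) + i * KK n + 1 + k
  | .an i j => (n + 3) + i * KK n + (n + 3) + j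
  | .fi i _ => (n + 3) + i * KK n + 2 * (n + 3)
  | .pv i j _ => (n + 3) + i * KK n + 2 * (n + 3) + 1 + j
  | .c i => (n + 3) + i * KK n + (n + 3)
  | .G1 i _ _ => (n + 3) + i * KK n + 4 * (n + 3)

private lemma ok_dep {n m : ℕ} (hn : 20 ≤ n) (hmn : m ≤ n) (e : Fin m → Fin n) (q : Nm)
    (hq : Ok n q) (φ : Bool → Bool → Bool → Bool) (a b c : Nm)
    (h : sg hn e q = .fn φ a b c) : (Ok n a ∧ Ok n b ∧ Ok n c) ∧
      (rk n a < rk n q ∧ rk n b < rk n q ∧ rk n c < rk n q) := by
  have hK : KK n = 5 * (n + 3) := rfl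
  revert hq h
  fun_cases sg hn e q <;> intro hq h <;>
    simp_all only [SGate.fn.injEq, reduceCtorEq] <;>
    (try (obtain ⟨-, rfl, rfl, rfl⟩ := h)) <;>
    simp only [Ok, code, rk, Nat.succ_eq_add_one, Nat.add_mul, Nat.one_mul] at hq ⊢ <;> omega

/-! ## The values -/

private def rowf {n : ℕ} (x : Bit n → Bool) (i j : ℕ) : Bool :=
  if h : i < n ∧ j < n then x (.inr (⟨i, h.1⟩, ⟨j, h.2⟩)) else false

open Classical in
private noncomputable def vXf {n m : ℕ} (e : Fin m → Fin n) (x : Bit n → Bool) (j : ℕ) : Bool :=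
  if h : ∃ h : j < n, ∀ l, (⟨j, h⟩ : Fin n) ≠ e l then x (.inl ⟨j, h.1⟩) else false

private lemma rhs_pd {n m : ℕ} (e : Fin m → Fin n) (x : Bit n → Bool) (i : ℕ) :
    rhsE e x i = pd (rowf x i) (vXf e x) n := by
  classical
  by_cases hi : i < n
  · rw [pd_odd, ← Fin.sum_univ_eq_sum_range
      (fun l => if (rowf x i l && vXf e x l) = true then (1 : ℕ) else 0)]
    unfold rhsE
    rw [dif_pos hi, card_filter, Bool.eq_iff_iff, decide_eq_true_eq, decide_eq_true_eq]
    refine iff_of_eq (congrArg Odd (Finset.sum_congr rfl fun j _ => ?_))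
    have h1 : rowf x i (j : ℕ) = x (.inr (⟨i, hi⟩, j)) := by
      unfold rowf
      rw [dif_pos ⟨hi, j.2⟩]
    rw [h1]
    by_cases hj : ∀ l, j ≠ e l
    · have h2 : vXf e x (j : ℕ) = x (.inl j) := by
        unfold vXf
        rw [dif_pos ⟨j.2, hj⟩]
      rw [h2]
      simp [hj]
    · have h2 : vXf e x (j : ℕ) = false := by
        unfold vXf
        rw [dif_neg]
        rintro ⟨_, h⟩
        exact hj h
      rw [h2]
      simp [hj]
  · rw [pd_false' (rowf x i) _ (fun l => by simp [rowf, hi])]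
    simp [rhsE, hi]

open Classical in
private noncomputable def W {n m : ℕ} (hn : 20 ≤ n) (e : Fin m → Fin n) (x : Bit n → Bool)
    (S : ℕ → St m) : Nm → Bool
  | .base => x (.inr (⟨0, by omega⟩, ⟨0, by omega⟩))
  | .vA i j => rowf x i j
  | .vX j => vXf e x j
  | .R i k => pd (rowf x i) (vXf e x) k
  | .a i l => ex (rowE e x i) l
  | .dead i => (S i).dead
  | .z i l => ex (S i).z l
  | .g i j l => ex ((S i).g j) l
  | .H i j l => ex ((S i).H j) l
  | .be i j => (S i).β j
  | .T i j => (S i).T j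
  | .dz i k => pd (ex (rowE e x i)) (ex (S i).z) k
  | .dg i j k => pd (ex (rowE e x i)) (ex ((S i).g j)) k
  | .an i j => decide (∃ i' < j, dot (rowE e x i) ((S i).g i') = true)
  | .fi i j => !decide (∃ i' < j, dot (rowE e x i) ((S i).g i') = true) &&
      dot (rowE e x i) ((S i).g j)
  | .pv i j l => decide (∃ i' < j, dot (rowE e x i) ((S i).g i') = true ∧
      (∀ i'' < i', dot (rowE e x i) ((S i).g i'') = false) ∧ ex ((S i).g i') l = true)
  | .c i => xor (dot (rowE e x i) (S i).z) (rhsE e x i)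
  | .G1 i j l => if j < m then xor (ex ((S i).g (j + 1)) l)
      (dot (rowE e x i) ((S i).g (j + 1)) && ex (piv (rowE e x i) (S i)) l) else false

private lemma dot_false {m : ℕ} (a b : Fin m → Bool) (hb : ∀ l, b l = false) :
    dot a b = false := by
  simp [dot, hb]

private lemma g_ge {m : ℕ} (A : ℕ → Fin m → Bool) (b : ℕ → Bool) (i : ℕ) :
    ∀ j, ¬ j < m → ∀ l, (run A b i).g j l = false := by
  induction i with
  | zero =>
    intro j hj l
    simp only [run, init, decide_eq_false_iff_not]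
    have := l.2
    omega
  | succ i ih =>
    intro j hj l
    simp only [run, step]
    rw [ih j hj l, ih (j + 1) (by omega) l,
      dot_false _ _ (ih (j + 1) (by omega))]
    simp

private lemma pre_eq {m : ℕ} (a : Fin m → Bool) (s : St m) (j : ℕ) :
    pre a s j = decide (∃ i' < j + 1, dot a (s.g i') = true) := by
  simp [pre]

open Classical in
private lemma pv_eq {m : ℕ} (a : Fin m → Bool) (s : St m) (l : ℕ) :
    decide (∃ i' < m, dot a (s.g i') = true ∧
      (∀ i'' < i', dot a (s.g i'') = false) ∧ ex (s.g i') l = true) = ex (piv a s) l := by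
  by_cases hl : l < m
  · simp only [ex_lt _ hl, piv]
  · simp [ex_ge _ hl]

private lemma step_g {m : ℕ} (a : Fin m → Bool) (r : Bool) (s : St m) (j l : ℕ) :
    ex ((step a r s).g j) l = if pre a s j = true then
      xor (ex (s.g (j + 1)) l) (dot a (s.g (j + 1)) && ex (piv a s) l) else ex (s.g j) l := by
  by_cases hl : l < m
  · simp only [ex_lt _ hl, step]
  · simp [ex_ge _ hl]

private lemma step_z {m : ℕ} (a : Fin m → Bool) (r : Bool) (s : St m) (l : ℕ) :
    ex ((step a r s).z) l = xor (ex s.z l) (xor (dot a s.z) r && ex (piv a s) l) := by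
  by_cases hl : l < m
  · simp only [ex_lt _ hl, step]
  · simp [ex_ge _ hl]

private lemma step_H {m : ℕ} (a : Fin m → Bool) (r : Bool) (s : St m) (j l : ℕ) :
    ex ((step a r s).H j) l = if any a s = true then
      (if j = 0 then ex a l else ex (s.H (j - 1)) l) else ex (s.H j) l := by
  by_cases hl : l < m
  · simp only [ex_lt _ hl, step]
  · simp [ex_ge _ hl]

private lemma W_eval {n m : ℕ} (hn : 20 ≤ n) (e : Fin m → Fin n) (x : Bit n → Bool) :
    SEval (sg hn e) x (W hn e x (run (rowE e x) (rhsE e x))) := by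
  classical
  have hs : ∀ i, run (rowE e x) (rhsE e x) (i + 1) =
    step (rowE e x i) (rhsE e x i) (run (rowE e x) (rhsE e x) i) := fun i => rfl
  have h0 : run (rowE e x) (rhsE e x) 0 = init m := rfl
  have hg := g_ge (rowE e x) (rhsE e x)
  generalize run (rowE e x) (rhsE e x) = S at *
  intro q
  fun_cases sg hn e q <;> simp only [*, W, if_true, if_false]
  case case2 i j h => simp [rowf, h]
  case case3 i j h => simp [rowf, h]
  case case4 j h => exact dif_pos h
  case case5 j h => exact dif_neg h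
  case case6 => rfl
  case case7 => rfl
  case case8 i l h => simp [ex, rowE, h]
  case case9 i l h =>
    simp only [ex, rowE]
    split_ifs with h1 h2
    · exact absurd ⟨h2, h1⟩ h
    · rfl
    · rfl
  case case10 => rfl
  case case11 => rfl
  case case12 l => simp [init, ex]
  case case13 i l => rw [step_z, pv_eq]; rfl
  case case14 j l =>
    by_cases hl : l < m
    · simp [ex_lt _ hl, init, hl]
    · simp [ex_ge _ hl, hl]
  case case15 i j l h => rw [step_g, pre_eq]; rfl
  case case16 i j l h =>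
    have h1 : ∀ l, (step (rowE e x i) (rhsE e x i) (S i)).g j l = false := by
      intro l
      rw [← hs]
      exact hg _ _ h l
    by_cases hl : l < m
    · rw [ex_lt _ hl, h1]
    · rw [ex_ge _ hl]
  case case17 j l => simp [init, ex]
  case case18 i l => rw [step_H]; rfl
  case case19 i j l => rw [step_H]; rfl
  case case20 => rfl
  case case21 i => rw [← rhs_pd]; rfl
  case case22 => rfl
  case case23 => rfl
  case case24 i =>
    simp only [step, any]
    by_cases h : ∃ i' < m, dot (rowE e x i) ((S i).g i') = true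
    · simp [h]
    · simp [h]
  case case25 => rfl
  case case26 => rfl
  case case27 => rfl
  case case28 => rfl
  case case29 => rfl
  case case30 => simp
  case case31 i j =>
    rw [← dot_pd, Bool.eq_iff_iff]
    simp only [Bool.or_eq_true, decide_eq_true_eq, Nat.succ_eq_add_one]
    constructor
    · rintro ⟨i', h1, h2⟩
      rcases Nat.lt_succ_iff_lt_or_eq.1 h1 with h3 | rfl
      · exact .inl ⟨i', h3, h2⟩
      · exact .inr h2
    · rintro (⟨i', h1, h2⟩ | h2)
      · exact ⟨i', by omega, h2⟩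
      · exact ⟨j, by omega, h2⟩
  case case32 i j => rw [← dot_pd]
  case case33 => simp
  case case34 i j l =>
    rw [Bool.eq_iff_iff]
    simp only [Bool.or_eq_true, Bool.and_eq_true, decide_eq_true_eq, Bool.not_eq_true',
      decide_eq_false_iff_not, Nat.succ_eq_add_one, not_exists, not_and, Bool.not_eq_true]
    constructor
    · rintro ⟨i', h1, h2⟩
      rcases Nat.lt_succ_iff_lt_or_eq.1 h1 with h3 | rfl
      · exact .inl ⟨i', h3, h2⟩
      · exact .inr ⟨⟨h2.2.1, h2.1⟩, h2.2.2⟩
    · rintro (⟨i', h1, h2⟩ | ⟨⟨h1, h2⟩, h3⟩)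
      · exact ⟨i', by omega, h2⟩
      · exact ⟨j, by omega, h2, h1, h3⟩
  case case35 i => rw [← dot_pd, ← rhs_pd]
  case case36 i j l h => rw [← dot_pd, pv_eq]; rfl

/-! ## The signals -/

/-- restriction of a gate to the names which are used -/
private def rest {n : ℕ} (s : SGate (Bit n) Nm)
    (h : ∀ φ a b c, s = .fn φ a b c → Ok n a ∧ Ok n b ∧ Ok n c) :
    SGate (Bit n) {q : Nm // Ok n q} :=
  match s, h with
  | .var v, _ => .var v
  | .fn φ a b c, h => .fn φ ⟨a, (h φ a b c rfl).1⟩ ⟨b, (h φ a b c rfl).2.1⟩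
      ⟨c, (h φ a b c rfl).2.2⟩

private lemma rest_fn {n : ℕ} (s : SGate (Bit n) Nm)
    (h : ∀ φ a b c, s = .fn φ a b c → Ok n a ∧ Ok n b ∧ Ok n c) (φ : Bool → Bool → Bool → Bool)
    (a b c : {q : Nm // Ok n q}) (h1 : rest s h = .fn φ a b c) :
    s = .fn φ a.1 b.1 c.1 := by
  cases s with
  | var v => simp [rest] at h1
  | fn ψ a' b' c' =>
    simp only [rest, SGate.fn.injEq] at h1
    obtain ⟨rfl, rfl, rfl, rfl⟩ := h1
    rfl

private lemma rest_var {n : ℕ} (s : SGate (Bit n) Nm)
    (h : ∀ φ a b c, s = .fn φ a b c → Ok n a ∧ Ok n b ∧ Ok n c) (v : Bit n)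
    (h1 : rest s h = .var v) : s = .var v := by
  cases s with
  | var w => simpa [rest] using h1
  | fn ψ a' b' c' => simp [rest] at h1

/-- the value of a gate -/
private def evG {V Q : Type} (s : SGate V Q) (x : V → Bool) (w : Q → Bool) : Bool :=
  match s with
  | .var v => x v
  | .fn φ a b c => φ (w a) (w b) (w c)

private lemma rest_eval {n : ℕ} (s : SGate (Bit n) Nm)
    (h : ∀ φ a b c, s = .fn φ a b c → Ok n a ∧ Ok n b ∧ Ok n c) (x : Bit n → Bool)
    (w : Nm → Bool) (val : {q : Nm // Ok n q} → Bool)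
    (hv : ∀ φ a b c, s = .fn φ a b c → ∀ ha hb hc, val ⟨a, ha⟩ = w a ∧
      val ⟨b, hb⟩ = w b ∧ val ⟨c, hc⟩ = w c) :
    evG (rest s h) x val = evG s x w := by
  cases s with
  | var w => rfl
  | fn ψ a' b' c' =>
    simp only [rest, evG]
    obtain ⟨h1, h2, h3⟩ := hv ψ a' b' c' rfl (h ψ a' b' c' rfl).1 (h ψ a' b' c' rfl).2.1
      (h ψ a' b' c' rfl).2.2
    rw [h1, h2, h3]

/-- the signals -/
theorem sig_run {n m : ℕ} (hn : 20 ≤ n) (hmn : m ≤ n) (e : Fin m → Fin n)
    (he : Function.Injective e) :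
    ∃ (Q : Type) (_ : Fintype Q) (sig : Q → SGate (Bit n) Q) (rk : Q → ℕ), SRanked sig rk ∧
      (∀ q v, sig q = .var v → ∀ l, v ≠ .inl (e l)) ∧ Fintype.card Q ≤ 100 * n ^ 3 ∧
      ∃ (dead κ : Q) (z : Fin m → Q) (g H : Fin (m / 2) → Fin m → Q) (β : Fin (m / 2) → Q),
        ∀ x val, SEval sig x val → ∀ s : St m, s = run (rowE e x) (rhsE e x) n →
          val dead = s.dead ∧ val κ = s.T (m - m / 2) ∧ (∀ l, val (z l) = s.z l) ∧
          (∀ j l, val (g j l) = s.g j l) ∧ (∀ j l, val (H j l) = s.H j l) ∧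
          ∀ j, val (β j) = s.β j := by
  have hd := ok_dep hn hmn e
  refine ⟨{q : Nm // Ok n q}, inferInstance,
    fun q => rest (sg hn e q.1) (fun φ a b c h => (hd q.1 q.2 φ a b c h).1),
    fun q => rk n q.1, ?_, ?_, card_ok n hn, ⟨.dead n, by simp [Ok, code]⟩,
    ⟨.T n (m - m / 2), by simp only [Ok, code]; omega⟩,
    fun l => ⟨.z n l, by have := l.2; simp only [Ok, code]; omega⟩,
    fun j l => ⟨.g n j l, by have := l.2; have := j.2; simp only [Ok, code]; omega⟩,
    fun j l => ⟨.H n j l, by have := l.2; have := j.2; simp only [Ok, code]; omega⟩,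
    fun j => ⟨.be n j, by have := j.2; simp only [Ok, code]; omega⟩, ?_⟩
  · intro q φ a b c h
    exact (hd q.1 q.2 φ a.1 b.1 c.1 (rest_fn _ _ _ _ _ _ h)).2
  · intro q v h
    have h1 := rest_var _ _ _ h
    clear h
    obtain ⟨q, hq⟩ := q
    simp only at h1
    revert h1
    fun_cases sg hn e q <;> intro h1 <;> simp_all only [SGate.var.injEq, reduceCtorEq] <;>
      intro l <;> subst h1
    · simp
    · simp
    · rename_i h2
      simp only [ne_eq, Sum.inl.injEq]
      exact h2.2 l
    · simp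
  · intro x val hval s hs
    have hW := W_eval hn e x
    have key : ∀ N, ∀ q : {q : Nm // Ok n q}, rk n q.1 < N →
        val q = W hn e x (run (rowE e x) (rhsE e x)) q.1 := by
      intro N
      induction N with
      | zero => intro q h; omega
      | succ N ih =>
        intro q h
        rw [hval q, hW q.1]
        refine rest_eval (sg hn e q.1) _ x _ val ?_
        intro φ a b c h1 ha hb hc
        have h2 := (hd q.1 q.2 φ a b c h1).2
        exact ⟨ih ⟨a, ha⟩ (by simp only; omega), ih ⟨b, hb⟩ (by simp only; omega),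
          ih ⟨c, hc⟩ (by simp only; omega)⟩
    have key' : ∀ q h, val ⟨q, h⟩ = W hn e x (run (rowE e x) (rhsE e x)) q :=
      fun q h => key _ ⟨q, h⟩ (Nat.lt_succ_self _)
    subst hs
    refine ⟨key' _ _, key' _ _, fun l => ?_, fun j l => ?_, fun j l => ?_, fun j => key' _ _⟩
    · rw [key', W, ex_fin]
    · rw [key', W, ex_fin]
    · rw [key', W, ex_fin]

end Pool.Agent.MV
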