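import Mathlib
import Pool.Agent.Lib.MP_b573ec_lc_MV.Elim
import Pool.Agent.Lib.MP_b573ec_lc_MV.Sig
import Pool.Agent.Lib.MP_b573ec_lc_MV.Main

/-!
# Matrix times vector: circuits without error which read some bits once
-/

set_option autoImplicit false

namespace Pool.Agent.MV

open Finset Pool.Agent.FP Pool.Agent.RT

private theorem odd_mod (a : ℕ) : Odd a ↔ a % 2 = 1 := Nat.odd_iff

open Classical in
/-- the rows, split into the columns `e l` and the other columns -/
private theorem mulNe_iff {n m : ℕ} (e : Fin m → Fin n) (he : Function.Injective e)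
    (x : Bit n → Bool) :
    MulNe x ↔ ∃ i < n, dot (rowE e x i) (fun l => x (.inl (e l))) ≠ rhsE e x i := by
  have key : ∀ i : Fin n, ((univ.filter fun j => x (.inr (i, j)) = true ∧
      x (.inl j) = true).card % 2 = 1 ↔
        dot (rowE e x i) (fun l => x (.inl (e l))) ≠ rhsE e x i) := by
    intro i
    have h1 : (univ.filter fun j => x (.inr (i, j)) = true ∧ x (.inl j) = true) =
        ((univ.filter fun l => x (.inr (i, e l)) = true ∧ x (.inl (e l)) = true).image e) ∪
        (univ.filter fun j => (∀ l, j ≠ e l) ∧ x (.inr (i, j)) = true ∧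
          x (.inl j) = true) := by
      ext j
      simp only [mem_filter, mem_univ, true_and, mem_union, mem_image]
      constructor
      · intro h
        by_cases hj : ∃ l, e l = j
        · obtain ⟨l, rfl⟩ := hj
          exact .inl ⟨l, h, rfl⟩
        · push Not at hj
          exact .inr ⟨fun l h' => hj l h'.symm, h⟩
      · rintro (⟨l, h, rfl⟩ | ⟨-, h⟩)
        · exact h
        · exact h
    have h2 : Disjoint ((univ.filter fun l => x (.inr (i, e l)) = true ∧
        x (.inl (e l)) = true).image e) (univ.filter fun j => (∀ l, j ≠ e l) ∧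
          x (.inr (i, j)) = true ∧ x (.inl j) = true) := by
      rw [disjoint_left]
      intro j hj hj'
      obtain ⟨l, -, rfl⟩ := mem_image.1 hj
      exact (mem_filter.1 hj').2.1 l rfl
    rw [h1, card_union_of_disjoint h2, card_image_of_injective _ he, ← odd_mod]
    have h3 : dot (rowE e x i) (fun l => x (.inl (e l))) =
        decide (Odd (univ.filter fun l => x (.inr (i, e l)) = true ∧
          x (.inl (e l)) = true).card) := by
      unfold dot rowE
      simp only [i.2, dif_pos]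
    have h4 : rhsE e x i = decide (Odd (univ.filter fun j => (∀ l, j ≠ e l) ∧
        x (.inr (i, j)) = true ∧ x (.inl j) = true).card) := by
      unfold rhsE
      simp only [i.2, dif_pos]
    rw [h3, h4, Nat.odd_add]
    generalize (univ.filter fun l => x (.inr (i, e l)) = true ∧
          x (.inl (e l)) = true).card = a
    generalize (univ.filter fun j => (∀ l, j ≠ e l) ∧
        x (.inr (i, j)) = true ∧ x (.inl j) = true).card = b
    rw [ne_eq, decide_eq_decide, ← Nat.not_odd_iff_even]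
    tauto
  constructor
  · rintro ⟨i, hi⟩
    exact ⟨i, i.2, (key i).1 hi⟩
  · rintro ⟨i, hi, h⟩
    exact ⟨⟨i, hi⟩, (key ⟨i, hi⟩).2 h⟩

private theorem count_filter {n : ℕ} (i : Fin n) (L : List (Bit n)) :
    L.count (Sum.inl i) = (L.filter fun y => y = Sum.inl i).length := by
  rw [List.count, List.countP_eq_length_filter]
  congr 1
  refine List.filter_congr fun v _ => ?_
  rcases v with v | v
  · show (v == i) = decide ((Sum.inl v : Bit n) = Sum.inl i)
    by_cases h : v = i <;> simp [h]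
  · show false = decide ((Sum.inr v : Bit n) = Sum.inl i)
    simp

open Classical in
private theorem sharp_aux {n m : ℕ} (hn : 100 ≤ n) (hm : 1 ≤ m) (hmn : m ≤ n) (e : Fin m → Fin n)
    (he : Function.Injective e) : ∃ (s : ℕ) (D : Circuit (Bit n) s), s ≤ 2 ^ (m / 2) * n ^ 5 ∧
      (∀ z, D.Accepts z ↔ MulNe z) ∧
      ∀ l, ∀ L, Tree D D.out L → L.count (Sum.inl (e l)) ≤ 1 := by
  obtain ⟨Q, hQ, sig, rk, hsig, hvar, hcard, dead, κ, z, g, H, β, hval⟩ :=
    sig_run (by omega : 20 ≤ n) hmn e he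
  obtain ⟨s, D, hs, hD, hread⟩ := main_circ sig rk hsig (m := m) (h := m / 2) hm
    (Nat.div_le_self _ _) (fun l => (Sum.inl (e l) : Bit n))
    (fun i j h => he (Sum.inl_injective h)) hvar dead κ z g H β MulNe (by
      intro x val hx
      obtain ⟨h1, h2, h3, h4, h5, h6⟩ := hval x val hx _ rfl
      rw [mulNe_iff e he x, elim]
      simp only [h1, h2, h3, h4, h5, h6, dot])
  refine ⟨s, D, ?_, hD, fun l L hL => ?_⟩
  · refine hs.trans ?_
    have h1 : 1 ≤ 2 ^ (m / 2) := Nat.one_le_pow _ _ (by norm_num)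
    have h2 : 64 * Fintype.card Q ≤ 2 ^ (m / 2) * (6400 * n ^ 3) := by
      calc 64 * Fintype.card Q ≤ 1 * (6400 * n ^ 3) := by omega
        _ ≤ 2 ^ (m / 2) * (6400 * n ^ 3) := Nat.mul_le_mul_right _ h1
    have h3 : 200 * (m + 1) ^ 2 ≤ 200 * (n + 1) ^ 2 :=
      Nat.mul_le_mul_left _ (Nat.pow_le_pow_left (by omega) 2)
    have h4 : 6400 * n ^ 3 + 200 * (n + 1) ^ 2 ≤ n ^ 5 := by
      have e1 : n ^ 5 = n ^ 2 * n ^ 3 := by ring
      have e2 : 10000 ≤ n ^ 2 := by nlinarith
      have e3 : 10000 * n ^ 3 ≤ n ^ 2 * n ^ 3 := Nat.mul_le_mul_right _ e2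
      have e4 : 200 * (n + 1) ^ 2 ≤ 800 * n ^ 2 := by nlinarith
      have e5 : 800 * n ^ 2 ≤ 800 * n ^ 3 := Nat.mul_le_mul_left _
        (Nat.pow_le_pow_right (by omega) (by norm_num))
      omega
    calc 64 * Fintype.card Q + 2 ^ (m / 2) * (200 * (m + 1) ^ 2)
        ≤ 2 ^ (m / 2) * (6400 * n ^ 3) + 2 ^ (m / 2) * (200 * (n + 1) ^ 2) :=
          Nat.add_le_add h2 (Nat.mul_le_mul_left _ h3)
      _ = 2 ^ (m / 2) * (6400 * n ^ 3 + 200 * (n + 1) ^ 2) := by ring
      _ ≤ _ := Nat.mul_le_mul_left _ h4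
  · rw [count_filter]
    exact (le_of_eq (by congr)).trans (hread l L hL)

/-- **Circuits without error**: a factor `2 ^ (|E| / 2)`. -/
theorem sharp {n : ℕ} (hn : 100 ≤ n) (E : Finset (Fin n)) :
    ∃ (s : ℕ) (D : Circuit (Bit n) s), s ≤ 2 ^ (E.card / 2) * n ^ 5 ∧
      (∀ z, D.Accepts z ↔ MulNe z) ∧
      ∀ i ∈ E, ∀ L, Tree D D.out L → L.count (Sum.inl i) ≤ 1 := by
  rcases Nat.eq_zero_or_pos E.card with h0 | h0
  · obtain ⟨s, D, hs, hD, -⟩ := sharp_aux hn (m := 1) le_rfl (by omega)
      (fun _ => ⟨0, by omega⟩) (fun i j _ => Subsingleton.elim _ _)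
    refine ⟨s, D, ?_, hD, fun i hi => ?_⟩
    · rw [h0]
      exact hs
    · rw [card_eq_zero] at h0
      rw [h0] at hi
      simp at hi
  · have hE : E.card ≤ n := by simpa using card_le_univ E
    obtain ⟨s, D, hs, hD, hread⟩ := sharp_aux hn (m := E.card) h0 hE
      (fun l => (E.equivFin.symm l).1) (fun i j h => E.equivFin.symm.injective (Subtype.ext h))
    refine ⟨s, D, hs, hD, fun i hi L hL => ?_⟩
    have h1 := hread (E.equivFin ⟨i, hi⟩) L hL
    simpa using h1

end Pool.Agent.MV
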