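import Mathlib
import Pool.Agent.Lib.MP_b573ec_lc_RO.Program
import Pool.Agent.Lib.MP_b573ec_lc_MV.Fun

/-!
# Matrix times vector: circuits with random bits

The bits `w` choose a sum of rows: the circuit accepts if `∑ j, x j * ∑ i, w i * a i j = 1`.  It is
an oblivious program: for each `j` read `x j` and then, for each `i`, `w i` and `a i j`; it
remembers the sum so far and the last values of `x j` and `w i`.
-/

set_option autoImplicit false

namespace Pool.Agent.MV

open Finset Pool.Agent.FP Pool.Agent.RT Pool.Agent.RO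

/-! ## Renaming the variables of a circuit -/

private def rg {V W : Type} {s : ℕ} (f : V → W) : Gate V s → Gate W s
  | .lit v b => .lit (f v) b
  | .and i j => .and i j
  | .or i j => .or i j

private def rc {V W : Type} {s : ℕ} (f : V → W) (D : Circuit V s) : Circuit W s where
  gate g := rg f (D.gate g)
  and_lt := by
    intro g i j h
    rcases hg : D.gate g with ⟨v, b⟩ | ⟨i', j'⟩ | ⟨i', j'⟩ <;> rw [hg] at h <;>
      simp only [rg, reduceCtorEq, Gate.and.injEq] at h
    obtain ⟨rfl, rfl⟩ := h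
    exact D.and_lt _ _ _ hg
  or_lt := by
    intro g i j h
    rcases hg : D.gate g with ⟨v, b⟩ | ⟨i', j'⟩ | ⟨i', j'⟩ <;> rw [hg] at h <;>
      simp only [rg, reduceCtorEq, Gate.or.injEq] at h
    obtain ⟨rfl, rfl⟩ := h
    exact D.or_lt _ _ _ hg
  out := D.out

private theorem rc_eval {V W : Type} {s : ℕ} (f : V → W) (D : Circuit V s) (x : W → Bool)
    (val : Fin s → Bool) : (rc f D).IsEval x val ↔ D.IsEval (fun v => x (f v)) val := by
  have h : ∀ g, (rc f D).gate g = rg f (D.gate g) := fun _ => rfl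
  constructor <;> intro h1 g <;> have h2 := h1 g
  · rw [h2, h]
    rcases hg : D.gate g with ⟨v, b⟩ | ⟨i', j'⟩ | ⟨i', j'⟩ <;> rfl
  · rw [h2, h]
    rcases hg : D.gate g with ⟨v, b⟩ | ⟨i', j'⟩ | ⟨i', j'⟩ <;> rfl

private theorem rc_acc {V W : Type} {s : ℕ} (f : V → W) (D : Circuit V s) (x : W → Bool) :
    (rc f D).Accepts x ↔ D.Accepts (fun v => x (f v)) := by
  unfold Circuit.Accepts
  refine exists_congr fun val => and_congr (rc_eval f D x val) Iff.rfl

private theorem rc_tree {V W : Type} {s : ℕ} (f : V → W) (D : Circuit V s) (g : Fin s)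
    (L : List W) (h : Tree (rc f D) g L) : ∃ L' : List V, Tree D g L' ∧ L = L'.map f := by
  induction h with
  | lit g v b h1 =>
    have h2 : rg f (D.gate g) = .lit v b := h1
    rcases hg : D.gate g with ⟨v', b'⟩ | ⟨i', j'⟩ | ⟨i', j'⟩ <;> rw [hg] at h2 <;>
      simp only [rg, reduceCtorEq, Gate.lit.injEq] at h2
    obtain ⟨rfl, rfl⟩ := h2
    exact ⟨[v'], .lit _ _ _ hg, rfl⟩
  | left g i j L h1 _ ih =>
    have h2 : rg f (D.gate g) = .and i j := h1
    rcases hg : D.gate g with ⟨v', b'⟩ | ⟨i', j'⟩ | ⟨i', j'⟩ <;> rw [hg] at h2 <;>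
      simp only [rg, reduceCtorEq, Gate.and.injEq] at h2
    obtain ⟨rfl, rfl⟩ := h2
    obtain ⟨L', h3, h4⟩ := ih
    exact ⟨L', .left _ _ _ _ hg h3, h4⟩
  | right g i j L h1 _ ih =>
    have h2 : rg f (D.gate g) = .and i j := h1
    rcases hg : D.gate g with ⟨v', b'⟩ | ⟨i', j'⟩ | ⟨i', j'⟩ <;> rw [hg] at h2 <;>
      simp only [rg, reduceCtorEq, Gate.and.injEq] at h2
    obtain ⟨rfl, rfl⟩ := h2
    obtain ⟨L', h3, h4⟩ := ih
    exact ⟨L', .right _ _ _ _ hg h3, h4⟩
  | both g i j L L' h1 _ _ ih ih' =>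
    have h2 : rg f (D.gate g) = .or i j := h1
    rcases hg : D.gate g with ⟨v', b'⟩ | ⟨i', j'⟩ | ⟨i', j'⟩ <;> rw [hg] at h2 <;>
      simp only [rg, reduceCtorEq, Gate.or.injEq] at h2
    obtain ⟨rfl, rfl⟩ := h2
    obtain ⟨L1, h3, h4⟩ := ih
    obtain ⟨L2, h5, h6⟩ := ih'
    exact ⟨L1 ++ L2, .both _ _ _ _ _ hg h3 h5, by rw [List.map_append, h4, h6]⟩

/-! ## The program -/

/-- the variable read at the time `t` -/
private def vr (n : ℕ) (hn : 0 < n) (t : ℕ) : Bit n ⊕ Fin n :=
  if h : t / (2 * n + 1) < n then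
    if h' : t % (2 * n + 1) = 0 then .inl (.inl ⟨t / (2 * n + 1), h⟩)
    else if (t % (2 * n + 1) - 1) % 2 = 0 then
      .inr ⟨(t % (2 * n + 1) - 1) / 2, by
        have : t % (2 * n + 1) < 2 * n + 1 := Nat.mod_lt t (Nat.succ_pos _)
        omega⟩
    else .inl (.inr (⟨(t % (2 * n + 1) - 1) / 2, by
        have : t % (2 * n + 1) < 2 * n + 1 := Nat.mod_lt t (Nat.succ_pos _)
        omega⟩, ⟨t / (2 * n + 1), h⟩))
  else .inl (.inl ⟨0, hn⟩)

private theorem dv {n m r : ℕ} (hr : r < 2 * n + 1) :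
    (m * (2 * n + 1) + r) / (2 * n + 1) = m ∧ (m * (2 * n + 1) + r) % (2 * n + 1) = r := by
  constructor
  · rw [add_comm, Nat.add_mul_div_right _ _ (Nat.succ_pos _), Nat.div_eq_of_lt hr, zero_add]
  · rw [add_comm, Nat.add_mul_mod_self_right, Nat.mod_eq_of_lt hr]

private theorem vr_x {n : ℕ} (hn : 0 < n) {j : ℕ} (hj : j < n) :
    vr n hn (j * (2 * n + 1)) = .inl (.inl ⟨j, hj⟩) := by
  have h := dv (n := n) (m := j) (r := 0) (by omega)
  rw [add_zero] at h
  simp [vr, h.1, h.2, hj]

private theorem vr_w {n : ℕ} (hn : 0 < n) {j i : ℕ} (hj : j < n) (hi : i < n) :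
    vr n hn (j * (2 * n + 1) + (2 * i + 1)) = .inr ⟨i, hi⟩ := by
  have h := dv (n := n) (m := j) (r := 2 * i + 1) (by omega)
  have h1 : ¬ 2 * i + 1 = 0 := by omega
  have h2 : (2 * i + 1 - 1) % 2 = 0 := by omega
  have h3 : (2 * i + 1 - 1) / 2 = i := by omega
  simp only [vr, h.1, h.2, hj, dif_pos, dif_neg h1, h2, if_true, h3]

private theorem vr_a {n : ℕ} (hn : 0 < n) {j i : ℕ} (hj : j < n) (hi : i < n) :
    vr n hn (j * (2 * n + 1) + (2 * i + 2)) = .inl (.inr (⟨i, hi⟩, ⟨j, hj⟩)) := by
  have h := dv (n := n) (m := j) (r := 2 * i + 2) (by omega)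
  have h1 : ¬ 2 * i + 2 = 0 := by omega
  have h2 : ¬ (2 * i + 2 - 1) % 2 = 0 := by omega
  have h3 : (2 * i + 2 - 1) / 2 = i := by omega
  simp only [vr, h.1, h.2, hj, dif_pos, dif_neg h1, if_neg h2, h3]

private theorem vr_inj {n : ℕ} (hn : 0 < n) {t t' : ℕ} (ht : t < n * (2 * n + 1))
    (ht' : t' < n * (2 * n + 1)) {u : Bit n} (h : vr n hn t = .inl u)
    (h' : vr n hn t' = .inl u) : t = t' := by
  have key : ∀ t, t < n * (2 * n + 1) → ∀ u : Bit n, vr n hn t = .inl u →
      t = (match u with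
        | .inl j => (j : ℕ) * (2 * n + 1)
        | .inr (i, j) => (j : ℕ) * (2 * n + 1) + (2 * (i : ℕ) + 2)) := by
    intro t ht u h
    have h1 : t / (2 * n + 1) < n := Nat.div_lt_of_lt_mul (by rwa [mul_comm])
    have e1 := Nat.div_add_mod t (2 * n + 1)
    rw [mul_comm] at e1
    rw [vr, dif_pos h1] at h
    by_cases c : t % (2 * n + 1) = 0
    · rw [dif_pos c] at h
      have h2 := Sum.inl_injective h
      rw [← h2]
      show t = t / (2 * n + 1) * (2 * n + 1)
      omega
    · rw [dif_neg c] at h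
      by_cases c2 : (t % (2 * n + 1) - 1) % 2 = 0
      · rw [if_pos c2] at h
        cases h
      · rw [if_neg c2] at h
        have h2 := Sum.inl_injective h
        rw [← h2]
        show t = t / (2 * n + 1) * (2 * n + 1) + (2 * ((t % (2 * n + 1) - 1) / 2) + 2)
        omega
  rw [key t ht u h, key t' ht' u h']

/-- one step of the program -/
private def stp (n : ℕ) (t : ℕ) (s : Bool × Bool × Bool) (a : Bool) : Bool × Bool × Bool :=
  if t % (2 * n + 1) = 0 then (s.1, a, s.2.2)
  else if (t % (2 * n + 1) - 1) % 2 = 0 then (s.1, s.2.1, a)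
  else (xor s.1 (s.2.1 && s.2.2 && a), s.2.1, s.2.2)

/-- the run of the program -/
private def rn {n : ℕ} (hn : 0 < n) (z : Bit n ⊕ Fin n → Bool) : ℕ → Bool × Bool × Bool
  | 0 => (false, false, false)
  | t + 1 => stp n t (rn hn z t) (z (vr n hn t))

private def F (b : Bool) : ZMod 2 := if b = true then 1 else 0

private theorem F_xor (a b : Bool) : F (xor a b) = F a + F b := by
  cases a <;> cases b <;> decide

private theorem F_and (a b : Bool) : F (a && b) = F a * F b := by
  cases a <;> cases b <;> decide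

private theorem F_one {b : Bool} : b = true ↔ F b = 1 := by
  cases b <;> decide

private theorem rn_row {n : ℕ} (hn : 0 < n) (z : Bit n ⊕ Fin n → Bool) {j : ℕ} (hj : j < n)
    (i : ℕ) (hi : i ≤ n) :
    F (rn hn z (j * (2 * n + 1) + (2 * i + 1))).1 = F (rn hn z (j * (2 * n + 1))).1 +
      ∑ i' ∈ range i, (if h : i' < n then F (z (.inl (.inl ⟨j, hj⟩))) * F (z (.inr ⟨i', h⟩)) *
        F (z (.inl (.inr (⟨i', h⟩, ⟨j, hj⟩)))) else 0) ∧
    (rn hn z (j * (2 * n + 1) + (2 * i + 1))).2.1 = z (.inl (.inl ⟨j, hj⟩)) := by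
  induction i with
  | zero =>
    have h := (dv (n := n) (m := j) (r := 0) (by omega)).2
    rw [add_zero] at h
    have h1 : rn hn z (j * (2 * n + 1) + (2 * 0 + 1)) =
        ((rn hn z (j * (2 * n + 1))).1, z (.inl (.inl ⟨j, hj⟩)),
          (rn hn z (j * (2 * n + 1))).2.2) := by
      show stp n (j * (2 * n + 1)) (rn hn z (j * (2 * n + 1)))
        (z (vr n hn (j * (2 * n + 1)))) = _
      rw [stp, if_pos h, vr_x hn hj]
    rw [h1]
    simp
  | succ i ih =>
    obtain ⟨h1, h2⟩ := ih (by omega)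
    have hi' : i < n := by omega
    have e1 := (dv (n := n) (m := j) (r := 2 * i + 1) (by omega)).2
    have e2 := (dv (n := n) (m := j) (r := 2 * i + 2) (by omega)).2
    have h3 : rn hn z (j * (2 * n + 1) + (2 * i + 2)) =
        ((rn hn z (j * (2 * n + 1) + (2 * i + 1))).1,
          (rn hn z (j * (2 * n + 1) + (2 * i + 1))).2.1, z (.inr ⟨i, hi'⟩)) := by
      show stp n (j * (2 * n + 1) + (2 * i + 1)) (rn hn z (j * (2 * n + 1) + (2 * i + 1)))
        (z (vr n hn (j * (2 * n + 1) + (2 * i + 1)))) = _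
      rw [stp, e1, if_neg (by omega), if_pos (by omega), vr_w hn hj hi']
    have h4 : rn hn z (j * (2 * n + 1) + (2 * (i + 1) + 1)) =
        (xor (rn hn z (j * (2 * n + 1) + (2 * i + 1))).1
          ((rn hn z (j * (2 * n + 1) + (2 * i + 1))).2.1 && z (.inr ⟨i, hi'⟩) &&
            z (.inl (.inr (⟨i, hi'⟩, ⟨j, hj⟩)))),
          (rn hn z (j * (2 * n + 1) + (2 * i + 1))).2.1, z (.inr ⟨i, hi'⟩)) := by
      show stp n (j * (2 * n + 1) + (2 * i + 2)) (rn hn z (j * (2 * n + 1) + (2 * i + 2)))
        (z (vr n hn (j * (2 * n + 1) + (2 * i + 2)))) = _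
      rw [stp, e2, if_neg (by omega), if_neg (by omega), vr_a hn hj hi', h3]
    rw [h4]
    refine ⟨?_, h2⟩
    show F (xor _ _) = _
    rw [F_xor, F_and, F_and, h1, h2, sum_range_succ, dif_pos hi', add_assoc]

private theorem rn_sum {n : ℕ} (hn : 0 < n) (z : Bit n ⊕ Fin n → Bool) (j : ℕ) (hj : j ≤ n) :
    F (rn hn z (j * (2 * n + 1))).1 = ∑ j' ∈ range j, (if h : j' < n then
      ∑ i : Fin n, F (z (.inl (.inl ⟨j', h⟩))) * F (z (.inr i)) *
        F (z (.inl (.inr (i, ⟨j', h⟩)))) else 0) := by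
  induction j with
  | zero =>
    rw [zero_mul]
    show F false = _
    rw [range_zero, sum_empty]
    rfl
  | succ j ih =>
    have hj' : j < n := by omega
    have h1 : (j + 1) * (2 * n + 1) = j * (2 * n + 1) + (2 * n + 1) := by ring
    have h2 := (rn_row hn z hj' n le_rfl).1
    rw [sum_range] at h2
    rw [h1, h2, ih (by omega), sum_range_succ, dif_pos hj']
    refine congrArg _ (sum_congr rfl fun i _ => ?_)
    rw [dif_pos i.2]

/-- the parity of the row `i` -/
private def row {n : ℕ} (z : Bit n → Bool) (i : Fin n) : ZMod 2 :=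
  ∑ j : Fin n, F (z (.inl j)) * F (z (.inr (i, j)))

private theorem rn_end {n : ℕ} (hn : 0 < n) (z : Bit n → Bool) (w : Fin n → Bool) :
    F (rn hn (Sum.elim z w) (n * (2 * n + 1))).1 = ∑ i : Fin n, F (w i) * row z i := by
  rw [rn_sum hn _ n le_rfl, sum_range]
  have h1 : ∀ j : Fin n, (if h : (j : ℕ) < n then
      ∑ i : Fin n, F (Sum.elim z w (.inl (.inl ⟨j, h⟩))) * F (Sum.elim z w (.inr i)) *
        F (Sum.elim z w (.inl (.inr (i, ⟨j, h⟩)))) else 0) =
      ∑ i : Fin n, F (w i) * (F (z (.inl j)) * F (z (.inr (i, j)))) := by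
    intro j
    rw [dif_pos j.2]
    refine sum_congr rfl fun i _ => ?_
    show F (z (.inl j)) * F (w i) * F (z (.inr (i, j))) = _
    ring
  refine (sum_congr rfl fun j _ => h1 j).trans ?_
  rw [sum_comm]
  refine sum_congr rfl fun i _ => ?_
  rw [row, mul_sum]

private theorem row_ne {n : ℕ} (z : Bit n → Bool) (i : Fin n) : row z i = 1 ↔
    (univ.filter fun j => z (.inr (i, j)) = true ∧ z (.inl j) = true).card % 2 = 1 := by
  have h1 : row z i =
      ((univ.filter fun j => z (.inr (i, j)) = true ∧ z (.inl j) = true).card : ZMod 2) := by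
    rw [row, card_filter, Nat.cast_sum]
    refine sum_congr rfl fun j _ => ?_
    cases h1 : z (.inl j) <;> cases h2 : z (.inr (i, j)) <;> simp [F]
  rw [h1]
  have h2 : (1 : ZMod 2) = ((1 : ℕ) : ZMod 2) := by simp
  rw [h2, ZMod.natCast_eq_natCast_iff']

private theorem two (a : ZMod 2) : a = 0 ∨ a = 1 := by
  revert a
  decide

private theorem half {n : ℕ} (r : Fin n → ZMod 2) (i₀ : Fin n) (h : r i₀ = 1) :
    2 * (univ.filter fun w : Fin n → Bool => ∑ i : Fin n, F (w i) * r i = 1).card = 2 ^ n := by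
  classical
  have hc : (univ.filter fun w : Fin n → Bool => ∑ i : Fin n, F (w i) * r i = 1).card =
      (univ.filter fun w : Fin n → Bool => ¬ ∑ i : Fin n, F (w i) * r i = 1).card := by
    have key : ∀ w : Fin n → Bool,
        ∑ i : Fin n, F (Function.update w i₀ (!w i₀) i) * r i =
          (∑ i : Fin n, F (w i) * r i) + 1 := by
      intro w
      rw [← add_sum_erase univ _ (mem_univ i₀),
        ← add_sum_erase univ (fun i => F (w i) * r i) (mem_univ i₀), Function.update_self, h]
      have h1 : ∑ i ∈ univ.erase i₀, F (Function.update w i₀ (!w i₀) i) * r i =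
          ∑ i ∈ univ.erase i₀, F (w i) * r i := by
        refine sum_congr rfl fun i hi => ?_
        rw [Function.update_of_ne (ne_of_mem_erase hi)]
      rw [h1]
      have h2 : F (!w i₀) = F (w i₀) + 1 := by
        cases w i₀ <;> decide
      rw [h2]
      ring
    have hinv : ∀ w : Fin n → Bool,
        Function.update (Function.update w i₀ (!w i₀)) i₀
          (!(Function.update w i₀ (!w i₀)) i₀) = w := by
      intro w
      rw [Function.update_self, Bool.not_not, Function.update_idem, Function.update_eq_self]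
    refine card_bij' (fun w _ => Function.update w i₀ (!w i₀))
      (fun w _ => Function.update w i₀ (!w i₀)) ?_ ?_ ?_ ?_
    · intro w hw
      rw [mem_filter] at hw ⊢
      refine ⟨mem_univ _, ?_⟩
      rw [key, hw.2]
      decide
    · intro w hw
      rw [mem_filter] at hw ⊢
      refine ⟨mem_univ _, ?_⟩
      rw [key]
      rcases two (∑ i : Fin n, F (w i) * r i) with h1 | h1
      · rw [h1]
        decide
      · exact absurd h1 hw.2
    · intro w _
      exact hinv w
    · intro w _
      exact hinv w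
  have hs := card_filter_add_card_filter_not (s := (univ : Finset (Fin n → Bool)))
    (fun w : Fin n → Bool => ∑ i : Fin n, F (w i) * r i = 1)
  rw [card_univ, Fintype.card_fun, Fintype.card_bool, Fintype.card_fin] at hs
  omega

open Classical in
theorem upper {n : ℕ} (hn : 20 ≤ n) : ∃ (s : ℕ) (D : Circuit (Bit n ⊕ Fin n) s), s ≤ n ^ 4 ∧
    (∀ (z : Bit n → Bool) (w : Fin n → Bool), D.Accepts (Sum.elim z w) → MulNe z) ∧
    (∀ z : Bit n → Bool, MulNe z →
      2 * (univ.filter fun w : Fin n → Bool => D.Accepts (Sum.elim z w)).card = 2 ^ n) ∧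
    ∀ L, Tree D D.out L → ∀ v : Bit n, L.count (Sum.inl v) ≤ 1 := by
  have hn0 : 0 < n := by omega
  obtain ⟨s, D, hs, hacc, hread⟩ := program (n * (2 * n + 1)) 1 le_rfl (vr n hn0)
    (fun _ => stp n) (false, false, false) (fun p => p.1) (fun _ x => rn hn0 x)
    (fun _ _ => rfl) (fun _ _ _ => rfl)
  let f : (Bit n ⊕ Fin n) ⊕ Fin 1 → Bit n ⊕ Fin n := Sum.elim id fun _ => Sum.inr ⟨0, hn0⟩
  have hacc' : ∀ (z : Bit n → Bool) (w : Fin n → Bool), (rc f D).Accepts (Sum.elim z w) ↔
      ∑ i : Fin n, F (w i) * row z i = 1 := by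
    intro z w
    have h1 : (fun v => Sum.elim z w (f v)) =
        Sum.elim (Sum.elim z w) (fun _ : Fin 1 => w ⟨0, hn0⟩) := by
      funext v
      rcases v with v | v <;> rfl
    rw [rc_acc, h1, hacc, F_one, rn_end]
  refine ⟨s, rc f D, ?_, ?_, ?_, ?_⟩
  · refine hs.trans ?_
    simp only [Fintype.card_prod, Fintype.card_bool]
    have h1 : 400 * (n * n) ≤ n ^ 4 := by
      calc 400 * (n * n) ≤ (n * n) * (n * n) := Nat.mul_le_mul_right _ (by nlinarith)
        _ = n ^ 4 := by ring
    nlinarith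
  · intro z w h
    by_contra hc
    have h1 : ∀ i, row z i = 0 := by
      intro i
      rcases two (row z i) with h2 | h2
      · exact h2
      · exact absurd ⟨i, (row_ne z i).1 h2⟩ hc
    have h3 := (hacc' z w).1 h
    rw [sum_eq_zero fun i _ => by rw [h1, mul_zero]] at h3
    exact absurd h3 (by decide)
  · rintro z ⟨i, hi⟩
    rw [← half (row z) i ((row_ne z i).2 hi)]
    congr 2
    exact filter_congr fun w _ => hacc' z w
  · intro L hL v
    obtain ⟨L', hL', rfl⟩ := rc_tree f D _ L hL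
    have h := hread L' hL' (.inl v)
    have h2 : ((List.range (n * (2 * n + 1))).filter fun t => vr n hn0 t = .inl v).length ≤ 1 := by
      have hnd : ((List.range (n * (2 * n + 1))).filter fun t => vr n hn0 t = .inl v).Nodup :=
        List.nodup_range.filter _
      rw [← List.toFinset_card_of_nodup hnd, card_le_one]
      intro a ha b hb
      rw [List.mem_toFinset, List.mem_filter, List.mem_range, decide_eq_true_iff] at ha hb
      exact vr_inj hn0 ha.1 hb.1 ha.2 hb.2
    refine le_trans (le_of_eq ?_) (h.trans (le_trans (le_of_eq ?_) h2))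
    · unfold List.count
      rw [List.countP_map, ← List.countP_eq_length_filter]
      refine List.countP_congr fun y _ => ?_
      rcases y with ((y | y) | y) | y
      · rcases v with v | v
        · show ((y == v) = true) ↔ _
          simp
        · show (false = true) ↔ _
          simp
      · rcases v with v | v
        · show (false = true) ↔ _
          simp
        · show ((y == v) = true) ↔ _
          simp
      · show (false = true) ↔ _
        simp
      · show (false = true) ↔ _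
        simp
    · congr 1

end Pool.Agent.MV
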